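import Pool.Agent.AltPath.Geom

/-!
Lemma X: a red point `a` above the line `l = qc` and a blue point `b` below it, both in the cell between
the separators through `c'` and `c''`, and `a` outside the triangles `q c c'`, `q c c''`: the line `ab`
has `c'` strictly on its left and `c''` strictly on its right.
-/

set_option autoImplicit false

namespace Pool.Agent.AltAll12

open Pool.Agent.AltPath

/-- the real inequalities behind the left half -/
theorem left_real {u t al be gq gc : ℝ} (hu : 0 < u) (ht : 0 < t) (hq : gq ≤ 0)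
    (hX : 0 < u * gq + t * gc) (ha : 0 < al * gq + be * gc) (hP : u * be ≤ t * al) :
    0 < al ∧ 0 < be := by
  have hbe : 0 < be := by
    by_contra hcon
    have hcon := not_lt.mp hcon
    have h1 : 0 < t * (al * gq + be * gc) := mul_pos ht ha
    have h2 : t * al * gq ≤ u * be * gq := mul_le_mul_of_nonpos_right hP hq
    have h3 : be * (u * gq + t * gc) ≤ 0 := mul_nonpos_of_nonpos_of_nonneg hcon hX.le
    nlinarith
  refine ⟨?_, hbe⟩
  have : 0 < t * al := lt_of_lt_of_le (mul_pos hu hbe) hP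
  exact (pos_iff_pos_of_mul_pos this).mp ht

/-- the real inequalities behind the right half -/
theorem right_real {u t al be gq gc : ℝ} (hu : 0 < u) (ht : 0 < t) (hc : 0 ≤ gc)
    (hX : u * gq + t * gc < 0) (ha : al * gq + be * gc < 0) (hP : t * al ≤ u * be) :
    0 < al ∧ 0 < be := by
  have hal : 0 < al := by
    by_contra hcon
    have hcon := not_lt.mp hcon
    have h1 : u * (al * gq + be * gc) < 0 := mul_neg_of_pos_of_neg hu ha
    have h2 : t * al * gc ≤ u * be * gc := mul_le_mul_of_nonneg_right hP hc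
    have h3 : 0 ≤ al * (u * gq + t * gc) := mul_nonneg_of_nonpos_of_nonpos hcon hX.le
    nlinarith
  refine ⟨hal, ?_⟩
  have : 0 < u * be := lt_of_lt_of_le (mul_pos ht hal) hP
  exact (pos_iff_pos_of_mul_pos this).mp hu

/-- The crossing of `ab` with `l` lies strictly between `q` and `c`: here `k = cr (b - q) (a - q)` and
`(-B) (a - q) + A (b - q) = k (c - q)` for `A = cr (c - q) (a - q)`, `B = cr (c - q) (b - q)`. -/
theorem cross_between {q c c' c'' a b w v : ℝ × ℝ}
    (ha : 0 < cr (c - q) (a - q)) (hb : cr (c - q) (b - q) < 0)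
    (hq' : dt w (q - c') ≤ 0) (hc' : 0 < dt w (c - c'))
    (ha' : 0 < dt w (a - c')) (hb' : 0 < dt w (b - c'))
    (hq'' : dt v (q - c'') < 0) (hc'' : 0 ≤ dt v (c - c''))
    (ha'' : dt v (a - c'') < 0) (hb'' : dt v (b - c'') < 0) :
    0 < cr (b - q) (a - q) ∧
      cr (b - q) (a - q) < cr (c - q) (a - q) - cr (c - q) (b - q) := by
  have key : ∀ (x z : ℝ × ℝ), (-cr (c - q) (b - q)) * dt x (a - z) + cr (c - q) (a - q) * dt x (b - z)
      = (cr (c - q) (a - q) - cr (c - q) (b - q) - cr (b - q) (a - q)) * dt x (q - z)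
        + cr (b - q) (a - q) * dt x (c - z) := by
    intro x z
    simp only [cr, dt, Prod.fst_sub, Prod.snd_sub]
    ring
  have k1 := key w c'
  have k2 := key v c''
  set A := cr (c - q) (a - q) with hA
  set B := cr (c - q) (b - q) with hB
  set k := cr (b - q) (a - q) with hk
  constructor
  · by_contra hcon
    have hcon := not_lt.mp hcon
    have e1 : 0 < (-B) * dt w (a - c') + A * dt w (b - c') :=
      add_pos (mul_pos (by linarith) ha') (mul_pos ha hb')
    have e2 : (A - B - k) * dt w (q - c') ≤ 0 := mul_nonpos_of_nonneg_of_nonpos (by linarith) hq'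
    have e3 : k * dt w (c - c') ≤ 0 := mul_nonpos_of_nonpos_of_nonneg hcon hc'.le
    linarith
  · by_contra hcon
    have hcon := not_lt.mp hcon
    have e1 : (-B) * dt v (a - c'') + A * dt v (b - c'') < 0 :=
      add_neg (mul_neg_of_pos_of_neg (by linarith) ha'') (mul_neg_of_pos_of_neg ha hb'')
    have e2 : 0 ≤ (A - B - k) * dt v (q - c'') :=
      mul_nonneg_of_nonpos_of_nonpos (by linarith) hq''.le
    have e3 : 0 ≤ k * dt v (c - c'') := mul_nonneg (by linarith) hc''
    linarith

/-- The identities of a triangle `q c c'` with the points `a`, `b`. -/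
theorem tri_id (q c z a b x : ℝ × ℝ) :
    (-cr (c - q) (b - q)) * cr (q - z) (a - z) + cr (c - q) (a - q) * cr (q - z) (b - z)
        = cr (b - q) (a - q) * cr (c - q) (z - q) ∧
    (-cr (c - q) (b - q)) * cr (z - c) (a - c) + cr (c - q) (a - q) * cr (z - c) (b - c)
        = (cr (c - q) (a - q) - cr (c - q) (b - q) - cr (b - q) (a - q)) * cr (c - q) (z - q) ∧
    cr (a - b) (z - b) * cr (c - q) (z - q)
        = cr (z - c) (b - c) * cr (q - z) (a - z) - cr (q - z) (b - z) * cr (z - c) (a - c) ∧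
    dt x (a - z) * cr (c - q) (z - q)
        = cr (z - c) (a - c) * dt x (q - z) + cr (q - z) (a - z) * dt x (c - z) ∧
    dt x (b - z) * cr (c - q) (z - q)
        = cr (z - c) (b - c) * dt x (q - z) + cr (q - z) (b - z) * dt x (c - z) := by
  simp only [cr, dt, Prod.fst_sub, Prod.snd_sub]
  refine ⟨by ring, by ring, by ring, by ring, by ring⟩

/-- **Lemma X, left half.** -/
theorem lemX_left {q c c' c'' a b w v : ℝ × ℝ} (hcc : 0 < cr (c - q) (c' - q))
    (ha : 0 < cr (c - q) (a - q)) (hb : cr (c - q) (b - q) < 0)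
    (hq' : dt w (q - c') ≤ 0) (hc' : 0 < dt w (c - c'))
    (ha' : 0 < dt w (a - c')) (hb' : 0 < dt w (b - c'))
    (hq'' : dt v (q - c'') < 0) (hc'' : 0 ≤ dt v (c - c''))
    (ha'' : dt v (a - c'') < 0) (hb'' : dt v (b - c'') < 0)
    (hout : ¬ (0 < cr (c - q) (a - q) ∧ 0 < cr (c' - c) (a - c) ∧ 0 < cr (q - c') (a - c'))) :
    0 < cr (a - b) (c' - b) := by
  obtain ⟨hk0, hks⟩ := cross_between ha hb hq' hc' ha' hb' hq'' hc'' ha'' hb''
  by_contra hcon
  have hcon := not_lt.mp hcon
  apply hout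
  obtain ⟨hab, haa, hdet, hga, hgb⟩ := tri_id q c c' a b w
  set A := cr (c - q) (a - q) with hA
  set B := cr (c - q) (b - q) with hB
  set k := cr (b - q) (a - q) with hk
  set D := cr (c - q) (c' - q) with hD
  have hu : 0 < (A - B - k) * D := mul_pos (by linarith) hcc
  have ht : 0 < k * D := mul_pos hk0 hcc
  have hPD : cr (a - b) (c' - b) * D ≤ 0 := mul_nonpos_of_nonpos_of_nonneg hcon hcc.le
  obtain ⟨h1, h2⟩ := left_real hu ht hq' (gc := dt w (c - c')) (al := cr (c' - c) (a - c))
    (be := cr (q - c') (a - c'))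
    (by
      rw [← hab, ← haa]
      have e1 : 0 < (-B) * (dt w (a - c') * D) + A * (dt w (b - c') * D) :=
        add_pos (mul_pos (by linarith) (mul_pos ha' hcc)) (mul_pos ha (mul_pos hb' hcc))
      rw [hga, hgb] at e1
      linarith)
    (by rw [← hga]; exact mul_pos ha' hcc)
    (by
      rw [← hab, ← haa]
      have e2 : A * (cr (a - b) (c' - b) * D) ≤ 0 := mul_nonpos_of_nonneg_of_nonpos ha.le hPD
      rw [hdet] at e2
      linarith)
  exact ⟨ha, h1, h2⟩

/-- **Lemma X, right half**, for a corner `c''` above `l`. -/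
theorem lemX_right {q c c' c'' a b w v : ℝ × ℝ} (hcc : 0 < cr (c - q) (c'' - q))
    (ha : 0 < cr (c - q) (a - q)) (hb : cr (c - q) (b - q) < 0)
    (hq' : dt w (q - c') ≤ 0) (hc' : 0 < dt w (c - c'))
    (ha' : 0 < dt w (a - c')) (hb' : 0 < dt w (b - c'))
    (hq'' : dt v (q - c'') < 0) (hc'' : 0 ≤ dt v (c - c''))
    (ha'' : dt v (a - c'') < 0) (hb'' : dt v (b - c'') < 0)
    (hout : ¬ (0 < cr (c - q) (a - q) ∧ 0 < cr (c'' - c) (a - c) ∧ 0 < cr (q - c'') (a - c''))) :
    cr (a - b) (c'' - b) < 0 := by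
  obtain ⟨hk0, hks⟩ := cross_between ha hb hq' hc' ha' hb' hq'' hc'' ha'' hb''
  by_contra hcon
  have hcon := not_lt.mp hcon
  apply hout
  obtain ⟨hab, haa, hdet, hga, hgb⟩ := tri_id q c c'' a b v
  set A := cr (c - q) (a - q) with hA
  set B := cr (c - q) (b - q) with hB
  set k := cr (b - q) (a - q) with hk
  set D := cr (c - q) (c'' - q) with hD
  have hu : 0 < (A - B - k) * D := mul_pos (by linarith) hcc
  have ht : 0 < k * D := mul_pos hk0 hcc
  have hPD : 0 ≤ cr (a - b) (c'' - b) * D := mul_nonneg hcon hcc.le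
  obtain ⟨h1, h2⟩ := right_real hu ht (gq := dt v (q - c'')) hc'' (al := cr (c'' - c) (a - c))
    (be := cr (q - c'') (a - c''))
    (by
      rw [← hab, ← haa]
      have e1 : (-B) * (dt v (a - c'') * D) + A * (dt v (b - c'') * D) < 0 :=
        add_neg (mul_neg_of_pos_of_neg (by linarith) (mul_neg_of_neg_of_pos ha'' hcc))
          (mul_neg_of_pos_of_neg ha (mul_neg_of_neg_of_pos hb'' hcc))
      rw [hga, hgb] at e1
      linarith)
    (by rw [← hga]; exact mul_neg_of_neg_of_pos ha'' hcc)
    (by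
      rw [← hab, ← haa]
      have e2 : 0 ≤ A * (cr (a - b) (c'' - b) * D) := mul_nonneg ha.le hPD
      rw [hdet] at e2
      linarith)
  exact ⟨ha, h1, h2⟩

/-- **Lemma X, right half for the last cell**: the end point is `c` itself. -/
theorem lemX_last {q c c' a b w v : ℝ × ℝ}
    (ha : 0 < cr (c - q) (a - q)) (hb : cr (c - q) (b - q) < 0)
    (hq' : dt w (q - c') ≤ 0) (hc' : 0 < dt w (c - c'))
    (ha' : 0 < dt w (a - c')) (hb' : 0 < dt w (b - c'))
    (hq'' : dt v (q - c) < 0) (ha'' : dt v (a - c) < 0) (hb'' : dt v (b - c) < 0) :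
    cr (a - b) (c - b) < 0 := by
  obtain ⟨hk0, hks⟩ := cross_between ha hb hq' hc' ha' hb' hq''
    (by simp [dt]) ha'' hb''
  have e : cr (a - b) (c - b)
      = -(cr (c - q) (a - q) - cr (c - q) (b - q) - cr (b - q) (a - q)) := by
    simp only [cr, Prod.fst_sub, Prod.snd_sub]
    ring
  linarith

/-- **Lemma X, left half for the first cell**: the start point is `q` itself. -/
theorem lemX_first {q c a b w : ℝ × ℝ}
    (ha : 0 < cr (c - q) (a - q)) (hb : cr (c - q) (b - q) < 0)
    (hc' : 0 < dt w (c - q)) (ha' : 0 < dt w (a - q)) (hb' : 0 < dt w (b - q)) :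
    0 < cr (a - b) (q - b) := by
  have key : (-cr (c - q) (b - q)) * dt w (a - q) + cr (c - q) (a - q) * dt w (b - q)
      = cr (b - q) (a - q) * dt w (c - q) := by
    simp only [cr, dt, Prod.fst_sub, Prod.snd_sub]
    ring
  have e1 : 0 < cr (b - q) (a - q) * dt w (c - q) := by
    rw [← key]
    exact add_pos (mul_pos (by linarith) ha') (mul_pos ha hb')
  have e2 := (pos_iff_pos_of_mul_pos e1).mpr hc'
  have e : cr (a - b) (q - b) = cr (b - q) (a - q) := by
    simp only [cr, Prod.fst_sub, Prod.snd_sub]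
    ring
  rw [e]; exact e2

end Pool.Agent.AltAll12
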