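import Pool.Agent.AltAll.Geo34

/-! The bent fold at a point: about `n` points between two rays. -/

set_option autoImplicit false

namespace Pool.Agent.AltAll

open Pool.Agent.AltPath Pool.Agent.AltHP Pool.Agent.HPD79 Pool.Agent.HPD66

theorem dt_turn83 (c b y : ℝ × ℝ) (t : ℝ) : dt (c - t • b) y = dt c y - t * dt b y := by
  simp only [dt, Prod.fst_sub, Prod.snd_sub, Prod.smul_fst, Prod.smul_snd, smul_eq_mul]
  ring

theorem bent_core83 {R B : Finset (ℝ × ℝ)} (hd : Disjoint R B) (hgp : GP (R ∪ B))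
    {x v b c : ℝ × ℝ} (hfr : Frame34 (R ∪ B) x v b c) {X X' : Finset (ℝ × ℝ)}
    (hX : Ini34 (R ∪ B) x b c X) (hX' : Ini34 (R ∪ B) x (-b) c X')
    (h0 : (B ∩ (up34 (R ∪ B) x b \ X)).card ≤ (R ∩ X).card)
    (h1 : (R ∩ X).card + (R ∩ X').card ≤
      (B ∩ (up34 (R ∪ B) x b \ X)).card + (B ∩ (up34 (R ∪ B) x (-b) \ X')).card + 1) :
    ∃ k, HasPath R B k ∧ 2 * ((R ∩ X).card + (R ∩ X').card) ≤ k + 6 := by
  classical
  obtain ⟨hXU, s, hs1, hs2⟩ := hX
  obtain ⟨hXL, s₀, hs3, hs4⟩ := hX'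
  obtain ⟨s', hs'⟩ : ∃ s', s' = -s₀ := ⟨_, rfl⟩
  obtain ⟨f, hf⟩ : ∃ f : ℝ × ℝ → ℝ, ∀ p, f p = dt c (p - x) / dt b (p - x) := ⟨_, fun _ => rfl⟩
  have hcb : cr c b ≠ 0 := cr_ne34 hfr
  have hRP : R ⊆ R ∪ B := Finset.subset_union_left
  have hBP : B ⊆ R ∪ B := Finset.subset_union_right
  -- the function on the two sides
  have fu : ∀ p t, 0 < dt b (p - x) → (f p < t ↔ dt (c - t • b) (p - x) < 0) := by
    intro p t hp
    rw [hf, div_lt_iff₀ hp, dt_turn83]
    constructor <;> intro h <;> linarith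
  have fu' : ∀ p t, 0 < dt b (p - x) → (t < f p ↔ 0 < dt (c - t • b) (p - x)) := by
    intro p t hp
    rw [hf, lt_div_iff₀ hp, dt_turn83]
    constructor <;> intro h <;> linarith
  have fl : ∀ p t, dt b (p - x) < 0 → (f p < t ↔ 0 < dt (c - t • b) (p - x)) := by
    intro p t hp
    rw [hf, div_lt_iff_of_neg hp, dt_turn83]
    constructor <;> intro h <;> linarith
  have fl' : ∀ p t, dt b (p - x) < 0 → (t < f p ↔ dt (c - t • b) (p - x) < 0) := by
    intro p t hp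
    rw [hf, lt_div_iff_of_neg hp, dt_turn83]
    constructor <;> intro h <;> linarith
  have gX : ∀ p ∈ X, 0 < dt b (p - x) ∧ f p < s := by
    intro p hp
    have h2 := (mem_up34.1 (hXU hp)).2
    refine ⟨h2, (fu p s h2).2 ?_⟩
    rw [dt_turn83]
    linarith [hs1 p hp]
  have gU : ∀ p ∈ up34 (R ∪ B) x b \ X, 0 < dt b (p - x) ∧ s < f p := by
    intro p hp
    obtain ⟨hp1, hp2⟩ := Finset.mem_sdiff.1 hp
    have h2 := (mem_up34.1 hp1).2
    refine ⟨h2, (fu' p s h2).2 ?_⟩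
    rw [dt_turn83]
    linarith [hs2 p hp1 hp2]
  have gX' : ∀ p ∈ X', dt b (p - x) < 0 ∧ s' < f p := by
    intro p hp
    have h2 := (mem_low34.1 (hXL hp)).2
    refine ⟨h2, (fl' p s' h2).2 ?_⟩
    have h3 := hs3 p hp
    rw [dt_neg_left] at h3
    rw [dt_turn83, hs']
    linarith
  have gL : ∀ p ∈ up34 (R ∪ B) x (-b) \ X', dt b (p - x) < 0 ∧ f p < s' := by
    intro p hp
    obtain ⟨hp1, hp2⟩ := Finset.mem_sdiff.1 hp
    have h2 := (mem_low34.1 hp1).2
    refine ⟨h2, (fl p s' h2).2 ?_⟩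
    have h3 := hs4 p hp1 hp2
    rw [dt_neg_left] at h3
    rw [dt_turn83, hs']
    linarith
  obtain ⟨U', hU'⟩ : ∃ U', U' = up34 (R ∪ B) x b \ X := ⟨_, rfl⟩
  obtain ⟨L', hL'⟩ : ∃ L', L' = up34 (R ∪ B) x (-b) \ X' := ⟨_, rfl⟩
  rw [← hU'] at gU h0 h1
  rw [← hL'] at gL h1
  obtain ⟨τ, hτ⟩ : ∃ τ, τ = min s s' := ⟨_, rfl⟩
  have hτ1 : τ ≤ s := by rw [hτ]; exact min_le_left _ _
  have hτ2 : τ ≤ s' := by rw [hτ]; exact min_le_right _ _
  obtain ⟨E, hE⟩ : ∃ E, E = ((R ∩ X) ∪ (B ∩ L')).filter (fun p => f p < τ) := ⟨_, rfl⟩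
  have hEm : ∀ p, p ∈ E ↔ (p ∈ (R ∩ X) ∪ (B ∩ L')) ∧ f p < τ := fun p => by
    rw [hE, Finset.mem_filter]
  -- the number of points of E
  have hEc : (R ∩ X).card ≤ (B ∩ U').card + E.card + 1 := by
    rcases le_total s s' with h | h
    · have h2 : τ = s := by rw [hτ]; exact min_eq_left h
      have h3 : R ∩ X ⊆ E := by
        intro p hp
        rw [hEm]
        refine ⟨Finset.mem_union_left _ hp, ?_⟩
        rw [h2]
        exact (gX p (Finset.mem_inter.1 hp).2).2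
      have := Finset.card_le_card h3
      omega
    · have h2 : τ = s' := by rw [hτ]; exact min_eq_right h
      have h3 : B ∩ L' ⊆ E := by
        intro p hp
        rw [hEm]
        refine ⟨Finset.mem_union_right _ hp, ?_⟩
        rw [h2]
        exact (gL p (Finset.mem_inter.1 hp).2).2
      have := Finset.card_le_card h3
      omega
  have hEP : ∀ p ∈ E, p ∈ R ∪ B ∧ dt b (p - x) ≠ 0 := by
    intro p hp
    rcases Finset.mem_union.1 ((hEm p).1 hp).1 with h | h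
    · obtain ⟨h2, h3⟩ := Finset.mem_inter.1 h
      exact ⟨hRP h2, (gX p h3).1.ne'⟩
    · obtain ⟨h2, h3⟩ := Finset.mem_inter.1 h
      exact ⟨hBP h2, (gL p h3).1.ne⟩
  have hne : ∀ p, dt b (p - x) ≠ 0 → x ≠ p := by
    rintro p hp rfl
    exact hp (dt_self_sub _ _)
  obtain ⟨E₁, hE1, hE1c, t, ht, ht1, ht2⟩ := thr34 E f τ
    (fun p hp q hq hpq => inj34 hgp hcb hfr.hx (hEP p hp).1 (hEP q hq).1 (hne p (hEP p hp).2)
      (hne q (hEP q hq).2) (hEP p hp).2 (hEP q hq).2 (by rw [← hf, ← hf]; exact hpq))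
    (fun p hp => ((hEm p).1 hp).2) (min ((R ∩ X).card - (B ∩ U').card) E.card) (min_le_right _ _)
  -- the points outside of E₁
  have out : ∀ p, (p ∈ R ∩ X ∨ p ∈ B ∩ L') → p ∉ E₁ → t < f p := by
    intro p hp hp1
    by_cases h2 : f p < τ
    · exact ht2 p ((hEm p).2 ⟨Finset.mem_union.2 hp, h2⟩) hp1
    · push Not at h2
      linarith
  -- the four sets
  obtain ⟨R₁, hR1⟩ : ∃ R₁, R₁ = (R ∩ X) \ E₁ := ⟨_, rfl⟩
  obtain ⟨B₁, hB1⟩ : ∃ B₁, B₁ = (B ∩ U') ∪ ((B ∩ L') ∩ E₁) := ⟨_, rfl⟩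
  obtain ⟨R₂, hR2⟩ : ∃ R₂, R₂ = ((R ∩ X) ∩ E₁) ∪ (R ∩ X') := ⟨_, rfl⟩
  obtain ⟨B₂, hB2⟩ : ∃ B₂, B₂ = (B ∩ L') \ E₁ := ⟨_, rfl⟩
  have cR1 : ((R ∩ X) ∩ E₁).card + R₁.card = (R ∩ X).card := by
    rw [hR1]
    exact Finset.card_inter_add_card_sdiff _ _
  have cB2 : ((B ∩ L') ∩ E₁).card + B₂.card = (B ∩ L').card := by
    rw [hB2]
    exact Finset.card_inter_add_card_sdiff _ _
  have cB1 : B₁.card = (B ∩ U').card + ((B ∩ L') ∩ E₁).card := by
    rw [hB1]
    apply Finset.card_union_of_disjoint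
    rw [Finset.disjoint_left]
    intro p hp hp'
    have h2 := (gU p (Finset.mem_inter.1 hp).2).1
    have h3 := (gL p (Finset.mem_inter.1 (Finset.mem_inter.1 hp').1).2).1
    linarith
  have cR2 : R₂.card = ((R ∩ X) ∩ E₁).card + (R ∩ X').card := by
    rw [hR2]
    apply Finset.card_union_of_disjoint
    rw [Finset.disjoint_left]
    intro p hp hp'
    have h2 := (gX p (Finset.mem_inter.1 (Finset.mem_inter.1 hp).1).2).1
    have h3 := (gX' p (Finset.mem_inter.1 hp').2).1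
    linarith
  have cE : ((R ∩ X) ∩ E₁).card + ((B ∩ L') ∩ E₁).card = E₁.card := by
    rw [← Finset.card_union_of_disjoint]
    · congr 1
      ext p
      rw [Finset.mem_union, Finset.mem_inter, Finset.mem_inter (s₁ := B ∩ L')]
      constructor
      · rintro (h | h)
        · exact h.2
        · exact h.2
      · intro h
        rcases Finset.mem_union.1 ((hEm p).1 (hE1 h)).1 with h2 | h2
        · exact Or.inl ⟨h2, h⟩
        · exact Or.inr ⟨h2, h⟩
    · rw [Finset.disjoint_left]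
      intro p hp hp'
      exact Finset.disjoint_left.1 hd (Finset.mem_inter.1 (Finset.mem_inter.1 hp).1).1
        (Finset.mem_inter.1 (Finset.mem_inter.1 hp').1).1
  obtain ⟨R₁', hR1', hR1c⟩ := Finset.exists_subset_card_eq (min_le_left R₁.card B₁.card)
  obtain ⟨B₁', hB1', hB1c⟩ := Finset.exists_subset_card_eq (min_le_right R₁.card B₁.card)
  obtain ⟨R₂', hR2', hR2c⟩ := Finset.exists_subset_card_eq (min_le_left R₂.card B₂.card)
  obtain ⟨B₂', hB2', hB2c⟩ := Finset.exists_subset_card_eq (min_le_right R₂.card B₂.card)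
  -- positions
  have pR1 : ∀ p ∈ R₁, p ∈ R ∧ 0 < dt (c - t • b) (p - x) ∧ dt (c - s • b) (p - x) < 0 := by
    intro p hp
    rw [hR1] at hp
    obtain ⟨h2, h3⟩ := Finset.mem_sdiff.1 hp
    obtain ⟨h4, h5⟩ := Finset.mem_inter.1 h2
    obtain ⟨h6, h7⟩ := gX p h5
    exact ⟨h4, (fu' p t h6).1 (out p (Or.inl h2) h3), (fu p s h6).1 h7⟩
  have pB1 : ∀ p ∈ B₁, p ∈ B ∧ 0 < dt (c - t • b) (p - x) ∧ 0 < dt (c - s • b) (p - x) := by
    intro p hp
    rw [hB1] at hp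
    rcases Finset.mem_union.1 hp with h2 | h2
    · obtain ⟨h4, h5⟩ := Finset.mem_inter.1 h2
      obtain ⟨h6, h7⟩ := gU p h5
      exact ⟨h4, (fu' p t h6).1 (by linarith), (fu' p s h6).1 h7⟩
    · obtain ⟨h4, h5⟩ := Finset.mem_inter.1 h2
      obtain ⟨h6, h7⟩ := Finset.mem_inter.1 h4
      obtain ⟨h8, h9⟩ := gL p h7
      have h10 := ht1 p h5
      exact ⟨h6, (fl p t h8).1 h10, (fl p s h8).1 (by linarith)⟩
  have pR2 : ∀ p ∈ R₂, p ∈ R ∧ dt (c - t • b) (p - x) < 0 ∧ dt (c - s' • b) (p - x) < 0 := by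
    intro p hp
    rw [hR2] at hp
    rcases Finset.mem_union.1 hp with h2 | h2
    · obtain ⟨h4, h5⟩ := Finset.mem_inter.1 h2
      obtain ⟨h6, h7⟩ := Finset.mem_inter.1 h4
      obtain ⟨h8, h9⟩ := gX p h7
      have h10 := ht1 p h5
      exact ⟨h6, (fu p t h8).1 h10, (fu p s' h8).1 (by linarith)⟩
    · obtain ⟨h4, h5⟩ := Finset.mem_inter.1 h2
      obtain ⟨h6, h7⟩ := gX' p h5
      exact ⟨h4, (fl' p t h6).1 (by linarith), (fl' p s' h6).1 h7⟩
  have pB2 : ∀ p ∈ B₂, p ∈ B ∧ dt (c - t • b) (p - x) < 0 ∧ 0 < dt (c - s' • b) (p - x) := by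
    intro p hp
    rw [hB2] at hp
    obtain ⟨h2, h3⟩ := Finset.mem_sdiff.1 hp
    obtain ⟨h4, h5⟩ := Finset.mem_inter.1 h2
    obtain ⟨h6, h7⟩ := gL p h5
    exact ⟨h4, (fl' p t h6).1 (out p (Or.inr h2) h3), (fl p s' h6).1 h7⟩
  have crt : ∀ u : ℝ, t < u → cr (c - u • b) (c - t • b) ≠ 0 := by
    intro u hu h
    have h2 : (u - t) * cr c b = 0 := by
      rw [← h]
      simp only [cr, Prod.fst_sub, Prod.snd_sub, Prod.smul_fst, Prod.smul_snd, smul_eq_mul]
      ring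
    rcases mul_eq_zero.1 h2 with h3 | h3
    · linarith
    · exact hcb h3
  obtain ⟨l₁, hl1, hl1m, hl1c⟩ := arm34 hd hgp (z := x) (w := c - t • b) (a := c - s • b) hfr.hx
    (R₁ := R₁') (B₁ := B₁') (fun p hp => (pR1 p (hR1' hp)).1) (fun p hp => (pB1 p (hB1' hp)).1)
    (by rw [hR1c, hB1c]) (crt s (by linarith)) (fun p hp => (pR1 p (hR1' hp)).2.1)
    (fun p hp => (pB1 p (hB1' hp)).2.1) (fun p hp => (pR1 p (hR1' hp)).2.2)
    (fun p hp => (pB1 p (hB1' hp)).2.2)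
  obtain ⟨l₂, hl2, hl2m, hl2c⟩ := arm34 hd hgp (z := x) (w := -(c - t • b)) (a := c - s' • b)
    hfr.hx (R₁ := R₂') (B₁ := B₂') (fun p hp => (pR2 p (hR2' hp)).1)
    (fun p hp => (pB2 p (hB2' hp)).1) (by rw [hR2c, hB2c])
    (by
      intro h
      apply crt s' (by linarith)
      simp only [cr, Prod.fst_neg, Prod.snd_neg] at h ⊢
      linarith)
    (fun p hp => by rw [dt_neg_left]; linarith [(pR2 p (hR2' hp)).2.1])
    (fun p hp => by rw [dt_neg_left]; linarith [(pB2 p (hB2' hp)).2.1])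
    (fun p hp => (pR2 p (hR2' hp)).2.2) (fun p hp => (pB2 p (hB2' hp)).2.2)
  have hpath : SPath R B (l₂.reverse ++ x :: l₁) := by
    refine SPath.glue_line (w := c - t • b) ?_ hl1 ?_ ?_
    · have := hl2.reverse hd
      rwa [List.reverse_cons] at this
    · intro p hp
      rcases Finset.mem_union.1 (hl2m p (List.mem_reverse.1 hp)) with h | h
      · exact (pR2 p (hR2' h)).2.1
      · exact (pB2 p (hB2' h)).2.1
    · intro p hp
      rcases Finset.mem_union.1 (hl1m p hp) with h | h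
      · exact (pR1 p (hR1' h)).2.1
      · exact (pB1 p (hB1' h)).2.1
  refine ⟨_, hpath.hasPath, ?_⟩
  rw [List.length_append, List.length_reverse, List.length_cons, hl1c, hl2c, hR1c, hR2c]
  omega

/-- **The bent fold.** -/
theorem bent34 : BentStmt34 := by
  classical
  intro R B n G x v b c X X' hd hgp hR hB hmax hfr hX hX' hcard
  have hRP : R ⊆ R ∪ B := Finset.subset_union_left
  have hBP : B ⊆ R ∪ B := Finset.subset_union_right
  have hnn : -(-b) = b := neg_neg b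
  -- the counts
  have hBc := card_frame34 hgp hfr hBP
  have hx2 : (B ∩ {x, v}).card ≤ 2 :=
    (Finset.card_le_card Finset.inter_subset_right).trans Finset.card_le_two
  have spl : ∀ (Y W : Finset (ℝ × ℝ)), W ⊆ R ∪ B → Y ⊆ W →
      (R ∩ Y).card + (B ∩ Y).card = Y.card ∧
        (B ∩ Y).card + (B ∩ (W \ Y)).card = (B ∩ W).card := by
    intro Y W hW hY
    constructor
    · rw [← Finset.card_union_of_disjoint
        (Disjoint.mono Finset.inter_subset_left Finset.inter_subset_left hd),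
        ← Finset.union_inter_distrib_right, Finset.inter_eq_right.2 (hY.trans hW)]
    · rw [← Finset.card_union_of_disjoint, ← Finset.inter_union_distrib_left,
        Finset.union_sdiff_of_subset hY]
      rw [Finset.disjoint_left]
      intro p hp hp'
      exact (Finset.mem_sdiff.1 (Finset.mem_inter.1 hp').2).2 (Finset.mem_inter.1 hp).2
  have hU : up34 (R ∪ B) x b ⊆ R ∪ B := fun p hp => (mem_up34.1 hp).1
  have hL : up34 (R ∪ B) x (-b) ⊆ R ∪ B := fun p hp => (mem_up34.1 hp).1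
  obtain ⟨e1, e2⟩ := spl X _ hU hX.1
  obtain ⟨e3, e4⟩ := spl X' _ hL hX'.1
  by_cases h : (B ∩ (up34 (R ∪ B) x b \ X)).card ≤ (R ∩ X).card
  · obtain ⟨k, hk, hk2⟩ := bent_core83 hd hgp hfr hX hX' h (by omega)
    have := hmax k hk
    omega
  · have hfr' : Frame34 (R ∪ B) x v (-b) c :=
      ⟨hfr.hx, hfr.hv, by rw [dt_neg_left, hfr.hb, neg_zero], neg_ne_zero.2 hfr.hb0, hfr.hc⟩
    obtain ⟨k, hk, hk2⟩ := bent_core83 hd hgp hfr' hX' (by rw [hnn]; exact hX) (by omega)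
      (by rw [hnn]; omega)
    have := hmax k hk
    omega

end Pool.Agent.AltAll
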