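import Pool.Agent.AltAll.Iface30
import Pool.Agent.AltALL.Pin79

/-! Section 3 in the form of the interface: the chain of the hole. -/

set_option autoImplicit false

namespace Pool.Agent.AltAll

open Pool.Agent.AltPath Pool.Agent.AltHP Pool.Agent.HPD79 Pool.Agent.AltALL

/-- The two forms of the wedge bound agree. -/
theorem wed79_of_wb30 {R B : Finset (ℝ × ℝ)} (hdis : Disjoint R B) {D : ℕ}
    (h : WB30 R B D) : Wed79 R B D := by
  classical
  intro x hx w₁ w₂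
  rw [Dc79_eq hdis (Finset.filter_subset _ _)]
  have e1 : R ∩ (R ∪ B).filter (fun p => 0 < dt w₁ (p - x) ∧ 0 < dt w₂ (p - x)) =
      R.filter (fun p => 0 < dt w₁ (p - x) ∧ 0 < dt w₂ (p - x)) := by
    ext q
    rw [Finset.mem_inter, Finset.mem_filter, Finset.mem_filter, Finset.mem_union]
    tauto
  have e2 : B ∩ (R ∪ B).filter (fun p => 0 < dt w₁ (p - x) ∧ 0 < dt w₂ (p - x)) =
      B.filter (fun p => 0 < dt w₁ (p - x) ∧ 0 < dt w₂ (p - x)) := by
    ext q
    rw [Finset.mem_inter, Finset.mem_filter, Finset.mem_filter, Finset.mem_union]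
    tauto
  rw [e1, e2]
  exact h x hx w₁ w₂

theorem wb30_of_wed79 {R B : Finset (ℝ × ℝ)} (hdis : Disjoint R B) {D : ℕ}
    (h : Wed79 R B D) : WB30 R B D := by
  classical
  intro x hx w₁ w₂
  have h1 := h x hx w₁ w₂
  rw [Dc79_eq hdis (Finset.filter_subset _ _)] at h1
  have e1 : R ∩ (R ∪ B).filter (fun p => 0 < dt w₁ (p - x) ∧ 0 < dt w₂ (p - x)) =
      R.filter (fun p => 0 < dt w₁ (p - x) ∧ 0 < dt w₂ (p - x)) := by
    ext q
    rw [Finset.mem_inter, Finset.mem_filter, Finset.mem_filter, Finset.mem_union]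
    tauto
  have e2 : B ∩ (R ∪ B).filter (fun p => 0 < dt w₁ (p - x) ∧ 0 < dt w₂ (p - x)) =
      B.filter (fun p => 0 < dt w₁ (p - x) ∧ 0 < dt w₂ (p - x)) := by
    ext q
    rw [Finset.mem_inter, Finset.mem_filter, Finset.mem_filter, Finset.mem_union]
    tauto
  rwa [e1, e2] at h1

/-- Section 3: the chain of the hole. -/
theorem chainS79 (R B : Finset (ℝ × ℝ)) (n D : ℕ) (F : Finset (ℝ × ℝ)) (hdis : Disjoint R B)
    (hgp : GP (R ∪ B)) (hR : R.card = n) (hB : B.card = n) (hW : WB30 R B D) (hF : F ⊆ B)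
    (hred : ∀ r ∈ R, r ∉ convexHull ℝ (F : Set (ℝ × ℝ))) (h2 : 2 ≤ F.card) :
    ∃ (v : ℕ) (z : ℕ → ℝ × ℝ), 1 ≤ v ∧ Chain30 R B v z ∧
      F.card ≤ (v + 1) + (v - 1) * (3 * D + 3) := by
  obtain ⟨v, z, h1, hz, hinj, hcl, hcard, hno⟩ :=
    chain79 hdis hgp hR hB (wed79_of_wb30 hdis hW) hF h2 hred
  exact ⟨v, z, h1, ⟨fun i hi => hF (hz i hi), hinj, hcl,
    fun i j k hi hj hk r hr => hno i hi j hj k hk r hr⟩, hcard⟩

/-- Section 3 as the interface Prop. -/
theorem chainStmt79 : ChainStmt30 := by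
  intro R B n D F hdis hgp hR hB hW hF hred h2
  exact chainS79 R B n D F hdis hgp hR hB hW hF hred h2

end Pool.Agent.AltAll
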