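import Pool.Agent.AltAll.CornB30

/-! Hulls of k points, each in the set or outside of its hull: discrepancy and paths. -/

set_option autoImplicit false

namespace Pool.Agent.AltAll

open Pool.Agent.AltPath Pool.Agent.AltHP Pool.Agent.HPD79 Pool.Agent.AltALL

/-- One of three collinear points is a convex combination of the other two. -/
theorem comb30 {a b c : ℝ × ℝ} (hab : a ≠ b) (h0 : cr (b - a) (c - a) = 0) :
    (∃ t : ℝ, 0 ≤ t ∧ t ≤ 1 ∧ c = (1 - t) • a + t • b) ∨
    (∃ t : ℝ, 0 ≤ t ∧ t ≤ 1 ∧ b = (1 - t) • a + t • c) ∨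
    (∃ t : ℝ, 0 ≤ t ∧ t ≤ 1 ∧ a = (1 - t) • c + t • b) := by
  have hne : b - a ≠ 0 := sub_ne_zero.mpr hab.symm
  have hpos := dt_self_pos hne
  obtain ⟨t, ht⟩ : ∃ t, t = dt (b - a) (c - a) / dt (b - a) (b - a) := ⟨_, rfl⟩
  have ht' : t * dt (b - a) (b - a) = dt (b - a) (c - a) := by
    rw [ht, div_mul_cancel₀ _ hpos.ne']
  have hc1 : c.1 - a.1 = t * (b.1 - a.1) := by
    have h1 : (c.1 - a.1 - t * (b.1 - a.1)) * dt (b - a) (b - a) = 0 := by
      have e : (c.1 - a.1 - t * (b.1 - a.1)) * dt (b - a) (b - a) =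
          (c.1 - a.1) * dt (b - a) (b - a) - (b.1 - a.1) * (t * dt (b - a) (b - a)) := by ring
      rw [e, ht']
      simp only [cr, dt, Prod.fst_sub, Prod.snd_sub] at h0 ⊢
      linear_combination (-(b.2 - a.2)) * h0
    have := (mul_eq_zero.mp h1).resolve_right hpos.ne'
    linarith
  have hc2 : c.2 - a.2 = t * (b.2 - a.2) := by
    have h1 : (c.2 - a.2 - t * (b.2 - a.2)) * dt (b - a) (b - a) = 0 := by
      have e : (c.2 - a.2 - t * (b.2 - a.2)) * dt (b - a) (b - a) =
          (c.2 - a.2) * dt (b - a) (b - a) - (b.2 - a.2) * (t * dt (b - a) (b - a)) := by ring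
      rw [e, ht']
      simp only [cr, dt, Prod.fst_sub, Prod.snd_sub] at h0 ⊢
      linear_combination ((b.1 - a.1)) * h0
    have := (mul_eq_zero.mp h1).resolve_right hpos.ne'
    linarith
  rcases lt_or_ge t 0 with h | h
  · -- a between c and b
    right; right
    have h1 : 0 < 1 - t := by linarith
    refine ⟨-t / (1 - t), div_nonneg (by linarith) h1.le, ?_, ?_⟩
    · rw [div_le_one h1]; linarith
    · refine Prod.ext ?_ ?_
      · simp only [Prod.fst_add, Prod.smul_fst, smul_eq_mul]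
        field_simp
        linear_combination (-1) * hc1
      · simp only [Prod.snd_add, Prod.smul_snd, smul_eq_mul]
        field_simp
        linear_combination (-1) * hc2
  rcases le_or_gt t 1 with h' | h'
  · left
    refine ⟨t, h, h', ?_⟩
    refine Prod.ext ?_ ?_
    · simp only [Prod.fst_add, Prod.smul_fst, smul_eq_mul]
      linear_combination hc1
    · simp only [Prod.snd_add, Prod.smul_snd, smul_eq_mul]
      linear_combination hc2
  · right; left
    have h1 : 0 < t := by linarith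
    refine ⟨1 / t, by positivity, ?_, ?_⟩
    · rw [div_le_one h1]; linarith
    · refine Prod.ext ?_ ?_
      · simp only [Prod.fst_add, Prod.smul_fst, smul_eq_mul]
        field_simp
        linear_combination (-1) * hc1
      · simp only [Prod.snd_add, Prod.smul_snd, smul_eq_mul]
        field_simp
        linear_combination (-1) * hc2

/-- A subset of smallest size with the same hull is in general position. -/
theorem minhull30 (F : Finset (ℝ × ℝ)) : ∃ F' ⊆ F,
    convexHull ℝ (F' : Set (ℝ × ℝ)) = convexHull ℝ (F : Set (ℝ × ℝ)) ∧ GP F' := by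
  classical
  obtain ⟨F', hF', hmin⟩ := Finset.exists_min_image
    (F.powerset.filter (fun G : Finset (ℝ × ℝ) => convexHull ℝ (G : Set (ℝ × ℝ)) = convexHull ℝ (F : Set (ℝ × ℝ))))
    Finset.card ⟨F, by simp⟩
  rw [Finset.mem_filter, Finset.mem_powerset] at hF'
  refine ⟨F', hF'.1, hF'.2, ?_⟩
  -- no point is in the hull of the others
  have hred : ∀ x ∈ F', x ∉ convexHull ℝ ((F'.erase x : Finset (ℝ × ℝ)) : Set (ℝ × ℝ)) := by
    intro x hx hx'
    have h1 : convexHull ℝ ((F'.erase x : Finset (ℝ × ℝ)) : Set (ℝ × ℝ)) =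
        convexHull ℝ (F : Set (ℝ × ℝ)) := by
      rw [← hF'.2]
      apply Set.Subset.antisymm
      · exact convexHull_mono (Finset.coe_subset.mpr (Finset.erase_subset _ _))
      · apply convexHull_min _ (convex_convexHull ℝ _)
        intro y hy
        by_cases hyx : y = x
        · rw [hyx]; exact hx'
        · exact subset_convexHull ℝ _ (Finset.mem_coe.mpr
            (Finset.mem_erase.mpr ⟨hyx, Finset.mem_coe.mp hy⟩))
    have h2 := hmin (F'.erase x) (by
      rw [Finset.mem_filter, Finset.mem_powerset]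
      exact ⟨(Finset.erase_subset _ _).trans hF'.1, h1⟩)
    rw [Finset.card_erase_of_mem hx] at h2
    have h3 : 0 < F'.card := Finset.card_pos.mpr ⟨x, hx⟩
    omega
  have hcomb : ∀ x ∈ F', ∀ y ∈ F', ∀ w ∈ F', y ≠ x → w ≠ x →
      ¬ ∃ t : ℝ, 0 ≤ t ∧ t ≤ 1 ∧ x = (1 - t) • y + t • w := by
    rintro x hx y hy w hw hyx hwx ⟨t, h0, h1, he⟩
    apply hred x hx
    have hC := convex_convexHull ℝ ((F'.erase x : Finset (ℝ × ℝ)) : Set (ℝ × ℝ))
    have k1 : y ∈ convexHull ℝ ((F'.erase x : Finset (ℝ × ℝ)) : Set (ℝ × ℝ)) :=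
      subset_convexHull ℝ _ (Finset.mem_coe.mpr (Finset.mem_erase.mpr ⟨hyx, hy⟩))
    have k2 : w ∈ convexHull ℝ ((F'.erase x : Finset (ℝ × ℝ)) : Set (ℝ × ℝ)) :=
      subset_convexHull ℝ _ (Finset.mem_coe.mpr (Finset.mem_erase.mpr ⟨hwx, hw⟩))
    have k3 := hC k1 k2 (by linarith : (0 : ℝ) ≤ 1 - t) h0 (by ring)
    rw [← he] at k3
    exact k3
  intro a ha b hb c hc hab hac hbc h0
  rcases comb30 hab h0 with h | h | h
  · exact hcomb c hc a ha b hb hac hbc h
  · exact hcomb b hb a ha c hc hab hbc.symm h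
  · exact hcomb a ha c hc b hb hac.symm hab.symm h

/-- The discrepancy of the hull of k points at which all wedges are balanced. -/
theorem corn_disc30 {R P : Finset (ℝ × ℝ)} (hP0 : Dc79 R P = 0) (hgp : GP P) {D : ℤ}
    (hD2 : 2 ≤ D) {F : Finset (ℝ × ℝ)} (hW : ∀ x ∈ F, AW30 R P D x) {T : Finset (ℝ × ℝ)}
    (hT : ∀ p, p ∈ T ↔ p ∈ P ∧ p ∈ convexHull ℝ (F : Set (ℝ × ℝ))) :
    |Dc79 R T| ≤ F.card * D := by
  classical
  obtain ⟨F', hF', hhull, hgp'⟩ := minhull30 F
  have hcc : (F'.card : ℤ) ≤ F.card := by exact_mod_cast Finset.card_le_card hF'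
  rw [← hhull] at hT
  have hD0 : 0 ≤ D := by linarith
  have hmono : (F'.card : ℤ) * D ≤ F.card * D := mul_le_mul_of_nonneg_right hcc hD0
  refine le_trans ?_ hmono
  rcases Nat.lt_or_ge F'.card 3 with h3 | h3
  · -- at most two points of P in the hull
    have hTc : T.card ≤ F'.card := by
      rcases Nat.lt_or_ge F'.card 2 with h2 | h2
      · -- at most one point
        apply Finset.card_le_card
        intro p hp
        have hp' := ((hT p).mp hp).2
        have hs : ((F' : Set (ℝ × ℝ))).Subsingleton := by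
          rw [← Finset.card_le_one_iff_subsingleton]
          omega
        rcases hs.eq_empty_or_singleton with h | ⟨x, h⟩
        · rw [h, convexHull_empty] at hp'
          exact absurd hp' (Set.notMem_empty _)
        · rw [h, convexHull_singleton, ← h] at hp'
          exact Finset.mem_coe.mp hp'
      · -- a segment
        have hc2 : F'.card = 2 := by omega
        obtain ⟨a, b, hab, hFab⟩ := Finset.card_eq_two.mp hc2
        rw [hc2]
        by_contra hcon
        push Not at hcon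
        obtain ⟨x, hx, y, hy, w, hw, hxy, hxw, hyw⟩ := Finset.two_lt_card.mp hcon
        have hseg : ∀ p ∈ T, ∃ t : ℝ, p = a + t • (b - a) := by
          intro p hp
          have hp' := ((hT p).mp hp).2
          rw [hFab, Finset.coe_insert, Finset.coe_singleton, convexHull_pair,
            segment_eq_image'] at hp'
          obtain ⟨t, -, ht⟩ := hp'
          exact ⟨t, ht.symm⟩
        obtain ⟨t1, e1⟩ := hseg x hx
        obtain ⟨t2, e2⟩ := hseg y hy
        obtain ⟨t3, e3⟩ := hseg w hw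
        refine hgp x ((hT x).mp hx).1 y ((hT y).mp hy).1 w ((hT w).mp hw).1 hxy hxw hyw ?_
        rw [e1, e2, e3]
        simp only [cr, Prod.fst_sub, Prod.snd_sub, Prod.fst_add, Prod.snd_add, Prod.smul_fst,
          Prod.smul_snd, smul_eq_mul]
        ring
    have h4 := Dc79_abs_le R T
    have h5 : (T.card : ℤ) ≤ F'.card := by exact_mod_cast hTc
    have h6 : (F'.card : ℤ) * 1 ≤ F'.card * D :=
      mul_le_mul_of_nonneg_left (by linarith) (Int.natCast_nonneg _)
    linarith
  · obtain ⟨v, z, hv, hz, hinj, hcw, hcov⟩ := chain_cover30 F' hgp' (by omega)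
    have hvF : v + 1 ≤ F'.card := by
      have := Finset.card_le_card_of_injOn z (s := Finset.range (v + 1)) (t := F')
        (fun i hi => hz i (by simpa [Nat.lt_succ_iff] using hi))
        (by
          intro i hi j hj hij
          have hi' : i ≤ v := by simpa [Nat.lt_succ_iff] using hi
          have hj' : j ≤ v := by simpa [Nat.lt_succ_iff] using hj
          rcases lt_trichotomy i j with h | h | h
          · exact absurd hij (hinj i j h hj')
          · exact h
          · exact absurd hij.symm (hinj j i h hi'))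
      simpa using this
    have hv2 : 2 ≤ v := by
      by_contra hcon
      have hv1 : v = 1 := by omega
      subst hv1
      have hsub : F' ⊆ {z 0, z 1} := by
        intro q hq
        rcases hcov q hq with ⟨i, hi, rfl⟩ | ⟨i, hi1, hi, -⟩
        · have : i = 0 ∨ i = 1 := by omega
          rcases this with rfl | rfl
          · simp
          · simp
        · omega
      have := (Finset.card_le_card hsub).trans Finset.card_le_two
      omega
    have hZF : convexHull ℝ {x | ∃ i ≤ v, x = z i} = convexHull ℝ (F' : Set (ℝ × ℝ)) := by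
      apply Set.Subset.antisymm
      · apply convexHull_mono
        rintro x ⟨i, hi, rfl⟩
        exact Finset.mem_coe.mpr (hz i hi)
      · apply convexHull_min _ (convex_convexHull ℝ _)
        intro q hq
        rcases hcov q (Finset.mem_coe.mp hq) with ⟨i, hi, rfl⟩ | ⟨i, hi1, hi, hTr⟩
        · exact subset_convexHull ℝ _ ⟨i, hi, rfl⟩
        · exact hTr.mem_hull ⟨0, Nat.zero_le _, rfl⟩ ⟨i, hi.le, rfl⟩ ⟨i + 1, hi, rfl⟩
    have h1 := polygon30 hP0 hv2 hcw (fun i hi => hW (z i) (hF' (hz i hi)))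
      (T := T) (by intro p; rw [hT, hZF])
    have h2 : ((v + 1 : ℕ) : ℤ) ≤ F'.card := by exact_mod_cast hvF
    exact h1.trans (mul_le_mul_of_nonneg_right h2 hD0)

/-- The bound for paths. -/
theorem corners30 {R B : Finset (ℝ × ℝ)} (hdis : Disjoint R B) (hgp : GP (R ∪ B)) {n : ℕ}
    (hR : R.card = n) (hB : B.card = n) (hn : 1 ≤ n) {F : Finset (ℝ × ℝ)}
    (hF : ∀ x ∈ F, x ∈ R ∪ B ∨
      x ∉ convexHull ℝ ((R ∪ B : Finset (ℝ × ℝ)) : Set (ℝ × ℝ)))
    {k : ℕ} (hk : F.card ≤ k) (hk1 : 1 ≤ k) {T : Finset (ℝ × ℝ)}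
    (hT : ∀ p, p ∈ T ↔ p ∈ R ∪ B ∧ p ∈ convexHull ℝ (F : Set (ℝ × ℝ))) {ε : ℝ} (hε : 0 < ε)
    (hε1 : ε ≤ 1) (hD : ε * n ≤ |(Dc79 R T : ℝ)|) :
    ∃ m : ℕ, HasPath R B m ∧ (1 + ε / (1540 * k * Real.logb 2 (220 * k / ε))) * n ≤ m := by
  classical
  have hkr : (1 : ℝ) ≤ k := by exact_mod_cast hk1
  have hk0 : (0 : ℝ) < k := by linarith
  have hnr : (0 : ℝ) < n := by exact_mod_cast hn
  have h1 : HasPath R B (n + 1) := hasPath_succ hdis hgp hR hB hn
  obtain ⟨δ, hδ⟩ : ∃ δ : ℝ, δ = ε / (110 * k) := ⟨_, rfl⟩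
  have hδ0 : 0 < δ := by rw [hδ]; positivity
  have hδ1 : δ ≤ 1 := by
    rw [hδ, div_le_one (by positivity)]
    linarith
  by_cases hHP : ∃ H, IsHP79 (R ∪ B) H ∧ δ * n ≤ |(Dc79 R H : ℝ)|
  · obtain ⟨H, hH, hHd⟩ := hHP
    obtain ⟨m, hm, hmn⟩ := real_bound cut hdis hgp hR hB h1 hH hδ0 hδ1 hHd
    refine ⟨m, hm, ?_⟩
    have e1 : 2 / δ = 220 * k / ε := by
      rw [hδ]
      field_simp
      ring
    have e2 : δ / (14 * Real.logb 2 (2 / δ)) =
        ε / (1540 * k * Real.logb 2 (220 * k / ε)) := by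
      rw [e1, hδ, div_div]
      congr 1
      ring
    rw [← e2]
    exact hmn
  · push Not at hHP
    obtain ⟨m, hm, hmax⟩ := exists_longest (R := R) (B := B)
    have hm1 := hmax _ h1
    obtain ⟨G, rfl⟩ : ∃ G, m = n + G := ⟨m - n, by omega⟩
    have hG1 : 1 ≤ G := by omega
    refine ⟨n + G, hm, ?_⟩
    obtain ⟨K, hK⟩ : ∃ K : ℕ, K = ⌊δ * n⌋₊ := ⟨_, rfl⟩
    have hKle : (K : ℝ) ≤ δ * n := by
      rw [hK]; exact Nat.floor_le (by positivity)
    have hKb : ∀ H, IsHP79 (R ∪ B) H → |Dc79 R H| ≤ (K : ℤ) := by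
      intro H hH
      have h2 := (hHP H hH).le
      have h3 : ((Dc79 R H).natAbs : ℝ) ≤ δ * n := by
        rw [Nat.cast_natAbs, Int.cast_abs]
        exact h2
      have h4 : (Dc79 R H).natAbs ≤ K := by
        rw [hK]
        exact Nat.le_floor h3
      rw [Int.abs_eq_natAbs]
      exact_mod_cast h4
    obtain ⟨D, hDd⟩ : ∃ D : ℤ, D = 55 * (G + K + 1) := ⟨_, rfl⟩
    have hD2 : 2 ≤ D := by rw [hDd]; omega
    have hW : ∀ x ∈ F, AW30 R (R ∪ B) D x := by
      intro x hx
      rcases hF x hx with h | h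
      · intro w₁ w₂
        have := wedge34 zfold34 bent34 R B n G K hdis hgp hR hB hmax hKb x h w₁ w₂
        rw [hDd]
        exact_mod_cast this
      · exact (outer30 hdis hR hB hKb h).mono (by rw [hDd]; omega)
    have h5 := corn_disc30 (Dc79_whole hdis hR hB) hgp hD2 hW hT
    have h6 : |(Dc79 R T : ℝ)| ≤ F.card * D := by
      exact_mod_cast h5
    have h7 : (D : ℝ) = 55 * (G + K + 1) := by rw [hDd]; push_cast; ring
    have h8 : (F.card : ℝ) ≤ k := by exact_mod_cast hk
    have hGr : (1 : ℝ) ≤ G := by exact_mod_cast hG1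
    have hK0 : (0 : ℝ) ≤ K := Nat.cast_nonneg K
    have h9 : (F.card : ℝ) * D ≤ k * (110 * G + 55 * K) := by
      have h10 : (D : ℝ) ≤ 110 * G + 55 * K := by
        rw [h7]; linarith
      have h11 : (0 : ℝ) ≤ 110 * G + 55 * K := by positivity
      calc (F.card : ℝ) * D ≤ F.card * (110 * G + 55 * K) :=
            mul_le_mul_of_nonneg_left h10 (Nat.cast_nonneg _)
        _ ≤ k * (110 * G + 55 * K) := mul_le_mul_of_nonneg_right h8 h11
    have h12 : k * (55 * (K : ℝ)) ≤ ε * n / 2 := by
      have h13 : k * (55 * (K : ℝ)) ≤ k * (55 * (δ * n)) := by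
        apply mul_le_mul_of_nonneg_left _ hk0.le
        linarith
      have h14 : k * (55 * (δ * n)) = ε * n / 2 := by
        rw [hδ]
        field_simp
        ring
      linarith
    have h15 : ε * n ≤ 220 * k * G := by
      have : k * (110 * (G : ℝ) + 55 * K) = 110 * k * G + k * (55 * K) := by ring
      linarith
    have hL : 1 ≤ Real.logb 2 (220 * k / ε) := by
      rw [Real.le_logb_iff_rpow_le (by norm_num) (by positivity), Real.rpow_one,
        le_div_iff₀ hε]
      linarith
    have h16 : ε / (1540 * k * Real.logb 2 (220 * k / ε)) ≤ ε / (220 * k) := by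
      apply div_le_div_of_nonneg_left hε.le (by positivity)
      have : 1540 * (k : ℝ) * 1 ≤ 1540 * k * Real.logb 2 (220 * k / ε) :=
        mul_le_mul_of_nonneg_left hL (by positivity)
      linarith
    have h17 : ε / (220 * k) * n ≤ G := by
      rw [div_mul_eq_mul_div, div_le_iff₀ (by positivity)]
      linarith
    have h18 := mul_le_mul_of_nonneg_right h16 hnr.le
    push_cast
    linarith

end Pool.Agent.AltAll
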