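import Pool.Agent.AltAll.Iface30
import Pool.Agent.AltALL.Sum6

/-! The count over the disjoint windows of the chain: `CountStmt30`. -/

set_option autoImplicit false

open Finset

namespace Pool.Agent.AltAll12

open Pool.Agent.AltPath Pool.Agent.AltHP Pool.Agent.HPD79 Pool.Agent.AltALL Pool.Agent.AltAll

/-- Double counting: every element of `U` is in at most `k` of the sets. -/
theorem sum_card_le' {ι α : Type*} [DecidableEq α] {k : ℕ} (I : Finset ι) (S : ι → Finset α)
    (U : Finset α) (hS : ∀ a ∈ I, S a ⊆ U) (hk : ∀ p ∈ U, #{a ∈ I | p ∈ S a} ≤ k) :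
    ∑ a ∈ I, #(S a) ≤ k * #U := by
  classical
  have h1 : ∑ a ∈ I, #(S a) = ∑ a ∈ I, ∑ p ∈ U, (if p ∈ S a then 1 else 0) := by
    refine Finset.sum_congr rfl fun a ha => ?_
    rw [Finset.sum_boole, Nat.cast_id]
    congr 1
    ext p
    rw [Finset.mem_filter]
    exact ⟨fun h => ⟨hS a ha h, h⟩, fun h => h.2⟩
  rw [h1, Finset.sum_comm]
  have h2 : ∀ p ∈ U, ∑ a ∈ I, (if p ∈ S a then 1 else 0) ≤ k := by
    intro p hp
    rw [Finset.sum_boole, Nat.cast_id]
    exact hk p hp
  calc ∑ p ∈ U, ∑ a ∈ I, (if p ∈ S a then 1 else 0) ≤ ∑ _p ∈ U, k := Finset.sum_le_sum h2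
    _ = k * #U := by rw [Finset.sum_const, smul_eq_mul, mul_comm]

/-- A line through the last vertex separates the ends of at most one window. -/
theorem one_window {v : ℕ} {z : ℕ → ℝ × ℝ}
    (hz : ∀ i j k, i < j → j < k → k ≤ v → cr (z j - z i) (z k - z i) < 0)
    {a1 b1 a2 b2 : ℕ} (h1 : a1 < b1) (h12 : b1 ≤ a2) (h2 : a2 < b2) (hv : b2 < v) (p : ℝ × ℝ)
    (s1 : cr (z a1 - z v) (p - z v) * cr (z b1 - z v) (p - z v) < 0)
    (s2 : cr (z a2 - z v) (p - z v) * cr (z b2 - z v) (p - z v) < 0) : False := by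
  have main : ∀ (a : ℝ × ℝ) (c : ℝ), dt a (z v) + c = 0 → 0 < dt a (z a1) + c →
      dt a (z b1) + c < 0 → (dt a (z a2) + c) * (dt a (z b2) + c) < 0 → False := by
    intro a c h0 p1 p2 q2
    obtain ⟨k, hk1, hk2, hk3⟩ : ∃ k, b1 < k ∧ k ≤ b2 ∧ 0 < dt a (z k) + c := by
      rcases mul_neg_iff.mp q2 with ⟨u, w⟩ | ⟨u, w⟩
      · refine ⟨a2, ?_, by omega, u⟩
        rcases Nat.eq_or_lt_of_le h12 with h | h
        · rw [← h] at u; linarith
        · exact h
      · exact ⟨b2, by omega, le_rfl, w⟩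
    exact no_alt hz h1 hk1 (show k < v by omega) le_rfl a c p1.le p2.le hk3.le h0.le
      (Or.inl p1.ne')
  have e : ∀ x : ℝ × ℝ, cr (x - z v) (p - z v) =
      dt ((p - z v).2, -(p - z v).1) x + -dt ((p - z v).2, -(p - z v).1) (z v) := by
    intro x; simp only [cr, dt, Prod.fst_sub, Prod.snd_sub]; ring
  have e' : ∀ x : ℝ × ℝ, -cr (x - z v) (p - z v) =
      dt (-(p - z v).2, (p - z v).1) x + -dt (-(p - z v).2, (p - z v).1) (z v) := by
    intro x; simp only [cr, dt, Prod.fst_sub, Prod.snd_sub]; ring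
  rcases mul_neg_iff.mp s1 with ⟨u, w⟩ | ⟨u, w⟩
  · refine main _ _ ?_ ((e (z a1)) ▸ u) ((e (z b1)) ▸ w) ?_
    · ring
    · rw [← e, ← e]; exact s2
  · refine main _ _ ?_ (lt_of_lt_of_eq ?_ (e' (z a1))) (lt_of_eq_of_lt (e' (z b1)).symm ?_) ?_
    · ring
    · linarith
    · linarith
    · rw [← e', ← e']; nlinarith [s2]

theorem countStmt12 : CountStmt30 := by
  classical
  intro R B n L v z I hdis hgp hR hB hch hL hI hsep
  constructor
  · have key := sum_card_le' (k := 2) I (fun i => Pi30 R B z L i) (R ×ˢ B) ?_ ?_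
    · rw [Finset.card_product, hR, hB] at key
      calc _ ≤ 2 * (n * n) := key
        _ = 2 * n ^ 2 := by ring
    · intro i _
      exact Finset.filter_subset _ _
    · rintro ⟨x, y⟩ _
      by_contra hcon
      have hcon := not_le.mp hcon
      obtain ⟨i1, h1, i2, h2, i3, h3, h12, h23⟩ := three_lt hcon
      rw [Finset.mem_filter] at h1 h2 h3
      obtain ⟨I1, P1⟩ := h1
      obtain ⟨I2, P2⟩ := h2
      obtain ⟨I3, P3⟩ := h3
      simp only [Pi30, Finset.mem_filter] at P1 P2 P3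
      obtain ⟨-, a1, b1, u1, w1, t1, s1⟩ := P1
      obtain ⟨-, a2, b2, u2, w2, t2, s2⟩ := P2
      obtain ⟨-, a3, b3, u3, w3, t3, s3⟩ := P3
      have g12 := hsep i1 I1 i2 I2 h12
      have g23 := hsep i2 I2 i3 I3 h23
      have gv := hI i3 I3
      rw [cr_as_dt, cr_as_dt] at s1 s2 s3
      exact no_three_windows hch.cw w1 (by omega) w2 (by omega) w3 (by omega) _ _ s1 s2 s3
  · have key := sum_card_le' (k := 1) I (fun i => dw30 R B v z L i) (R ∪ B) ?_ ?_
    · calc _ ≤ 1 * #(R ∪ B) := key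
        _ ≤ #R + #B := by rw [one_mul]; exact Finset.card_union_le _ _
        _ = 2 * n := by rw [hR, hB]; ring
    · intro i _
      exact Finset.filter_subset _ _
    · intro p _
      rw [Finset.card_le_one]
      intro i1 h1 i2 h2
      rw [Finset.mem_filter] at h1 h2
      obtain ⟨I1, P1⟩ := h1
      obtain ⟨I2, P2⟩ := h2
      simp only [dw30, Finset.mem_filter] at P1 P2
      rcases lt_trichotomy i1 i2 with h | h | h
      · exact (one_window hch.cw (by omega) (hsep i1 I1 i2 I2 h) (by omega) (hI i2 I2) p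
          P1.2 P2.2).elim
      · exact h
      · exact (one_window hch.cw (by omega) (hsep i2 I2 i1 I1 h) (by omega) (hI i1 I1) p
          P2.2 P1.2).elim

end Pool.Agent.AltAll12
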