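import Pool.Agent.AltAll.Iface30
import Pool.Agent.AltALL.Hole71

/-! Section 2 in the form of the interface. -/

namespace Pool.Agent.AltAll

open Pool.Agent.AltPath Pool.Agent.AltHP Pool.Agent.HPD79

theorem holeStmt71 : HoleStmt30 := by
  intro R B n G K hb hK
  exact Pool.Agent.AltALL71.hole hb.dis hb.gp hb.hR hb.hB hb.hG hK

end Pool.Agent.AltAll
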