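import Pool.Agent.AltAll.Iface30
import Pool.Agent.AltALL.Bundle42

/-! Long alternating paths, all sets: section 5 and the mirror image in the language of the
interface. -/

set_option autoImplicit false

namespace Pool.Agent.AltAll

open Pool.Agent.AltPath Pool.Agent.AltHP Pool.Agent.HPD79 Pool.Agent.AltALL Pool.Agent.AltALL42

theorem tStmt30 : TStmt30 := by
  intro R B n K D M v z i hdis hgp _ _ _ hW hz _ hi hRG
  obtain ⟨tau, h1, h2, h3, -, h5, h6⟩ := chain_T hdis hgp (M := M) (D := D) hW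
    ⟨hz.mem, hz.inj, hz.cw⟩ (i := i) (by omega) (by omega) hRG
  refine ⟨tau, ⟨h3, h2, h1, h5⟩, ?_⟩
  unfold Bl30
  omega

theorem rlStmt30 : RLStmt30 := by
  intro R B D M v z hdis hgp hW hz hDM i hi hiv
  rcases chain_rg_or_lg (show D ≤ M by omega) hW ⟨hz.mem, hz.inj, hz.cw⟩ hi hiv with h | h
  · left
    exact h
  · right
    exact lg_rg (by omega) (by omega) h

theorem reflStmt30 : ReflStmt30 := by
  refine ⟨?_, ?_, ?_, ?_⟩
  · intro R B n G h
    refine ⟨disjoint_sw h.dis, ?_, ?_, ?_, ?_⟩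
    · have := gp_sw h.gp
      rw [sw_union] at this
      exact this
    · exact (card_sw R).trans h.hR
    · exact (card_sw B).trans h.hB
    · intro k hk
      exact h.hG k (hasPath_sw_iff.mp hk)
  · intro R B K h
    exact hp_sw h
  · intro R B D h
    exact wb_sw h
  · intro R B v z h
    obtain ⟨h1, h2, h3⟩ := isCh_sw (S := B) (v := v) (z := z) ⟨h.mem, h.inj, h.cw⟩
    refine ⟨h1, h2, h3, ?_⟩
    intro i j k hi hj hk r hr hT
    have hr' : r.swap ∈ R := mem_sw.mp hr
    have hT' : InTri (z (v - i)).swap (z (v - j)).swap (z (v - k)).swap r.swap.swap := by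
      rw [Prod.swap_swap]
      exact hT
    exact h.free (v - k) (v - j) (v - i) (Nat.sub_le _ _) (Nat.sub_le _ _) (Nat.sub_le _ _) _ hr'
      (inTri_swap hT')

end Pool.Agent.AltAll
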