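import Pool.Agent.AltAll.DefsW34
import Pool.Agent.AltHP.Tangent

/-! Row WC: the wedge bound from the fold at a hull vertex and the bent fold. -/

set_option autoImplicit false

namespace Pool.Agent.AltAll

open Pool.Agent.AltPath Pool.Agent.AltHP Pool.Agent.HPD79

theorem Dc_union82 (R : Finset (ℝ × ℝ)) {X Y : Finset (ℝ × ℝ)} (h : Disjoint X Y) :
    Dc79 R (X ∪ Y) = Dc79 R X + Dc79 R Y := by
  unfold Dc79
  rw [Finset.union_inter_distrib_right, Finset.union_sdiff_distrib,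
    Finset.card_union_of_disjoint (h.mono Finset.inter_subset_left Finset.inter_subset_left),
    Finset.card_union_of_disjoint (h.mono Finset.sdiff_subset Finset.sdiff_subset)]
  push_cast
  ring

theorem Dc_sdiff82 (R : Finset (ℝ × ℝ)) {X Y : Finset (ℝ × ℝ)} (h : X ⊆ Y) :
    Dc79 R (Y \ X) = Dc79 R Y - Dc79 R X := by
  have h1 := Dc_union82 R (X := Y \ X) (Y := X) Finset.sdiff_disjoint
  rw [Finset.sdiff_union_of_subset h] at h1
  linarith

theorem Dc_abs82 (R X : Finset (ℝ × ℝ)) : |Dc79 R X| ≤ X.card := by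
  have h1 := Finset.card_inter_add_card_sdiff X R
  unfold Dc79
  rw [abs_le]
  constructor <;> omega

theorem Dc_swap82 {R B X : Finset (ℝ × ℝ)} (hdis : Disjoint R B) (hX : X ⊆ R ∪ B) :
    Dc79 B X = -Dc79 R X := by
  rw [Dc79_eq hdis hX, Dc79_eq hdis.symm (by rwa [Finset.union_comm])]
  ring

/-- The context of the theorem. -/
structure Cx82 (R B : Finset (ℝ × ℝ)) (n G K : ℕ) : Prop where
  dis : Disjoint R B
  gp : GP (R ∪ B)
  hR : R.card = n
  hB : B.card = n
  hG : ∀ k, HasPath R B k → k ≤ n + G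
  hK : ∀ H, IsHP79 (R ∪ B) H → |Dc79 R H| ≤ K

theorem Cx82.swap {R B : Finset (ℝ × ℝ)} {n G K : ℕ} (h : Cx82 R B n G K) : Cx82 B R n G K := by
  refine ⟨h.dis.symm, ?_, h.hB, h.hR, fun k hk => h.hG k (HasPath.swap h.dis.symm hk), ?_⟩
  · rw [Finset.union_comm]; exact h.gp
  · intro H hH
    rw [Finset.union_comm] at hH
    rw [Dc_swap82 h.dis hH.1, abs_neg]
    exact h.hK H hH

/-- The ratio of two functionals at z. -/
noncomputable def rat82 (z b c p : ℝ × ℝ) : ℝ := dt c (p - z) / dt b (p - z)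

/-- X consists of the points of U with the smallest values of f. -/
def Lo82 (U : Finset (ℝ × ℝ)) (f : ℝ × ℝ → ℝ) (X : Finset (ℝ × ℝ)) : Prop :=
  X ⊆ U ∧ ∀ p ∈ X, ∀ q ∈ U, q ∉ X → f p < f q

theorem rat_inj82 {P : Finset (ℝ × ℝ)} (hgp : GP P) {z b c p q : ℝ × ℝ} (hz : z ∈ P)
    (hbc : cr b c ≠ 0) (hp : p ∈ P) (hq : q ∈ P) (hpz : dt b (p - z) ≠ 0)
    (hqz : dt b (q - z) ≠ 0) (h : rat82 z b c p = rat82 z b c q) : p = q := by
  by_contra hpq
  obtain ⟨r, hr⟩ : ∃ r, r = rat82 z b c p := ⟨_, rfl⟩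
  have e1 : dt c (p - z) = r * dt b (p - z) := by
    rw [hr, rat82, div_mul_cancel₀ _ hpz]
  have e2 : dt c (q - z) = r * dt b (q - z) := by
    rw [hr, h, rat82, div_mul_cancel₀ _ hqz]
  have hzp : z ≠ p := by
    rintro rfl
    exact hpz (dt_self_sub _ _)
  have hzq : z ≠ q := by
    rintro rfl
    exact hqz (dt_self_sub _ _)
  rw [dt_sub, dt_sub] at e1 e2
  refine gp_line hgp hz hp hq hzp hzq hpq (sub_smul_ne_zero hbc r) ?_ ?_
  · rw [dt_sub_smul, dt_sub_smul]; linarith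
  · rw [dt_sub_smul, dt_sub_smul]; linarith

theorem exists_val82 (A B : Finset ℝ) (h : ∀ a ∈ A, ∀ b ∈ B, a < b) :
    ∃ t, (∀ a ∈ A, a < t) ∧ ∀ b ∈ B, t < b := by
  rcases A.eq_empty_or_nonempty with rfl | hA
  · rcases B.eq_empty_or_nonempty with rfl | hB
    · exact ⟨0, by simp, by simp⟩
    · refine ⟨B.min' hB - 1, by simp, fun b hb => ?_⟩
      have := B.min'_le b hb
      linarith
  · rcases B.eq_empty_or_nonempty with rfl | hB
    · refine ⟨A.max' hA + 1, fun a ha => ?_, by simp⟩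
      have := A.le_max' a ha
      linarith
    · have h1 := h _ (A.max'_mem hA) _ (B.min'_mem hB)
      refine ⟨(A.max' hA + B.min' hB) / 2, fun a ha => ?_, fun b hb => ?_⟩
      · have := A.le_max' a ha
        linarith
      · have := B.min'_le b hb
        linarith

theorem Lo82.thr {U X : Finset (ℝ × ℝ)} {f : ℝ × ℝ → ℝ} (h : Lo82 U f X) :
    ∃ t : ℝ, (∀ p ∈ X, f p < t) ∧ ∀ q ∈ U, q ∉ X → t < f q := by
  classical
  obtain ⟨t, h1, h2⟩ := exists_val82 (X.image f) ((U \ X).image f) (by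
    intro a ha b hb
    obtain ⟨p, hp, rfl⟩ := Finset.mem_image.1 ha
    obtain ⟨q, hq, rfl⟩ := Finset.mem_image.1 hb
    exact h.2 p hp q (Finset.mem_sdiff.1 hq).1 (Finset.mem_sdiff.1 hq).2)
  exact ⟨t, fun p hp => h1 _ (Finset.mem_image_of_mem f hp), fun q hq hqX =>
    h2 _ (Finset.mem_image_of_mem f (Finset.mem_sdiff.2 ⟨hq, hqX⟩))⟩

theorem exists_lo82 {U : Finset (ℝ × ℝ)} {f : ℝ × ℝ → ℝ}
    (hf : ∀ p ∈ U, ∀ q ∈ U, f p = f q → p = q) {k : ℕ} (hk : k ≤ U.card) :
    ∃ X, Lo82 U f X ∧ X.card = k := by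
  obtain ⟨X, h1, h2, h3⟩ := exists_initial f U k hk
  refine ⟨X, ⟨h1, fun p hp q hq hqX => lt_of_le_of_ne (h3 p hp q hq hqX) fun h => ?_⟩, h2⟩
  exact hqX (hf p (h1 hp) q hq h ▸ hp)

theorem Lo82.total {U X X' : Finset (ℝ × ℝ)} {f : ℝ × ℝ → ℝ} (h : Lo82 U f X)
    (h' : Lo82 U f X') (hc : X.card ≤ X'.card) : X ⊆ X' := by
  intro p hp
  by_contra hpX
  have h1 : X' ⊂ X := by
    refine (Finset.ssubset_iff_of_subset fun q hq => ?_).2 ⟨p, hp, hpX⟩
    by_contra hqX
    exact lt_asymm (h.2 p hp q (h'.1 hq) hqX) (h'.2 q hq p (h.1 hp) hpX)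
  have := Finset.card_lt_card h1
  omega

theorem mem_up82 {P : Finset (ℝ × ℝ)} {x b p : ℝ × ℝ} :
    p ∈ up34 P x b ↔ p ∈ P ∧ 0 < dt b (p - x) := by
  unfold up34
  rw [Finset.mem_filter]

theorem Lo82.ini {P X : Finset (ℝ × ℝ)} {x b c : ℝ × ℝ}
    (h : Lo82 (up34 P x b) (rat82 x b c) X) : Ini34 P x b c X := by
  obtain ⟨t, h1, h2⟩ := h.thr
  refine ⟨h.1, t, fun p hp => ?_, fun q hq hqX => ?_⟩
  · exact (div_lt_iff₀ (mem_up82.1 (h.1 hp)).2).1 (h1 p hp)
  · exact (lt_div_iff₀ (mem_up82.1 hq).2).1 (h2 q hq hqX)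

theorem par_id82 {b u t : ℝ × ℝ} (hb : b ≠ 0) (hu : dt b u = 0) (ht : dt b t = 0)
    (h a : ℝ × ℝ) : dt h u * dt a t = dt h t * dt a u := by
  have e : dt h u * dt a t - dt h t * dt a u = cr h a * cr u t := by
    simp only [dt, cr]; ring
  have e0 : cr u t = 0 := by
    have hb' : b.1 ≠ 0 ∨ b.2 ≠ 0 := by
      by_contra hcon
      push Not at hcon
      exact hb (Prod.ext hcon.1 hcon.2)
    simp only [dt, cr] at hu ht ⊢
    rcases hb' with h0 | h0
    · have : b.1 * (u.1 * t.2 - u.2 * t.1) = 0 := by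
        linear_combination t.2 * hu - u.2 * ht
      exact (mul_eq_zero.1 this).resolve_left h0
    · have : b.2 * (u.1 * t.2 - u.2 * t.1) = 0 := by
        linear_combination u.1 * ht - t.1 * hu
      exact (mul_eq_zero.1 this).resolve_left h0
  rw [e0, mul_zero] at e
  linarith

theorem Frame34.neg82 {P : Finset (ℝ × ℝ)} {x v b c : ℝ × ℝ} (h : Frame34 P x v b c) :
    Frame34 P x v (-b) c :=
  ⟨h.hx, h.hv, by rw [dt_neg_left, h.hb, neg_zero], neg_ne_zero.2 h.hb0, h.hc⟩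

theorem Frame34.cr82 {P : Finset (ℝ × ℝ)} {x v b c : ℝ × ℝ} (h : Frame34 P x v b c) :
    cr b c ≠ 0 := by
  intro h0
  have h1 := h.hb
  have h2 := h.hc
  have hb' : b.1 ≠ 0 ∨ b.2 ≠ 0 := by
    by_contra hcon
    push Not at hcon
    exact h.hb0 (Prod.ext hcon.1 hcon.2)
  simp only [dt, cr] at h0 h1 h2
  rcases hb' with hb | hb
  · have : b.1 * (c.1 * (v - x).1 + c.2 * (v - x).2) = 0 := by
      linear_combination c.1 * h1 + (v - x).2 * h0
    rcases mul_eq_zero.1 this with h' | h'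
    · exact hb h'
    · linarith
  · have : b.2 * (c.1 * (v - x).1 + c.2 * (v - x).2) = 0 := by
      linear_combination c.2 * h1 - (v - x).1 * h0
    rcases mul_eq_zero.1 this with h' | h'
    · exact hb h'
    · linarith

theorem Frame34.dtv82 {P : Finset (ℝ × ℝ)} {x v b c : ℝ × ℝ} (h : Frame34 P x v b c)
    (p : ℝ × ℝ) : dt b (p - v) = dt b (p - x) := by
  have h1 := h.hb
  rw [dt_sub] at h1 ⊢
  rw [dt_sub]
  linarith

theorem Frame34.ne82 {P : Finset (ℝ × ℝ)} {x v b c : ℝ × ℝ} (h : Frame34 P x v b c) : x ≠ v := by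
  rintro rfl
  have := h.hc
  rw [dt_self_sub] at this
  exact lt_irrefl _ this

/-- The only points on the line x v. -/
theorem Frame34.line82 {P : Finset (ℝ × ℝ)} (hgp : GP P) {x v b c : ℝ × ℝ}
    (h : Frame34 P x v b c) {p : ℝ × ℝ} (hp : p ∈ P) (hp0 : dt b (p - x) = 0) : p = x ∨ p = v := by
  by_contra hcon
  push Not at hcon
  have h1 := h.hb
  rw [dt_sub] at h1 hp0
  exact gp_line hgp h.hx h.hv hp h.ne82 hcon.1.symm hcon.2.symm h.hb0 (by linarith) (by linarith)

theorem far_exists82 {P : Finset (ℝ × ℝ)} (hgp : GP P) {x v b c : ℝ × ℝ}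
    (hF : Frame34 P x v b c) {k : ℕ} (hk : k ≤ (up34 P x (-b)).card) :
    ∃ Y, Far34 P x v b c Y ∧ Y.card = k := by
  have hpos : ∀ p ∈ up34 P x (-b), 0 < dt (-b) (p - v) := by
    intro p hp
    have h1 := (mem_up82.1 hp).2
    rw [dt_neg_left] at h1 ⊢
    rw [hF.dtv82]
    exact h1
  obtain ⟨Y, hY, hYk⟩ := exists_lo82 (U := up34 P x (-b)) (f := rat82 v (-b) c) (by
    intro p hp q hq h
    exact rat_inj82 hgp hF.hv hF.neg82.cr82 (mem_up82.1 hp).1 (mem_up82.1 hq).1 (hpos p hp).ne'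
      (hpos q hq).ne' h) hk
  obtain ⟨t, h1, h2⟩ := hY.thr
  refine ⟨Y, ⟨hY.1, -t, fun p hp => ?_, fun q hq hqY => ?_⟩, hYk⟩
  · have h3 := (div_lt_iff₀ (hpos p (hY.1 hp))).1 (h1 p hp)
    rw [dt_neg_left] at h3
    linarith
  · have h3 := (lt_div_iff₀ (hpos q hq)).1 (h2 q hq hqY)
    rw [dt_neg_left] at h3
    linarith

theorem far_hp82 {P : Finset (ℝ × ℝ)} {x v b c : ℝ × ℝ} (hF : Frame34 P x v b c)
    (hv : ∃ h : ℝ × ℝ, ∀ p ∈ P, p ≠ v → dt h (p - v) < 0) {Y : Finset (ℝ × ℝ)}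
    (hY : Far34 P x v b c Y) : IsHP79 P Y := by
  obtain ⟨hYl, s, hs1, hs2⟩ := hY
  obtain ⟨h, hh⟩ := hv
  rcases Y.eq_empty_or_nonempty with rfl | ⟨y, hy⟩
  · exact isHP79_empty P
  have hYP : ∀ p ∈ Y, p ∈ P := fun p hp => (mem_up82.1 (hYl hp)).1
  refine ⟨hYP, c - s • b, fun p hp q hq hqY => ?_⟩
  have h1 : dt (c - s • b) (p - v) < 0 := by
    rw [dt_sub_smul]
    have := hs1 p hp
    linarith
  have h2 : 0 ≤ dt (c - s • b) (q - v) := by
    by_cases hql : q ∈ up34 P x (-b)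
    · rw [dt_sub_smul]
      have := hs2 q hql hqY
      linarith
    · by_contra hcon
      push Not at hcon
      have hqv : q ≠ v := by
        rintro rfl
        rw [dt_self_sub] at hcon
        exact lt_irrefl _ hcon
      have hbq : 0 ≤ dt b (q - v) := by
        rw [mem_up82, not_and] at hql
        have := hql hq
        rw [dt_neg_left] at this
        rw [hF.dtv82]
        linarith
      have hby : dt b (y - v) < 0 := by
        have := (mem_up82.1 (hYl hy)).2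
        rw [dt_neg_left] at this
        rw [hF.dtv82]
        linarith
      have hyv : y ≠ v := by
        rintro rfl
        rw [dt_self_sub] at hby
        exact lt_irrefl _ hby
      have hay : dt (c - s • b) (y - v) < 0 := by
        rw [dt_sub_smul]
        have := hs1 y hy
        linarith
      obtain ⟨u, hu⟩ : ∃ u : ℝ × ℝ, u = dt b (q - v) • (y - v) + (-dt b (y - v)) • (q - v) :=
        ⟨_, rfl⟩
      have hlin : ∀ w : ℝ × ℝ, dt w u = dt b (q - v) * dt w (y - v) +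
          (-dt b (y - v)) * dt w (q - v) := by
        intro w
        rw [hu]
        simp only [dt, Prod.fst_add, Prod.snd_add, Prod.smul_fst, Prod.smul_snd, smul_eq_mul]
        ring
      have hbu : dt b u = 0 := by rw [hlin]; ring
      have hbt : dt b (x - v) = 0 := by
        rw [hF.dtv82, dt_self_sub]
      have i1 := par_id82 hF.hb0 hbu hbt h (c - s • b)
      have i2 : dt (c - s • b) (x - v) = -dt c (v - x) := by
        rw [dt_sub_smul, hbt, mul_zero, sub_zero, dt_sub, dt_sub]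
        ring
      have i3 := hF.hc
      have i4 := hh x hF.hx hF.ne82
      have i5 := hh y (hYP y hy) hyv
      have i6 := hh q hq hqv
      have i7 : dt h u < 0 := by
        rw [hlin]
        have := mul_nonneg hbq (neg_nonneg.2 i5.le)
        have := mul_pos (neg_pos.2 hby) (neg_pos.2 i6)
        linarith
      have i8 : dt (c - s • b) u < 0 := by
        rw [hlin]
        have := mul_nonneg hbq (neg_nonneg.2 hay.le)
        have := mul_pos (neg_pos.2 hby) (neg_pos.2 hcon)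
        linarith
      have i9 := mul_pos (neg_pos.2 i7) (neg_pos.2 i3)
      have i10 := mul_pos (neg_pos.2 i4) (neg_pos.2 i8)
      rw [i2] at i1
      linarith
  rw [dt_sub] at h1 h2
  linarith

theorem up_hp82 (P : Finset (ℝ × ℝ)) (x b : ℝ × ℝ) : IsHP79 P (up34 P x b) := by
  refine ⟨Finset.filter_subset _ _, -b, fun p hp q hq hqU => ?_⟩
  have h1 := (mem_up82.1 hp).2
  have h2 : ¬ 0 < dt b (q - x) := fun h => hqU (mem_up82.2 ⟨hq, h⟩)
  rw [dt_neg_left, dt_neg_left]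
  rw [dt_sub] at h1 h2
  linarith

/-- The discrepancy of a set with given numbers. -/
theorem card_split82 {R B X : Finset (ℝ × ℝ)} (hdis : Disjoint R B) (hX : X ⊆ R ∪ B) :
    ((R ∩ X).card : ℤ) + (B ∩ X).card = X.card ∧
      Dc79 R X = ((R ∩ X).card : ℤ) - (B ∩ X).card := by
  refine ⟨?_, Dc79_eq hdis hX⟩
  have h1 : X = (R ∩ X) ∪ (B ∩ X) := by
    rw [← Finset.union_inter_distrib_right]
    exact (Finset.inter_eq_right.2 hX).symm
  have h2 : Disjoint (R ∩ X) (B ∩ X) := hdis.mono Finset.inter_subset_left Finset.inter_subset_left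
  have h3 := Finset.card_union_of_disjoint h2
  rw [← h1] at h3
  omega

theorem sides82 {P : Finset (ℝ × ℝ)} (hgp : GP P) {x v b c : ℝ × ℝ} (hF : Frame34 P x v b c) :
    P = (up34 P x b ∪ up34 P x (-b)) ∪ {x, v} ∧ Disjoint (up34 P x b) (up34 P x (-b)) ∧
      Disjoint (up34 P x b ∪ up34 P x (-b)) {x, v} := by
  refine ⟨?_, ?_, ?_⟩
  · ext p
    simp only [Finset.mem_union, mem_up82, Finset.mem_insert, Finset.mem_singleton, dt_neg_left]
    constructor
    · intro hp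
      rcases lt_trichotomy (dt b (p - x)) 0 with h | h | h
      · exact Or.inl (Or.inr ⟨hp, by linarith⟩)
      · exact Or.inr (hF.line82 hgp hp h)
      · exact Or.inl (Or.inl ⟨hp, h⟩)
    · rintro ((h | h) | h | h)
      · exact h.1
      · exact h.1
      · rw [h]; exact hF.hx
      · rw [h]; exact hF.hv
  · rw [Finset.disjoint_left]
    intro p h1 h2
    have h3 := (mem_up82.1 h1).2
    have h4 := (mem_up82.1 h2).2
    rw [dt_neg_left] at h4
    linarith
  · rw [Finset.disjoint_left]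
    intro p h1 h2
    have h0 : dt b (p - x) = 0 := by
      rcases Finset.mem_insert.1 h2 with h | h
      · rw [h, dt_self_sub]
      · rw [Finset.mem_singleton.1 h, hF.hb]
    rcases Finset.mem_union.1 h1 with h | h
    · have := (mem_up82.1 h).2
      linarith
    · have := (mem_up82.1 h).2
      rw [dt_neg_left] at this
      linarith

theorem sides_card82 {P : Finset (ℝ × ℝ)} (hgp : GP P) {x v b c : ℝ × ℝ}
    (hF : Frame34 P x v b c) : (up34 P x b).card + (up34 P x (-b)).card + 2 = P.card := by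
  obtain ⟨h1, h2, h3⟩ := sides82 hgp hF
  have h4 := Finset.card_union_of_disjoint h3
  rw [← h1, Finset.card_union_of_disjoint h2, Finset.card_pair hF.ne82] at h4
  omega

theorem Cx82.card {R B : Finset (ℝ × ℝ)} {n G K : ℕ} (h : Cx82 R B n G K) :
    (R ∪ B).card = 2 * n := by
  rw [Finset.card_union_of_disjoint h.dis, h.hR, h.hB]
  omega

/-- The fold at a hull vertex bounds the discrepancy of a large initial set. -/
theorem zup82 (hZ : ZStmt34) {R B : Finset (ℝ × ℝ)} {n G K : ℕ} (h : Cx82 R B n G K)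
    {x v b c : ℝ × ℝ} (hF : Frame34 (R ∪ B) x v b c)
    (hv : ∃ h : ℝ × ℝ, ∀ p ∈ R ∪ B, p ≠ v → dt h (p - v) < 0) {X : Finset (ℝ × ℝ)}
    (hX : Ini34 (R ∪ B) x b c X) (h1 : X.card ≤ n)
    (h2 : n ≤ X.card + (up34 (R ∪ B) x (-b)).card)
    (h3 : (up34 (R ∪ B) x b).card + K + 4 ≤ 2 * X.card) : Dc79 R X ≤ G + K + 6 := by
  classical
  obtain ⟨Y, hY, hYc⟩ := far_exists82 h.gp hF (k := n - X.card) (by omega)
  have hYhp := far_hp82 hF hv hY
  have hsum := sides_card82 h.gp hF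
  rw [h.card] at hsum
  have k1 := h.hK Y hYhp
  have k2 := h.hK _ (up_hp82 (R ∪ B) x (-b))
  obtain ⟨c1, c2⟩ := card_split82 h.dis hYhp.1
  obtain ⟨c3, c4⟩ := card_split82 h.dis (up_hp82 (R ∪ B) x (-b)).1
  obtain ⟨c5, c6⟩ := card_split82 h.dis (hX.1.trans (up_hp82 (R ∪ B) x b).1)
  rw [abs_le] at k1 k2
  have hBs : (B ∩ (up34 (R ∪ B) x (-b) \ Y)).card + (B ∩ Y).card =
      (B ∩ up34 (R ∪ B) x (-b)).card := by
    rw [← Finset.card_union_of_disjoint]
    · congr 1
      rw [← Finset.inter_union_distrib_left, Finset.sdiff_union_of_subset hY.1]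
    · exact Finset.disjoint_of_subset_left Finset.inter_subset_right
        (Finset.disjoint_of_subset_right Finset.inter_subset_right Finset.sdiff_disjoint)
  have key := hZ R B n G x v b c X Y h.dis h.gp h.hR h.hB h.hG hF hv hX hY (by omega) (by omega)
  omega

/-- Both colours. -/
theorem zabs82 (hZ : ZStmt34) {R B : Finset (ℝ × ℝ)} {n G K : ℕ} (h : Cx82 R B n G K)
    {x v b c : ℝ × ℝ} (hF : Frame34 (R ∪ B) x v b c)
    (hv : ∃ h : ℝ × ℝ, ∀ p ∈ R ∪ B, p ≠ v → dt h (p - v) < 0) {X : Finset (ℝ × ℝ)}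
    (hX : Ini34 (R ∪ B) x b c X) (h1 : X.card ≤ n)
    (h2 : n ≤ X.card + (up34 (R ∪ B) x (-b)).card)
    (h3 : (up34 (R ∪ B) x b).card + K + 4 ≤ 2 * X.card) : |Dc79 R X| ≤ G + K + 6 := by
  have e1 := zup82 hZ h hF hv hX h1 h2 h3
  have hXP : X ⊆ R ∪ B := hX.1.trans (up_hp82 (R ∪ B) x b).1
  have e2 : Dc79 B X ≤ G + K + 6 := by
    rw [Finset.union_comm] at hF hv hX h2 h3
    exact zup82 hZ h.swap hF hv hX h1 h2 h3
  rw [Dc_swap82 h.dis hXP] at e2
  rw [abs_le]
  constructor <;> linarith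

theorem bent82 (hB : BentStmt34) {R B : Finset (ℝ × ℝ)} {n G K : ℕ} (h : Cx82 R B n G K)
    {x v b c : ℝ × ℝ} (hF : Frame34 (R ∪ B) x v b c) {X X' : Finset (ℝ × ℝ)}
    (hX : Ini34 (R ∪ B) x b c X) (hX' : Ini34 (R ∪ B) x (-b) c X')
    (hc : X.card + X'.card + 1 = n) : |Dc79 R X + Dc79 R X'| ≤ G + 7 := by
  have hXP : X ⊆ R ∪ B := hX.1.trans (up_hp82 (R ∪ B) x b).1
  have hXP' : X' ⊆ R ∪ B := hX'.1.trans (up_hp82 (R ∪ B) x (-b)).1
  have e1 := hB R B n G x v b c X X' h.dis h.gp h.hR h.hB h.hG hF hX hX' hc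
  have e2 : 2 * ((B ∩ X).card + (B ∩ X').card) ≤ n + G + 6 := by
    rw [Finset.union_comm] at hF hX hX'
    exact hB B R n G x v b c X X' h.dis.symm h.swap.gp h.hB h.hR h.swap.hG hF hX hX' hc
  obtain ⟨c1, c2⟩ := card_split82 h.dis hXP
  obtain ⟨c3, c4⟩ := card_split82 h.dis hXP'
  rw [abs_le]
  constructor <;> omega

theorem inj_up82 {P : Finset (ℝ × ℝ)} (hgp : GP P) {x v b c : ℝ × ℝ}
    (hF : Frame34 P x v b c) : ∀ p ∈ up34 P x b, ∀ q ∈ up34 P x b,
      rat82 x b c p = rat82 x b c q → p = q := fun p hp q hq h =>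
  rat_inj82 hgp hF.hx hF.cr82 (mem_up82.1 hp).1 (mem_up82.1 hq).1 (mem_up82.1 hp).2.ne'
    (mem_up82.1 hq).2.ne' h

/-- Initial sets on a side with at most n - 1 points. -/
theorem low82 (hZ : ZStmt34) (hB : BentStmt34) {R B : Finset (ℝ × ℝ)} {n G K : ℕ}
    (h : Cx82 R B n G K) {x v b c : ℝ × ℝ} (hF : Frame34 (R ∪ B) x v b c)
    (hv : ∃ h : ℝ × ℝ, ∀ p ∈ R ∪ B, p ≠ v → dt h (p - v) < 0)
    (hlow : (up34 (R ∪ B) x b).card + 1 ≤ n) {X : Finset (ℝ × ℝ)}
    (hX : Lo82 (up34 (R ∪ B) x b) (rat82 x b c) X) : |Dc79 R X| ≤ 2 * G + 2 * K + 13 := by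
  classical
  have hsum := sides_card82 h.gp hF
  rw [h.card] at hsum
  have hXc := Finset.card_le_card hX.1
  rcases Nat.lt_or_ge (2 * X.card) ((up34 (R ∪ B) x b).card + K + 4) with hlt | hge
  · rcases Nat.lt_or_ge (up34 (R ∪ B) x b).card (2 * X.card + K + 4) with hlt' | hge'
    · -- close to the middle
      rcases Nat.lt_or_ge (up34 (R ∪ B) x b).card (X.card + K + 4) with h4 | h4
      · have e1 := h.hK _ (up_hp82 (R ∪ B) x b)
        have e2 := Dc_sdiff82 R hX.1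
        have e3 := Dc_abs82 R (up34 (R ∪ B) x b \ X)
        rw [Finset.card_sdiff_of_subset hX.1] at e3
        rw [e2, abs_le] at e3
        rw [abs_le] at e1 ⊢
        constructor <;> omega
      · obtain ⟨X2, h5, h6⟩ := exists_lo82 (inj_up82 h.gp hF) h4
        have h7 := hX.total h5 (by omega)
        have e1 := zabs82 hZ h hF hv h5.ini (by omega) (by omega) (by omega)
        have e2 := Dc_sdiff82 R h7
        have e3 := Dc_abs82 R (X2 \ X)
        rw [Finset.card_sdiff_of_subset h7] at e3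
        rw [e2, abs_le] at e3
        rw [abs_le] at e1 ⊢
        constructor <;> omega
    · -- small sets
      obtain ⟨X2, h5, h6⟩ := exists_lo82 (inj_up82 h.gp hF.neg82) (k := n - 1 - X.card)
        (by omega)
      have e1 := bent82 hB h hF hX.ini h5.ini (by omega)
      have e2 := zabs82 hZ h hF.neg82 hv h5.ini (by omega) (by rw [neg_neg]; omega) (by omega)
      rw [abs_le] at e1 e2 ⊢
      constructor <;> linarith [e1.1, e1.2, e2.1, e2.2]
  · have e1 := zabs82 hZ h hF hv hX.ini (by omega) (by omega) hge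
    refine e1.trans ?_
    have : (0 : ℤ) ≤ G := by positivity
    have : (0 : ℤ) ≤ K := by positivity
    linarith

/-- Initial sets on a side, if those of the other side are bounded. -/
theorem other82 {R B : Finset (ℝ × ℝ)} {n G K : ℕ}
    (h : Cx82 R B n G K) {x v b c : ℝ × ℝ} (hF : Frame34 (R ∪ B) x v b c) {E : ℤ}
    (hE : ∀ X', Lo82 (up34 (R ∪ B) x (-b)) (rat82 x (-b) c) X' → |Dc79 R X'| ≤ E)
    {X : Finset (ℝ × ℝ)} (hX : Lo82 (up34 (R ∪ B) x b) (rat82 x b c) X) :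
    |Dc79 R X| ≤ K + E + 1 := by
  classical
  obtain ⟨t, ht1, ht2⟩ := hX.thr
  have hXm : ∀ p ∈ up34 (R ∪ B) x b, (p ∈ X ↔ dt (c - t • b) (p - x) < 0) := by
    intro p hp
    have hpos := (mem_up82.1 hp).2
    rw [dt_sub_smul]
    constructor
    · intro hpX
      have := (div_lt_iff₀ hpos).1 (ht1 p hpX)
      linarith
    · intro hlt
      by_contra hpX
      have := (lt_div_iff₀ hpos).1 (ht2 p hp hpX)
      linarith
  obtain ⟨X', hX'⟩ : ∃ X', X' = (up34 (R ∪ B) x (-b)).filter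
      (fun p => dt (c - t • b) (p - x) < 0) := ⟨_, rfl⟩
  obtain ⟨H, hH⟩ : ∃ H, H = (R ∪ B).filter (fun p => dt (c - t • b) (p - x) < 0) := ⟨_, rfl⟩
  have hLo : Lo82 (up34 (R ∪ B) x (-b)) (rat82 x (-b) c) X' := by
    refine ⟨by rw [hX']; exact Finset.filter_subset _ _, fun p hp q hq hqX => ?_⟩
    rw [hX', Finset.mem_filter] at hp
    have h1 := (mem_up82.1 hp.1).2
    have h2 := (mem_up82.1 hq).2
    have h3 : ¬ dt (c - t • b) (q - x) < 0 := fun h0 => hqX (by
      rw [hX', Finset.mem_filter]; exact ⟨hq, h0⟩)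
    have h4 := hp.2
    rw [dt_sub_smul] at h3 h4
    rw [dt_neg_left] at h1 h2
    have e1 : rat82 x (-b) c p < -t := by
      unfold rat82
      rw [dt_neg_left, div_lt_iff₀ h1]
      linarith
    have e2 : -t ≤ rat82 x (-b) c q := by
      unfold rat82
      rw [dt_neg_left, le_div_iff₀ h2]
      linarith
    exact lt_of_lt_of_le e1 e2
  have hvH : dt (c - t • b) (v - x) < 0 := by
    rw [dt_sub_smul, hF.hb, mul_zero, sub_zero]
    exact hF.hc
  have hHe : H = (X ∪ X') ∪ {v} := by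
    ext p
    constructor
    · intro hpH
      rw [hH, Finset.mem_filter] at hpH
      obtain ⟨hp, hp0⟩ := hpH
      rcases lt_trichotomy (dt b (p - x)) 0 with h1 | h1 | h1
      · refine Finset.mem_union_left _ (Finset.mem_union_right _ ?_)
        rw [hX', Finset.mem_filter, mem_up82, dt_neg_left]
        exact ⟨⟨hp, by linarith⟩, hp0⟩
      · refine Finset.mem_union_right _ (Finset.mem_singleton.2 ?_)
        rcases hF.line82 h.gp hp h1 with h2 | h2
        · rw [h2, dt_self_sub] at hp0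
          exact absurd hp0 (lt_irrefl _)
        · exact h2
      · refine Finset.mem_union_left _ (Finset.mem_union_left _ ?_)
        exact (hXm p (mem_up82.2 ⟨hp, h1⟩)).2 hp0
    · intro hpH
      rw [hH, Finset.mem_filter]
      rcases Finset.mem_union.1 hpH with h1 | h1
      · rcases Finset.mem_union.1 h1 with h1 | h1
        · exact ⟨(mem_up82.1 (hX.1 h1)).1, (hXm p (hX.1 h1)).1 h1⟩
        · rw [hX', Finset.mem_filter] at h1
          exact ⟨(mem_up82.1 h1.1).1, h1.2⟩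
      · rw [Finset.mem_singleton.1 h1]
        exact ⟨hF.hv, hvH⟩
  have hHP : IsHP79 (R ∪ B) H := by
    refine ⟨by rw [hH]; exact Finset.filter_subset _ _, c - t • b, fun p hp q hq hqH => ?_⟩
    rw [hH, Finset.mem_filter] at hp hqH
    have h1 := hp.2
    have h2 : ¬ dt (c - t • b) (q - x) < 0 := fun h0 => hqH ⟨hq, h0⟩
    rw [dt_sub] at h1 h2
    linarith
  obtain ⟨-, s2, s3⟩ := sides82 h.gp hF
  have d1 : Disjoint X X' := s2.mono hX.1 hLo.1
  have d2 : Disjoint (X ∪ X') {v} :=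
    s3.mono (Finset.union_subset_union hX.1 hLo.1) (by simp)
  have e1 := Dc_union82 R d2
  have e2 := Dc_union82 R d1
  have e3 := Dc_abs82 R {v}
  have e4 := h.hK H hHP
  have e5 := hE X' hLo
  rw [Finset.card_singleton] at e3
  rw [hHe, e1, e2] at e4
  rw [abs_le] at e3 e4 e5 ⊢
  push_cast at e3
  constructor <;> linarith [e3.1, e3.2, e4.1, e4.2, e5.1, e5.2]

/-- A half-plane at x cuts a side in an initial or a final set. -/
theorem cut82 {P : Finset (ℝ × ℝ)} {x v b c : ℝ × ℝ} (hF : Frame34 P x v b c) (w : ℝ × ℝ) :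
    Lo82 (up34 P x b) (rat82 x b c) ((up34 P x b).filter (fun p => 0 < dt w (p - x))) ∨
      Lo82 (up34 P x b) (rat82 x b c)
        (up34 P x b \ (up34 P x b).filter (fun p => 0 < dt w (p - x))) := by
  have hcr : cr b c ≠ 0 := hF.cr82
  obtain ⟨al, hal⟩ : ∃ al, al = cr b w / cr b c := ⟨_, rfl⟩
  obtain ⟨be, hbe⟩ : ∃ be, be = cr w c / cr b c := ⟨_, rfl⟩
  have hw : ∀ p ∈ up34 P x b, dt w (p - x) = dt b (p - x) * (al * rat82 x b c p + be) := by
    intro p hp
    have hpos := (mem_up82.1 hp).2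
    unfold rat82
    rw [hal, hbe]
    field_simp
    simp only [dt, cr]
    ring
  have hm : ∀ p ∈ up34 P x b, (0 < dt w (p - x) ↔ 0 < al * rat82 x b c p + be) := by
    intro p hp
    rw [hw p hp]
    exact ⟨fun h0 => (pos_iff_pos_of_mul_pos h0).1 (mem_up82.1 hp).2,
      fun h0 => mul_pos (mem_up82.1 hp).2 h0⟩
  rcases le_total al 0 with h0 | h0
  · left
    refine ⟨Finset.filter_subset _ _, fun p hp q hq hqX => ?_⟩
    rw [Finset.mem_filter] at hp
    have h1 := (hm p hp.1).1 hp.2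
    have h2 : ¬ 0 < al * rat82 x b c q + be := fun h3 =>
      hqX (Finset.mem_filter.2 ⟨hq, (hm q hq).2 h3⟩)
    by_contra hcon
    push Not at hcon
    have := mul_nonneg (neg_nonneg.2 h0) (sub_nonneg.2 hcon)
    nlinarith
  · right
    refine ⟨Finset.sdiff_subset, fun p hp q hq hqX => ?_⟩
    rw [Finset.mem_sdiff, Finset.mem_filter] at hp hqX
    have h1 : ¬ 0 < al * rat82 x b c p + be := fun h3 => hp.2 ⟨hp.1, (hm p hp.1).2 h3⟩
    have h2 : 0 < al * rat82 x b c q + be := by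
      by_contra h3
      exact hqX ⟨hq, fun h4 => h3 ((hm q hq).1 h4.2)⟩
    by_contra hcon
    push Not at hcon
    have := mul_nonneg h0 (sub_nonneg.2 hcon)
    nlinarith

/-- The intersection of two initial or final sets. -/
theorem inter82 {R U : Finset (ℝ × ℝ)} {f : ℝ × ℝ → ℝ} {E : ℤ}
    (hE : ∀ X, Lo82 U f X → |Dc79 R X| ≤ E) {A A' : Finset (ℝ × ℝ)} (hA : A ⊆ U) (hA' : A' ⊆ U)
    (h : Lo82 U f A ∨ Lo82 U f (U \ A)) (h' : Lo82 U f A' ∨ Lo82 U f (U \ A')) :
    |Dc79 R (A ∩ A')| ≤ 2 * E := by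
  classical
  have hE0 : 0 ≤ E := by
    have := hE ∅ ⟨Finset.empty_subset _, fun p hp => absurd hp (Finset.notMem_empty p)⟩
    exact (abs_nonneg _).trans this
  have hint : ∀ X Y, Lo82 U f X → Lo82 U f Y → Lo82 U f (X ∩ Y) := by
    intro X Y hX hY
    refine ⟨Finset.inter_subset_left.trans hX.1, fun p hp q hq hqI => ?_⟩
    rw [Finset.mem_inter] at hp hqI
    by_cases hqX : q ∈ X
    · exact hY.2 p hp.2 q hq fun h0 => hqI ⟨hqX, h0⟩
    · exact hX.2 p hp.1 q hq hqX
  have hun : ∀ X Y, Lo82 U f X → Lo82 U f Y → Lo82 U f (X ∪ Y) := by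
    intro X Y hX hY
    refine ⟨Finset.union_subset hX.1 hY.1, fun p hp q hq hqI => ?_⟩
    rw [Finset.mem_union] at hp hqI
    push Not at hqI
    rcases hp with h1 | h1
    · exact hX.2 p h1 q hq hqI.1
    · exact hY.2 p h1 q hq hqI.2
  have hU : Lo82 U f U := ⟨subset_rfl, fun p _ q hq hqU => absurd hq hqU⟩
  have hdif : ∀ X Y, Lo82 U f X → Lo82 U f Y → |Dc79 R (X \ Y)| ≤ 2 * E := by
    intro X Y hX hY
    have e : X \ Y = X \ (X ∩ Y) := by
      ext p
      simp only [Finset.mem_sdiff, Finset.mem_inter]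
      tauto
    rw [e, Dc_sdiff82 R Finset.inter_subset_left]
    have e1 := hE X hX
    have e2 := hE _ (hint X Y hX hY)
    rw [abs_le] at e1 e2 ⊢
    constructor <;> linarith [e1.1, e1.2, e2.1, e2.2]
  rcases h with h | h <;> rcases h' with h' | h'
  · exact (hE _ (hint _ _ h h')).trans (by linarith)
  · have e : A ∩ A' = A \ (U \ A') := by
      ext p
      simp only [Finset.mem_sdiff, Finset.mem_inter]
      constructor
      · rintro ⟨h1, h2⟩
        exact ⟨h1, fun h3 => h3.2 h2⟩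
      · rintro ⟨h1, h2⟩
        exact ⟨h1, by_contra fun h3 => h2 ⟨hA h1, h3⟩⟩
    rw [e]
    exact hdif _ _ h h'
  · have e : A ∩ A' = A' \ (U \ A) := by
      ext p
      simp only [Finset.mem_sdiff, Finset.mem_inter]
      constructor
      · rintro ⟨h1, h2⟩
        exact ⟨h2, fun h3 => h3.2 h1⟩
      · rintro ⟨h1, h2⟩
        exact ⟨by_contra fun h3 => h2 ⟨hA' h1, h3⟩, h1⟩
    rw [e]
    exact hdif _ _ h' h
  · have e : A ∩ A' = U \ ((U \ A) ∪ (U \ A')) := by
      ext p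
      simp only [Finset.mem_sdiff, Finset.mem_inter, Finset.mem_union]
      constructor
      · rintro ⟨h1, h2⟩
        exact ⟨hA h1, by tauto⟩
      · rintro ⟨h1, h2⟩
        tauto
    rw [e]
    exact hdif _ _ hU (hun _ _ h h')

/-- A vertex of the convex hull different from x. -/
theorem hull82 {P : Finset (ℝ × ℝ)} {x : ℝ × ℝ} (hx : x ∈ P) (h2 : 2 ≤ P.card) :
    ∃ v ∈ P, v ≠ x ∧ ∃ h : ℝ × ℝ, ∀ p ∈ P, p ≠ v → dt h (p - v) < 0 := by
  classical
  obtain ⟨b, hb⟩ := exists_dir79 P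
  obtain ⟨u, hu, hmax⟩ := Finset.exists_max_image P (fun p => dt b p) ⟨x, hx⟩
  obtain ⟨v, hv, hmin⟩ := Finset.exists_min_image P (fun p => dt b p) ⟨x, hx⟩
  by_cases hux : u = x
  · refine ⟨v, hv, ?_, -b, fun p hp hpv => ?_⟩
    · rintro rfl
      obtain ⟨p, hp, hpx⟩ := Finset.exists_mem_ne (by omega : 1 < P.card) v
      have h3 : dt b p ≤ dt b u := hmax p hp
      have h4 : dt b v ≤ dt b p := hmin p hp
      have h5 := hb p hp v hv hpx
      rw [hux] at h3
      rw [dt_sub] at h5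
      exact h5 (by linarith)
    · have h4 : dt b v ≤ dt b p := hmin p hp
      have h5 := hb p hp v hv hpv
      rw [dt_sub] at h5
      rw [dt_neg_left, dt_sub]
      have : dt b v ≠ dt b p := fun h0 => h5 (by linarith)
      have := lt_of_le_of_ne h4 this
      linarith
  · refine ⟨u, hu, hux, b, fun p hp hpu => ?_⟩
    have h4 : dt b p ≤ dt b u := hmax p hp
    have h5 := hb p hp u hu hpu
    rw [dt_sub] at h5 ⊢
    have : dt b p ≠ dt b u := fun h0 => h5 (by linarith)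
    have := lt_of_le_of_ne h4 this
    linarith

theorem main82 (hZ : ZStmt34) (hB : BentStmt34) {R B : Finset (ℝ × ℝ)} {n G K : ℕ}
    (h : Cx82 R B n G K) {x v b c : ℝ × ℝ} (hF : Frame34 (R ∪ B) x v b c)
    (hv : ∃ h : ℝ × ℝ, ∀ p ∈ R ∪ B, p ≠ v → dt h (p - v) < 0)
    (hlow : (up34 (R ∪ B) x b).card + 1 ≤ n) (w₁ w₂ : ℝ × ℝ) :
    |Dc79 R ((R ∪ B).filter (fun p => 0 < dt w₁ (p - x) ∧ 0 < dt w₂ (p - x)))| ≤
        8 * G + 10 * K + 55 := by
  classical
  have hE1 : ∀ X, Lo82 (up34 (R ∪ B) x b) (rat82 x b c) X → |Dc79 R X| ≤ 2 * G + 2 * K + 13 :=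
    fun X hX => low82 hZ hB h hF hv hlow hX
  have hE2 : ∀ X, Lo82 (up34 (R ∪ B) x (-b)) (rat82 x (-b) c) X →
      |Dc79 R X| ≤ K + (2 * G + 2 * K + 13) + 1 := fun X hX =>
    other82 h hF.neg82 (fun X' hX' => by
      rw [neg_neg] at hX'
      exact hE1 X' hX') hX
  obtain ⟨W, hW⟩ : ∃ W, W = (R ∪ B).filter (fun p => 0 < dt w₁ (p - x) ∧ 0 < dt w₂ (p - x)) :=
    ⟨_, rfl⟩
  have side : ∀ b', ∀ p, p ∈ (up34 (R ∪ B) x b').filter (fun p => 0 < dt w₁ (p - x)) ∩
      (up34 (R ∪ B) x b').filter (fun p => 0 < dt w₂ (p - x)) ↔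
      p ∈ W ∧ p ∈ up34 (R ∪ B) x b' := by
    intro b' p
    rw [hW, Finset.mem_inter, Finset.mem_filter, Finset.mem_filter, Finset.mem_filter, mem_up82]
    tauto
  have hWe : W = (((up34 (R ∪ B) x b).filter (fun p => 0 < dt w₁ (p - x)) ∩
      (up34 (R ∪ B) x b).filter (fun p => 0 < dt w₂ (p - x))) ∪
      ((up34 (R ∪ B) x (-b)).filter (fun p => 0 < dt w₁ (p - x)) ∩
      (up34 (R ∪ B) x (-b)).filter (fun p => 0 < dt w₂ (p - x)))) ∪ (W ∩ {v}) := by
    ext p
    rw [Finset.mem_union, Finset.mem_union, side, side, Finset.mem_inter, Finset.mem_singleton]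
    constructor
    · intro hp
      have hpP : p ∈ R ∪ B := by
        rw [hW, Finset.mem_filter] at hp
        exact hp.1
      rcases lt_trichotomy (dt b (p - x)) 0 with h1 | h1 | h1
      · left; right
        exact ⟨hp, mem_up82.2 ⟨hpP, by rw [dt_neg_left]; linarith⟩⟩
      · right
        rcases hF.line82 h.gp hpP h1 with h2 | h2
        · rw [hW, Finset.mem_filter, h2, dt_self_sub] at hp
          exact absurd hp.2.1 (lt_irrefl _)
        · exact ⟨hp, h2⟩
      · left; left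
        exact ⟨hp, mem_up82.2 ⟨hpP, h1⟩⟩
    · rintro ((h1 | h1) | h1)
      · exact h1.1
      · exact h1.1
      · exact h1.1
  obtain ⟨-, s2, s3⟩ := sides82 h.gp hF
  have sub : ∀ b', (up34 (R ∪ B) x b').filter (fun p => 0 < dt w₁ (p - x)) ∩
      (up34 (R ∪ B) x b').filter (fun p => 0 < dt w₂ (p - x)) ⊆ up34 (R ∪ B) x b' := fun b' p hp =>
    ((side b' p).1 hp).2
  have d1 := s2.mono (sub b) (sub (-b))
  have d2 := s3.mono (Finset.union_subset_union (sub b) (sub (-b)))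
    (show W ∩ {v} ⊆ {x, v} from Finset.inter_subset_right.trans (by simp))
  have e1 := inter82 hE1 (Finset.filter_subset _ _) (Finset.filter_subset _ _) (cut82 hF w₁)
    (cut82 hF w₂)
  have e2 := inter82 hE2 (Finset.filter_subset _ _) (Finset.filter_subset _ _)
    (cut82 hF.neg82 w₁) (cut82 hF.neg82 w₂)
  have e3 := Dc_abs82 R (W ∩ {v})
  have e4 : ((W ∩ {v}).card : ℤ) ≤ 1 := by
    have := Finset.card_le_card (Finset.inter_subset_right : W ∩ {v} ⊆ {v})
    rw [Finset.card_singleton] at this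
    exact_mod_cast this
  have e5 := Dc_union82 R d2
  have e6 := Dc_union82 R d1
  rw [← hWe] at e5
  rw [← hW, e5, e6]
  rw [abs_le] at e1 e2 e3 ⊢
  constructor <;> linarith [e1.1, e1.2, e2.1, e2.2, e3.1, e3.2]

/-- **Row WC.** -/
theorem wedge34 (hZ : ZStmt34) (hB : BentStmt34) : WedgeStmt34 55 := by
  intro R B n G K hdis hgp hR hBc hG hK x hx w₁ w₂
  have h : Cx82 R B n G K := ⟨hdis, hgp, hR, hBc, hG, hK⟩
  have hcard := h.card
  have hn : 1 ≤ n := by
    rcases Nat.eq_zero_or_pos n with h0 | h0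
    · rw [h0, Nat.mul_zero, Finset.card_eq_zero] at hcard
      rw [hcard] at hx
      exact absurd hx (Finset.notMem_empty _)
    · exact h0
  obtain ⟨v, hv, hvx, hh⟩ := hull82 hx (by omega)
  obtain ⟨d, hd⟩ : ∃ d, d = v - x := ⟨_, rfl⟩
  have hd0 : d ≠ 0 := by
    rw [hd]
    exact sub_ne_zero.2 hvx
  have hF : Frame34 (R ∪ B) x v (-d.2, d.1) (-d) := by
    refine ⟨hx, hv, ?_, ?_, ?_⟩
    · rw [← hd]
      simp only [dt]; ring
    · intro h0
      apply hd0
      have e1 : -d.2 = 0 := congrArg Prod.fst h0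
      have e2 : d.1 = 0 := congrArg Prod.snd h0
      exact Prod.ext e2 (by simpa using e1)
    · rw [← hd, dt_neg_left]
      have := dt_self_pos hd0
      linarith
  have hsum := sides_card82 hgp hF
  rw [hcard] at hsum
  have hfin : (8 * G + 10 * K + 55 : ℤ) ≤ (55 : ℕ) * ((G : ℤ) + K + 1) := by
    have : (0 : ℤ) ≤ G := by positivity
    have : (0 : ℤ) ≤ K := by positivity
    push_cast
    linarith
  rcases Nat.lt_or_ge (up34 (R ∪ B) x (-d.2, d.1)).card n with hlt | hge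
  · exact (main82 hZ hB h hF hh (by omega) w₁ w₂).trans hfin
  · exact (main82 hZ hB h hF.neg82 hh (by omega) w₁ w₂).trans hfin

end Pool.Agent.AltAll
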