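import Pool.Agent.AltAll.Geo34

/-! The fold with two corners, one of them a vertex of the convex hull. -/

set_option autoImplicit false

namespace Pool.Agent.AltAll

open Pool.Agent.AltPath Pool.Agent.AltHP Pool.Agent.HPD79 Pool.Agent.HPD66 Pool.Agent.AllS

theorem dtbv34 {P : Finset (ℝ × ℝ)} {x v b c : ℝ × ℝ} (hf : Frame34 P x v b c) (p : ℝ × ℝ) :
    dt b (p - v) = dt b (p - x) := by
  have h := hf.hb
  rw [dt_sub] at h ⊢
  rw [dt_sub]
  linarith

/-- The threshold at `v`. -/
theorem vthr34 {P : Finset (ℝ × ℝ)} (hgp : GP P) {x v b c : ℝ × ℝ} (hf : Frame34 P x v b c)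
    {BL : Finset (ℝ × ℝ)} (hBL : BL ⊆ P) (hb : ∀ p ∈ BL, dt b (p - v) < 0) (k : ℕ)
    (hk : k ≤ BL.card) :
    ∃ BC ⊆ BL, BC.card = k ∧ ∃ t : ℝ, (∀ p ∈ BC, t * dt b (p - v) < dt c (p - v)) ∧
      ∀ p ∈ BL, p ∉ BC → dt c (p - v) < t * dt b (p - v) := by
  classical
  have hne : ∀ p ∈ BL, v ≠ p := by
    rintro p hp rfl
    have := hb _ hp
    rw [dt_self_sub] at this
    exact lt_irrefl _ this
  obtain ⟨BC, h1, h2, t, h3, h4⟩ := threshold66 BL
    (fun p => dt c (p - v) / dt b (p - v))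
    (fun p hp q hq h => inj34 hgp (cr_ne34 hf) hf.hv (hBL hp) (hBL hq) (hne p hp) (hne q hq)
      (hb p hp).ne (hb q hq).ne h) k hk
  refine ⟨BC, h1, h2, t, fun p hp => ?_, fun p hp hp' => ?_⟩
  · exact (div_lt_iff_of_neg (hb p (h1 hp))).1 (h3 p hp)
  · exact (lt_div_iff_of_neg (hb p hp)).1 (h4 p hp hp')

/-- The threshold at `x`. -/
theorem xthr34 {P : Finset (ℝ × ℝ)} (hgp : GP P) {x v b c : ℝ × ℝ} (hf : Frame34 P x v b c)
    {RX BC : Finset (ℝ × ℝ)} (hRX : RX ⊆ P) (hBC : BC ⊆ P)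
    (hRb : ∀ p ∈ RX, 0 < dt b (p - x)) (hBb : ∀ p ∈ BC, dt b (p - x) < 0) (tX : ℝ)
    (hRt : ∀ p ∈ RX, dt c (p - x) < tX * dt b (p - x)) (k : ℕ) (hk : k ≤ RX.card) :
    ∃ RC ⊆ RX, ∃ BR ⊆ BC, RC.card + BC.card = k + BR.card ∧ ∃ t : ℝ, t < tX ∧
      (∀ p ∈ RC, dt c (p - x) < t * dt b (p - x)) ∧
      (∀ p ∈ RX, p ∉ RC → t * dt b (p - x) < dt c (p - x)) ∧
      (∀ p ∈ BR, dt c (p - x) < t * dt b (p - x)) ∧
      ∀ p ∈ BC, p ∉ BR → t * dt b (p - x) < dt c (p - x) ∧
        tX * dt b (p - x) < dt c (p - x) := by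
  classical
  obtain ⟨E, hE⟩ : ∃ E, E = RX ∪ BC.filter (fun p => tX * dt b (p - x) < dt c (p - x)) :=
    ⟨_, rfl⟩
  have hEm : ∀ p, p ∈ E ↔ p ∈ RX ∨ (p ∈ BC ∧ tX * dt b (p - x) < dt c (p - x)) := by
    intro p
    rw [hE, Finset.mem_union, Finset.mem_filter]
  have hEP : ∀ p ∈ E, p ∈ P := by
    intro p hp
    rcases (hEm p).1 hp with h | h
    · exact hRX h
    · exact hBC h.1
  have hEb : ∀ p ∈ E, dt b (p - x) ≠ 0 := by
    intro p hp
    rcases (hEm p).1 hp with h | h
    · exact (hRb p h).ne'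
    · exact (hBb p h.1).ne
  have hne : ∀ p ∈ E, x ≠ p := by
    rintro p hp rfl
    exact hEb _ hp (dt_self_sub _ _)
  have hEt : ∀ p ∈ E, dt c (p - x) / dt b (p - x) < tX := by
    intro p hp
    rcases (hEm p).1 hp with h | h
    · exact (div_lt_iff₀ (hRb p h)).2 (hRt p h)
    · exact (div_lt_iff_of_neg (hBb p h.1)).2 h.2
  have hkE : k ≤ E.card := by
    rw [hE]
    exact hk.trans (Finset.card_le_card Finset.subset_union_left)
  obtain ⟨E₁, h1, h2, t, ht, h3, h4⟩ := thr34 E (fun p => dt c (p - x) / dt b (p - x)) tX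
    (fun p hp q hq h => inj34 hgp (cr_ne34 hf) hf.hx (hEP p hp) (hEP q hq) (hne p hp) (hne q hq)
      (hEb p hp) (hEb q hq) h) hEt k hkE
  have hdis : Disjoint RX BC := by
    rw [Finset.disjoint_left]
    intro p h5 h6
    have := hRb p h5
    have := hBb p h6
    linarith
  have hc1 : E₁.card = (RX ∩ E₁).card + (BC ∩ E₁).card := by
    rw [← Finset.card_union_of_disjoint]
    · congr 1
      ext p
      rw [Finset.mem_union, Finset.mem_inter, Finset.mem_inter]
      constructor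
      · intro hp
        rcases (hEm p).1 (h1 hp) with h | h
        · exact Or.inl ⟨h, hp⟩
        · exact Or.inr ⟨h.1, hp⟩
      · rintro (h | h)
        · exact h.2
        · exact h.2
    · exact Disjoint.mono Finset.inter_subset_left Finset.inter_subset_left hdis
  have hc2 : (BC ∩ E₁).card + (BC \ E₁).card = BC.card := Finset.card_inter_add_card_sdiff _ _
  refine ⟨RX ∩ E₁, Finset.inter_subset_left, BC \ E₁, Finset.sdiff_subset, by omega, t, ht,
    ?_, ?_, ?_, ?_⟩
  · intro p hp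
    rw [Finset.mem_inter] at hp
    exact (div_lt_iff₀ (hRb p hp.1)).1 (h3 p hp.2)
  · intro p hp hp'
    have h5 : p ∉ E₁ := fun h => hp' (Finset.mem_inter.2 ⟨hp, h⟩)
    exact (lt_div_iff₀ (hRb p hp)).1 (h4 p ((hEm p).2 (Or.inl hp)) h5)
  · intro p hp
    rw [Finset.mem_sdiff] at hp
    have hb := hBb p hp.1
    by_cases hpE : p ∈ E
    · exact (lt_div_iff_of_neg hb).1 (h4 p hpE hp.2)
    · have h5 : ¬ tX * dt b (p - x) < dt c (p - x) := fun h => hpE ((hEm p).2 (Or.inr ⟨hp.1, h⟩))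
      have h6 : tX * dt b (p - x) < t * dt b (p - x) := mul_lt_mul_of_neg_right ht hb
      linarith
  · intro p hp hp'
    have h5 : p ∈ E₁ := by
      by_contra h
      exact hp' (Finset.mem_sdiff.2 ⟨hp, h⟩)
    have hb := hBb p hp
    refine ⟨(div_lt_iff_of_neg hb).1 (h3 p h5), ?_⟩
    rcases (hEm p).1 (h1 h5) with h | h
    · exact absurd hp (fun h6 => Finset.disjoint_left.1 hdis h h6)
    · exact h.2

/-- The path: an arm at `x`, a connector from `x` to `v`, and an arm at `v`. -/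
theorem zglue34 {R B : Finset (ℝ × ℝ)} (hd : Disjoint R B) {x v w w' : ℝ × ℝ}
    {la l lv : List (ℝ × ℝ)} (ha : SPath R B (x :: la)) (hl : SPath R B (x :: (l ++ [v])))
    (hv : SPath R B (v :: lv)) (h1 : ∀ p ∈ la, 0 < dt w (p - x))
    (h2 : ∀ p ∈ l, dt w (p - x) < 0) (h3 : dt w (v - x) < 0)
    (h4 : ∀ p ∈ lv, dt w' (p - v) < 0) (h5 : lv ≠ [] → ∀ p ∈ la, 0 < dt w' (p - v))
    (h6 : lv ≠ [] → ∀ p ∈ l, 0 < dt w' (p - v)) (h7 : lv ≠ [] → 0 < dt w' (x - v)) :
    HasPath R B (la.length + 1 + l.length + 1 + lv.length) := by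
  have a1 : SPath R B (la.reverse ++ [x]) := by
    have := ha.reverse hd
    rwa [List.reverse_cons] at this
  have a2 : SPath R B (la.reverse ++ x :: (l ++ [v])) := by
    refine a1.glue_line (w := -w) hl ?_ ?_
    · intro p hp
      rw [dt_neg_left]
      linarith [h1 p (List.mem_reverse.1 hp)]
    · intro p hp
      rw [dt_neg_left]
      rcases List.mem_append.1 hp with hp | hp
      · linarith [h2 p hp]
      · rw [List.mem_singleton] at hp
        rw [hp]
        linarith
  by_cases hlv : lv = []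
  · subst hlv
    have := a2.hasPath
    have e : (la.reverse ++ x :: (l ++ [v])).length =
        la.length + 1 + l.length + 1 + ([] : List (ℝ × ℝ)).length := by
      simp only [List.length_append, List.length_reverse, List.length_cons, List.length_nil]
      omega
    rwa [e] at this
  · have a3 : SPath R B ((la.reverse ++ x :: l) ++ [v]) := by
      have e : (la.reverse ++ x :: l) ++ [v] = la.reverse ++ x :: (l ++ [v]) := by simp
      rw [e]
      exact a2
    have a4 : SPath R B ((la.reverse ++ x :: l) ++ v :: lv) := by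
      refine a3.glue_line (w := -w') hv ?_ ?_
      · intro p hp
        rw [dt_neg_left]
        rcases List.mem_append.1 hp with hp | hp
        · linarith [h5 hlv p (List.mem_reverse.1 hp)]
        · rcases List.mem_cons.1 hp with rfl | hp
          · linarith [h7 hlv]
          · linarith [h6 hlv p hp]
      · intro p hp
        rw [dt_neg_left]
        linarith [h4 p hp]
    have := a4.hasPath
    have e : ((la.reverse ++ x :: l) ++ v :: lv).length =
        la.length + 1 + l.length + 1 + lv.length := by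
      simp only [List.length_append, List.length_reverse, List.length_cons]
      omega
    rwa [e] at this

theorem card_split34 {Q U X : Finset (ℝ × ℝ)} (h : X ⊆ U) :
    (Q ∩ U).card = (Q ∩ X).card + (Q ∩ (U \ X)).card := by
  classical
  rw [← Finset.card_union_of_disjoint]
  · congr 1
    ext p
    have := @h p
    simp only [Finset.mem_inter, Finset.mem_union, Finset.mem_sdiff]
    tauto
  · rw [Finset.disjoint_left]
    intro p h1 h2
    rw [Finset.mem_inter] at h1 h2
    exact (Finset.mem_sdiff.1 h2.2).2 h1.2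

theorem card_colour34 {R B X : Finset (ℝ × ℝ)} (hd : Disjoint R B) (h : X ⊆ R ∪ B) :
    X.card = (R ∩ X).card + (B ∩ X).card := by
  classical
  rw [← Finset.card_union_of_disjoint]
  · congr 1
    ext p
    have := @h p
    simp only [Finset.mem_inter, Finset.mem_union] at this ⊢
    tauto
  · exact Disjoint.mono Finset.inter_subset_left Finset.inter_subset_left hd

theorem cor_card34 {R B : Finset (ℝ × ℝ)} (hd : Disjoint R B) {x v : ℝ × ℝ} (hx : x ∈ R ∪ B)
    (hv : v ∈ R ∪ B) (hxv : x ≠ v) : ((B ∩ {x, v}).card : ℤ) = cor34 R x v + 1 := by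
  classical
  have hx' : x ∈ B ↔ x ∉ R := by
    constructor
    · exact fun h h' => Finset.disjoint_left.1 hd h' h
    · exact fun h => (Finset.mem_union.1 hx).resolve_left h
  have hv' : v ∈ B ↔ v ∉ R := by
    constructor
    · exact fun h h' => Finset.disjoint_left.1 hd h' h
    · exact fun h => (Finset.mem_union.1 hv).resolve_left h
  have e : B ∩ {x, v} = ({x, v} : Finset (ℝ × ℝ)).filter (fun p => p ∈ B) := by
    ext p
    rw [Finset.mem_inter, Finset.mem_filter, and_comm]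
  rw [e, Finset.filter_insert, Finset.filter_singleton]
  unfold cor34
  by_cases h1 : x ∈ R <;> by_cases h2 : v ∈ R
  · simp [h1, h2, hx', hv']
  · simp [h1, h2, hx', hv']
  · simp [h1, h2, hx', hv']
  · simp [h1, h2, hx', hv', hxv]

theorem zfold34 : ZStmt34 := by
  classical
  intro R B n G x v b c X Y hd hgp hRn hBn hpath hf hh hX hY hXY hβ
  obtain ⟨h, hh⟩ := hh
  obtain ⟨hXu, tX, hX1, hX2⟩ := hX
  obtain ⟨hYl, sY, hY1, hY2⟩ := hY
  have hRP : R ⊆ R ∪ B := Finset.subset_union_left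
  have hBP : B ⊆ R ∪ B := Finset.subset_union_right
  have hcb : cr c b ≠ 0 := cr_ne34 hf
  have hxv : x ≠ v := frame_ne34 hf
  have hbv : ∀ p, dt b (p - v) = dt b (p - x) := fun p => dtbv34 hf p
  have e1 := card_frame34 hgp hf hBP
  have hup : ∀ p, p ∈ up34 (R ∪ B) x b ↔ p ∈ R ∪ B ∧ 0 < dt b (p - x) := fun p => mem_up34
  have hlow : ∀ p, p ∈ up34 (R ∪ B) x (-b) ↔ p ∈ R ∪ B ∧ dt b (p - x) < 0 :=
    fun p => mem_low34
  obtain ⟨U, hU⟩ : ∃ U, U = up34 (R ∪ B) x b := ⟨_, rfl⟩
  obtain ⟨L, hL⟩ : ∃ L, L = up34 (R ∪ B) x (-b) := ⟨_, rfl⟩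
  rw [← hU] at hXu hX2 hup e1
  rw [← hL] at hYl hY2 hlow e1 hβ
  have e2 := card_split34 (Q := B) hXu
  have e3 := card_split34 (Q := B) hYl
  have hUP : U ⊆ R ∪ B := fun p hp => ((hup p).1 hp).1
  have hLP : L ⊆ R ∪ B := fun p hp => ((hlow p).1 hp).1
  have e4 := card_colour34 hd (hXu.trans hUP)
  have e5 := card_colour34 hd (hYl.trans hLP)
  have e6 := cor_card34 hd hf.hx hf.hv hxv
  obtain ⟨RX, hRX⟩ : ∃ RX, RX = R ∩ X := ⟨_, rfl⟩
  obtain ⟨RY, hRY⟩ : ∃ RY, RY = R ∩ Y := ⟨_, rfl⟩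
  obtain ⟨BO, hBO⟩ : ∃ BO, BO = B ∩ (U \ X) := ⟨_, rfl⟩
  obtain ⟨BL, hBL⟩ : ∃ BL, BL = B ∩ (L \ Y) := ⟨_, rfl⟩
  rw [← hRX] at e4 ⊢
  rw [← hRY] at e5 hβ ⊢
  rw [← hBO] at e2
  rw [← hBL] at e3 hβ
  obtain ⟨β, hβ1⟩ : ∃ β : ℕ, BL.card = RY.card + β := ⟨BL.card - RY.card, by omega⟩
  obtain ⟨k, hk⟩ : ∃ k : ℕ, (k : ℤ) = β + cor34 R x v :=
    ⟨((β : ℤ) + cor34 R x v).toNat, Int.toNat_of_nonneg (by omega)⟩
  have hcount : (RX.card : ℤ) = k + BO.card + 1 := by omega
  -- the sets
  have hRXR : RX ⊆ R := by rw [hRX]; exact Finset.inter_subset_left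
  have hRYR : RY ⊆ R := by rw [hRY]; exact Finset.inter_subset_left
  have hBOB : BO ⊆ B := by rw [hBO]; exact Finset.inter_subset_left
  have hBLB : BL ⊆ B := by rw [hBL]; exact Finset.inter_subset_left
  have hRXX : ∀ p ∈ RX, p ∈ X := by rw [hRX]; exact fun p hp => (Finset.mem_inter.1 hp).2
  have hRYY : ∀ p ∈ RY, p ∈ Y := by rw [hRY]; exact fun p hp => (Finset.mem_inter.1 hp).2
  have hBO' : ∀ p ∈ BO, p ∈ U ∧ p ∉ X := by
    rw [hBO]
    exact fun p hp => Finset.mem_sdiff.1 (Finset.mem_inter.1 hp).2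
  have hBL' : ∀ p ∈ BL, p ∈ L ∧ p ∉ Y := by
    rw [hBL]
    exact fun p hp => Finset.mem_sdiff.1 (Finset.mem_inter.1 hp).2
  have hRXb : ∀ p ∈ RX, 0 < dt b (p - x) := fun p hp => ((hup p).1 (hXu (hRXX p hp))).2
  have hRYb : ∀ p ∈ RY, dt b (p - x) < 0 := fun p hp => ((hlow p).1 (hYl (hRYY p hp))).2
  have hBOb : ∀ p ∈ BO, 0 < dt b (p - x) := fun p hp => ((hup p).1 (hBO' p hp).1).2
  have hBLb : ∀ p ∈ BL, dt b (p - x) < 0 := fun p hp => ((hlow p).1 (hBL' p hp).1).2
  obtain ⟨BC, hBC, hBCc, t3, hBC1, hBC2⟩ := vthr34 hgp hf (hBLB.trans hBP)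
    (fun p hp => by rw [hbv]; exact hBLb p hp) β (by omega)
  obtain ⟨RC, hRC, BR, hBR, hcard, t, ht, hRC1, hRC2, hBR1, hBR2⟩ := xthr34 hgp hf
    (hRXR.trans hRP) (hBC.trans (hBLB.trans hBP)) hRXb (fun p hp => hBLb p (hBC hp)) tX
    (fun p hp => hX1 p (hRXX p hp)) k (by omega)
  have hBCB : BC ⊆ B := hBC.trans hBLB
  -- the connector
  obtain ⟨l, l1, l2, l3⟩ := conn34 (w := c - t • b) hd hgp hf.hx hf.hv hf.hb0 hf.hb
    (hRC.trans hRXR) (hBR.trans hBCB) (by omega) (fun q hq => hRXb q (hRC hq))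
    (fun q hq => hBLb q (hBC (hBR hq)))
    (fun q hq => by rw [dt_sub_smul]; linarith [hRC1 q hq])
    (fun q hq => by rw [dt_sub_smul]; linarith [hBR1 q hq])
    (by rw [dt_sub_smul, hf.hb]; linarith [hf.hc]) hh
  -- the arm at x
  have hBA : Disjoint BO (BC \ BR) := by
    rw [Finset.disjoint_left]
    intro p h1 h2
    have := hBOb p h1
    have := hBLb p (hBC (Finset.mem_sdiff.1 h2).1)
    linarith
  have c1 : (BO ∪ (BC \ BR)).card = BO.card + (BC.card - BR.card) := by
    rw [Finset.card_union_of_disjoint hBA, Finset.card_sdiff_of_subset hBR]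
  have c2 : (RX \ RC).card = RX.card - RC.card := Finset.card_sdiff_of_subset hRC
  have c3 : RC.card ≤ RX.card := Finset.card_le_card hRC
  have c4 : BR.card ≤ BC.card := Finset.card_le_card hBR
  obtain ⟨RA, hRA, hRAc⟩ := Finset.exists_subset_card_eq
    (show (BO ∪ (BC \ BR)).card ≤ (RX \ RC).card by rw [c1, c2]; omega)
  have hRA' : ∀ p ∈ RA, p ∈ RX ∧ p ∉ RC := fun p hp => Finset.mem_sdiff.1 (hRA hp)
  obtain ⟨la, la1, la2, la3⟩ := arm34 (w := c - t • b) (a := c - tX • b) hd hgp hf.hx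
    (R₁ := RA) (B₁ := BO ∪ (BC \ BR)) (fun p hp => hRXR (hRA' p hp).1)
    (Finset.union_subset hBOB (Finset.sdiff_subset.trans hBCB)) hRAc
    (by
      have e : cr (c - tX • b) (c - t • b) = (tX - t) * cr c b := by
        simp only [cr, Prod.fst_sub, Prod.snd_sub, Prod.smul_fst, Prod.smul_snd, smul_eq_mul]
        ring
      rw [e]
      exact mul_ne_zero (sub_ne_zero.2 ht.ne') hcb)
    (fun q hq => by
      rw [dt_sub_smul]
      linarith [hRC2 q (hRA' q hq).1 (hRA' q hq).2])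
    (fun q hq => by
      rw [dt_sub_smul]
      rcases Finset.mem_union.1 hq with hq | hq
      · have h1 := hX2 q (hBO' q hq).1 (hBO' q hq).2
        have h2 := mul_lt_mul_of_pos_right ht (hBOb q hq)
        linarith
      · have h1 := (hBR2 q (Finset.mem_sdiff.1 hq).1 (Finset.mem_sdiff.1 hq).2).1
        linarith)
    (fun q hq => by
      rw [dt_sub_smul]
      linarith [hX1 q (hRXX q (hRA' q hq).1)])
    (fun q hq => by
      rw [dt_sub_smul]
      rcases Finset.mem_union.1 hq with hq | hq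
      · have h1 := hX2 q (hBO' q hq).1 (hBO' q hq).2
        linarith
      · have h1 := (hBR2 q (Finset.mem_sdiff.1 hq).1 (Finset.mem_sdiff.1 hq).2).2
        linarith)
  -- the arm at v
  have c5 : (BL \ BC).card = BL.card - BC.card := Finset.card_sdiff_of_subset hBC
  have hBV : ∀ p ∈ BL \ BC, dt c (p - v) < t3 * dt b (p - v) := fun p hp =>
    hBC2 p (Finset.mem_sdiff.1 hp).1 (Finset.mem_sdiff.1 hp).2
  have hBVs : ∀ p ∈ BL \ BC, sY * dt b (p - v) < dt c (p - v) := fun p hp =>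
    hY2 p (hBL' p (Finset.mem_sdiff.1 hp).1).1 (hBL' p (Finset.mem_sdiff.1 hp).1).2
  have harm : ∃ lv : List (ℝ × ℝ), SPath R B (v :: lv) ∧ (∀ q ∈ lv, q ∈ RY ∪ (BL \ BC)) ∧
      lv.length = 2 * RY.card ∧ (RY.card ≠ 0 → t3 < sY) := by
    by_cases hRY0 : RY.card = 0
    · refine ⟨[], ⟨by simp, ?_, ?_, ?_⟩, by simp, by simp [hRY0], fun h => absurd hRY0 h⟩
      · intro p hp
        rw [List.mem_singleton] at hp
        rw [hp]
        exact hf.hv
      · intro e he
        simp [edges] at he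
      · simp [edges]
    · have hne : (BL \ BC).Nonempty := by
        rw [← Finset.card_pos]
        omega
      have hts : t3 < sY := by
        obtain ⟨q, hq⟩ := hne
        have h1 := hBV q hq
        have h2 := hBVs q hq
        have h3 := hBLb q (Finset.mem_sdiff.1 hq).1
        rw [← hbv] at h3
        by_contra hcon
        push Not at hcon
        have := mul_le_mul_of_nonpos_right hcon h3.le
        linarith
      obtain ⟨lv, v1, v2, v3⟩ := arm34 (w := -(c - t3 • b)) (a := c - sY • b) hd hgp hf.hv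
        (R₁ := RY) (B₁ := BL \ BC) hRYR (Finset.sdiff_subset.trans hBLB) (by omega)
        (by
          have e : cr (c - sY • b) (-(c - t3 • b)) = (t3 - sY) * cr c b := by
            simp only [cr, Prod.fst_sub, Prod.snd_sub, Prod.smul_fst, Prod.smul_snd, smul_eq_mul,
              Prod.fst_neg, Prod.snd_neg]
            ring
          rw [e]
          exact mul_ne_zero (sub_ne_zero.2 hts.ne) hcb)
        (fun q hq => by
          rw [dt_neg_left, dt_sub_smul]
          have h1 := hY1 q (hRYY q hq)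
          have h3 := hRYb q hq
          rw [← hbv] at h3
          have h4 := mul_lt_mul_of_neg_right hts h3
          linarith)
        (fun q hq => by
          rw [dt_neg_left, dt_sub_smul]
          linarith [hBV q hq])
        (fun q hq => by
          rw [dt_sub_smul]
          linarith [hY1 q (hRYY q hq)])
        (fun q hq => by
          rw [dt_sub_smul]
          linarith [hBVs q hq])
      exact ⟨lv, v1, v2, v3, fun _ => hts⟩
  obtain ⟨lv, v1, v2, v3, v4⟩ := harm
  have hlv : lv ≠ [] → t3 < sY ∧ ∃ q, q ∈ BL \ BC := by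
    intro hne
    have h0 : 0 < lv.length := List.length_pos_of_ne_nil hne
    refine ⟨v4 (by omega), ?_⟩
    have : (BL \ BC).Nonempty := by
      rw [← Finset.card_pos]
      omega
    exact this
  have hx3 : 0 < dt (c - t3 • b) (x - v) := by
    have h1 := hf.hb
    have h2 := hf.hc
    rw [dt_sub_smul]
    rw [dt_sub] at h1 h2
    rw [dt_sub, dt_sub]
    have h3 : dt b x - dt b v = 0 := by linarith
    rw [h3]
    linarith
  have hupv : lv ≠ [] → ∀ p ∈ R ∪ B, 0 < dt b (p - x) → 0 < dt (c - t3 • b) (p - v) := by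
    intro hne p hp hpb
    obtain ⟨hts, q, hq⟩ := hlv hne
    have hqB : q ∈ R ∪ B := hBP (hBLB (Finset.mem_sdiff.1 hq).1)
    have hqb := hBLb q (Finset.mem_sdiff.1 hq).1
    have hqv : q ≠ v := by
      rintro rfl
      rw [hf.hb] at hqb
      exact lt_irrefl _ hqb
    have hpv : p ≠ v := by
      rintro rfl
      rw [hf.hb] at hpb
      exact lt_irrefl _ hpb
    refine hull34 (x := x) (v := v) (b := b) (h := h) (p := p) (q := q) ?_ ?_ hx3
      (hh x hf.hx hxv) (hh p hp hpv) (hh q hqB hqv) ?_ ?_ ?_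
    · have e : cr b (c - t3 • b) = - cr c b := by
        simp only [cr, Prod.fst_sub, Prod.snd_sub, Prod.smul_fst, Prod.smul_snd, smul_eq_mul]
        ring
      rw [e]
      exact neg_ne_zero.2 hcb
    · rw [hbv, dt_self_sub]
    · rw [hbv]; exact hqb
    · rw [dt_sub_smul]
      linarith [hBV q hq]
    · rw [hbv]; exact hpb
  have hpth := zglue34 hd (w := c - t • b) (w' := c - t3 • b) la1 l1 v1
    (fun p hp => by
      rw [dt_sub_smul]
      rcases Finset.mem_union.1 (la2 p hp) with hp | hp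
      · linarith [hRC2 p (hRA' p hp).1 (hRA' p hp).2]
      · rcases Finset.mem_union.1 hp with hp | hp
        · have h1 := hX2 p (hBO' p hp).1 (hBO' p hp).2
          have h2 := mul_lt_mul_of_pos_right ht (hBOb p hp)
          linarith
        · have h1 := (hBR2 p (Finset.mem_sdiff.1 hp).1 (Finset.mem_sdiff.1 hp).2).1
          linarith)
    (fun p hp => by
      rw [dt_sub_smul]
      rcases Finset.mem_union.1 (l2 p hp) with hp | hp
      · linarith [hRC1 p hp]
      · linarith [hBR1 p hp])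
    (by rw [dt_sub_smul, hf.hb]; linarith [hf.hc])
    (fun p hp => by
      rw [dt_sub_smul]
      have hne : lv ≠ [] := List.ne_nil_of_mem hp
      rcases Finset.mem_union.1 (v2 p hp) with hp | hp
      · have h1 := hY1 p (hRYY p hp)
        have h3 := hRYb p hp
        rw [← hbv] at h3
        have h4 := mul_lt_mul_of_neg_right (hlv hne).1 h3
        linarith
      · linarith [hBV p hp])
    (fun hne p hp => by
      rcases Finset.mem_union.1 (la2 p hp) with hp | hp
      · exact hupv hne p (hRP (hRXR (hRA' p hp).1)) (hRXb p (hRA' p hp).1)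
      · rcases Finset.mem_union.1 hp with hp | hp
        · exact hupv hne p (hBP (hBOB hp)) (hBOb p hp)
        · rw [dt_sub_smul]
          linarith [hBC1 p (Finset.mem_sdiff.1 hp).1])
    (fun hne p hp => by
      rcases Finset.mem_union.1 (l2 p hp) with hp | hp
      · exact hupv hne p (hRP (hRXR (hRC hp))) (hRXb p (hRC hp))
      · rw [dt_sub_smul]
        linarith [hBC1 p (hBR hp)])
    (fun _ => hx3)
  have hfin := hpath _ hpth
  rw [la3, l3, v3] at hfin
  have e7 : (B ∩ {x, v}).card ≤ 2 :=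
    (Finset.card_le_card Finset.inter_subset_right).trans Finset.card_le_two
  omega

end Pool.Agent.AltAll
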