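import Pool.Agent.AltAll.Top30
import Pool.Agent.AltAll.S30
import Pool.Agent.AltAll.HoleS71
import Pool.Agent.AltAll.CountS12
import Pool.Agent.AltAll.ChainS79
import Pool.Agent.AltAll.ZFold34
import Pool.Agent.AltAll.Bent83
import Pool.Agent.AltAll.WedgeW82

/-! Long alternating paths, all sets: the real form. -/

set_option autoImplicit false

namespace Pool.Agent.AltAll

open Pool.Agent.AltPath Pool.Agent.AltHP Pool.Agent.HPD79 Pool.Agent.AltALL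

/-- The constant of the integer bound: 24755860224 (16 * 55 + 19) ^ 6. -/
theorem int30 (hWin : WinStmt30) {R B : Finset (ℝ × ℝ)} {n G : ℕ} (h : Bal30 R B n G)
    (hG : 1 ≤ G) : n ≤ 24755860224 * (16 * 55 + 19) ^ 6 * (G * (Nat.log 2 n + 1)) ^ 9 := by
  have hC : ChainStmt30 := by
    intro R B n D F h1 h2 h3 h4 h5 h6 h7 h8
    exact chainS79 R B n D F h1 h2 h3 h4 h5 h6 h7 h8
  exact top30 (wedge34 zfold34 bent34) holeStmt71 hC tStmt30 rlStmt30 reflStmt30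
    hWin Pool.Agent.AltAll12.countStmt12 h hG

/-- The real form. -/
theorem real30 (hWin : WinStmt30) : ∃ c : ℝ, 0 < c ∧ ∀ (n : ℕ) (R B : Finset (ℝ × ℝ)), 2 ≤ n →
    R.card = n → B.card = n → Disjoint R B → GP (R ∪ B) →
    ∃ k : ℕ, HasPath R B k ∧ (n : ℝ) + c * (n : ℝ) ^ (1 / 9 : ℝ) / Real.log n ≤ k := by
  obtain ⟨A, hA⟩ : ∃ A : ℝ, A = 24755860224 * (16 * 55 + 19) ^ 6 := ⟨_, rfl⟩
  have hA0 : 0 < A := by rw [hA]; positivity
  have hl2 : 0 < Real.log 2 := Real.log_pos (by norm_num)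
  refine ⟨Real.log 2 / (2 * A ^ (1 / 9 : ℝ)), by positivity, ?_⟩
  intro n R B hn hR hB hdis hgp
  have h1 : HasPath R B (n + 1) := hasPath_succ hdis hgp hR hB (by omega)
  obtain ⟨k, hk, hmax⟩ := exists_longest (R := R) (B := B)
  have hk1 := hmax _ h1
  obtain ⟨G, rfl⟩ : ∃ G, k = n + G := ⟨k - n, by omega⟩
  have h2 := int30 hWin ⟨hdis, hgp, hR, hB, hmax⟩ (by omega : 1 ≤ G)
  refine ⟨n + G, hk, ?_⟩
  have hn1 : (1 : ℝ) < n := by exact_mod_cast (by omega : 1 < n)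
  have hlog : 0 < Real.log n := Real.log_pos hn1
  have h3 : (n : ℝ) ≤ A * ((G : ℝ) * (Nat.log 2 n + 1)) ^ 9 := by
    rw [hA]
    exact_mod_cast h2
  have h4 : (n : ℝ) ^ (1 / 9 : ℝ) ≤ A ^ (1 / 9 : ℝ) * ((G : ℝ) * (Nat.log 2 n + 1)) := by
    have h5 : (0 : ℝ) ≤ (G : ℝ) * (Nat.log 2 n + 1) := by positivity
    have h6 : (((G : ℝ) * (Nat.log 2 n + 1)) ^ 9) ^ (1 / 9 : ℝ) = (G : ℝ) * (Nat.log 2 n + 1) := by
      rw [← Real.rpow_natCast, ← Real.rpow_mul h5]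
      norm_num
    calc (n : ℝ) ^ (1 / 9 : ℝ) ≤ (A * ((G : ℝ) * (Nat.log 2 n + 1)) ^ 9) ^ (1 / 9 : ℝ) :=
          Real.rpow_le_rpow (by positivity) h3 (by norm_num)
      _ = A ^ (1 / 9 : ℝ) * ((G : ℝ) * (Nat.log 2 n + 1)) := by
          rw [Real.mul_rpow hA0.le (by positivity), h6]
  have h7 : (Nat.log 2 n : ℝ) * Real.log 2 ≤ Real.log n := by
    have h8 : (2 : ℝ) ^ (Nat.log 2 n) ≤ n := by
      exact_mod_cast Nat.pow_log_le_self 2 (by omega)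
    have h9 := Real.log_le_log (by positivity) h8
    rwa [Real.log_pow] at h9
  have h10 : Real.log 2 ≤ Real.log n :=
    Real.log_le_log (by norm_num) (by exact_mod_cast hn)
  have h11 : ((Nat.log 2 n : ℝ) + 1) * Real.log 2 ≤ 2 * Real.log n := by linarith
  have hAr : 0 < A ^ (1 / 9 : ℝ) := by positivity
  have h12 : Real.log 2 / (2 * A ^ (1 / 9 : ℝ)) * (n : ℝ) ^ (1 / 9 : ℝ) / Real.log n ≤ G := by
    rw [div_le_iff₀ hlog, div_mul_eq_mul_div, div_le_iff₀ (by positivity)]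
    have h13 : Real.log 2 * (n : ℝ) ^ (1 / 9 : ℝ) ≤
        Real.log 2 * (A ^ (1 / 9 : ℝ) * ((G : ℝ) * (Nat.log 2 n + 1))) :=
      mul_le_mul_of_nonneg_left h4 hl2.le
    have h14 : (A ^ (1 / 9 : ℝ) * G) * (((Nat.log 2 n : ℝ) + 1) * Real.log 2) ≤
        (A ^ (1 / 9 : ℝ) * G) * (2 * Real.log n) :=
      mul_le_mul_of_nonneg_left h11 (by positivity)
    linarith
  push_cast
  linarith

end Pool.Agent.AltAll
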