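import Pool.Agent.AltAll.HullCov30
import Pool.Agent.AltAll.Fin30

/-! Convex polygons with corners at which all wedges are balanced: the discrepancy of the polygon is
minus the sum over the exterior wedges at the corners. Wedges whose apex is outside of the hull. -/

set_option autoImplicit false

namespace Pool.Agent.AltAll

open Pool.Agent.AltPath Pool.Agent.AltHP Pool.Agent.HPD79 Pool.Agent.AltALL

/-- Every open wedge with apex x is balanced up to D. -/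
def AW30 (R P : Finset (ℝ × ℝ)) (D : ℤ) (x : ℝ × ℝ) : Prop :=
  ∀ w₁ w₂ : ℝ × ℝ, |Dc79 R (P.filter (fun p => 0 < dt w₁ (p - x) ∧ 0 < dt w₂ (p - x)))| ≤ D

theorem AW30.mono {R P : Finset (ℝ × ℝ)} {D D' : ℤ} {x : ℝ × ℝ} (h : AW30 R P D x) (hD : D ≤ D') :
    AW30 R P D' x := fun w₁ w₂ => (h w₁ w₂).trans hD

/-- Half-open wedges. -/
theorem AW30.half {R P : Finset (ℝ × ℝ)} {D : ℤ} {x : ℝ × ℝ} (h : AW30 R P D x)
    (w₁ w₂ : ℝ × ℝ) :
    |Dc79 R (P.filter (fun p => 0 < dt w₁ (p - x) ∧ 0 ≤ dt w₂ (p - x)))| ≤ D := by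
  classical
  have neg : ∀ w p : ℝ × ℝ, dt w (x - p) = -dt w (p - x) := by
    intro w p
    simp only [dt, Prod.fst_sub, Prod.snd_sub]; ring
  obtain ⟨e, he, hs⟩ := small ((P.filter (fun p => dt w₂ (p - x) < 0)).image (fun p => x - p))
    w₂ w₁ (by
      intro u hu
      obtain ⟨p, hp, rfl⟩ := Finset.mem_image.mp hu
      have := (Finset.mem_filter.mp hp).2
      rw [neg]
      linarith)
  have key : P.filter (fun p => 0 < dt w₁ (p - x) ∧ 0 ≤ dt w₂ (p - x)) =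
      P.filter (fun p => 0 < dt w₁ (p - x) ∧ 0 < dt (w₂ + e • w₁) (p - x)) := by
    apply Finset.filter_congr
    intro p hp
    have e2 : dt (w₂ + e • w₁) (p - x) = dt w₂ (p - x) + e * dt w₁ (p - x) := by
      simp only [dt, Prod.fst_add, Prod.snd_add, Prod.smul_fst, Prod.smul_snd, smul_eq_mul]; ring
    rw [e2]
    constructor
    · rintro ⟨h1, h2⟩
      exact ⟨h1, by have := mul_pos he h1; linarith⟩
    · rintro ⟨h1, h2⟩
      refine ⟨h1, ?_⟩
      by_contra hcon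
      push Not at hcon
      have h3 := hs (x - p) (Finset.mem_image.mpr ⟨p, Finset.mem_filter.mpr ⟨hp, hcon⟩, rfl⟩)
      rw [neg, neg, abs_neg, abs_of_pos h1] at h3
      linarith
  rw [key]
  exact h w₁ _

/-- Separation of a point from the hull of a finite set. -/
theorem sep30 {S : Finset (ℝ × ℝ)} {y : ℝ × ℝ} (hy : y ∉ convexHull ℝ (S : Set (ℝ × ℝ))) :
    ∃ e : ℝ × ℝ, ∀ q ∈ S, 0 < dt e (q - y) := by
  obtain ⟨f, u, h1, h2⟩ := geometric_hahn_banach_closed_point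
    (convex_convexHull ℝ (S : Set (ℝ × ℝ))) (S.finite_toSet.isCompact_convexHull ℝ).isClosed hy
  refine ⟨(-f (1, 0), -f (0, 1)), fun q hq => ?_⟩
  have h3 := h1 q (subset_convexHull ℝ _ (Finset.mem_coe.mpr hq))
  have e : ∀ x : ℝ × ℝ, f x = x.1 * f (1, 0) + x.2 * f (0, 1) := by
    intro x
    have e1 : x = x.1 • ((1, 0) : ℝ × ℝ) + x.2 • ((0, 1) : ℝ × ℝ) := by
      ext <;> simp
    conv_lhs => rw [e1]
    rw [map_add, map_smul, map_smul, smul_eq_mul, smul_eq_mul]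
  rw [e q] at h3
  rw [e y] at h2
  simp only [dt, Prod.fst_sub, Prod.snd_sub]
  linarith

theorem ptrace30 (w e x y : ℝ × ℝ) :
    dt w x * dt e y - dt w y * dt e x = cr w e * cr x y := by
  simp only [dt, cr]; ring

/-- The sides of a line, as half-planes. -/
theorem side30 (P : Finset (ℝ × ℝ)) (w y : ℝ × ℝ) :
    IsHP79 P (P.filter (fun p => 0 < dt w (p - y))) := by
  refine ⟨Finset.filter_subset _ _, -w, ?_⟩
  intro a ha b hb hb'
  have h1 := (Finset.mem_filter.mp ha).2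
  have h2 : ¬ 0 < dt w (b - y) := fun h => hb' (Finset.mem_filter.mpr ⟨hb, h⟩)
  push Not at h2
  simp only [dt, Prod.fst_sub, Prod.snd_sub, Prod.fst_neg, Prod.snd_neg] at h1 h2 ⊢
  linarith

/-- Wedges whose apex is outside of the hull are balanced up to 2 K. -/
theorem outer30 {R B : Finset (ℝ × ℝ)} (hdis : Disjoint R B) {n : ℕ} (hR : R.card = n)
    (hB : B.card = n) {K : ℕ} (hK : ∀ H, IsHP79 (R ∪ B) H → |Dc79 R H| ≤ (K : ℤ)) {y : ℝ × ℝ}
    (hy : y ∉ convexHull ℝ ((R ∪ B : Finset (ℝ × ℝ)) : Set (ℝ × ℝ))) :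
    AW30 R (R ∪ B) (2 * K) y := by
  classical
  obtain ⟨e, he⟩ := sep30 hy
  intro w₁ w₂
  obtain ⟨P, hP⟩ : ∃ P, P = R ∪ B := ⟨_, rfl⟩
  have h0 := Dc79_whole hdis hR hB
  rw [← hP] at he hK h0 ⊢
  obtain ⟨H1, hH1⟩ : ∃ H, H = P.filter (fun p => 0 < dt w₁ (p - y)) := ⟨_, rfl⟩
  obtain ⟨H2, hH2⟩ : ∃ H, H = P.filter (fun p => 0 < dt w₂ (p - y)) := ⟨_, rfl⟩
  have k1 : |Dc79 R H1| ≤ (K : ℤ) := by rw [hH1]; exact hK _ (side30 P w₁ y)
  have k2 : |Dc79 R H2| ≤ (K : ℤ) := by rw [hH2]; exact hK _ (side30 P w₂ y)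
  have m1 : ∀ p, p ∈ H1 ↔ p ∈ P ∧ 0 < dt w₁ (p - y) := by
    intro p; rw [hH1]; exact Finset.mem_filter
  have m2 : ∀ p, p ∈ H2 ↔ p ∈ P ∧ 0 < dt w₂ (p - y) := by
    intro p; rw [hH2]; exact Finset.mem_filter
  have hW : P.filter (fun p => 0 < dt w₁ (p - y) ∧ 0 < dt w₂ (p - y)) = H1 ∩ H2 := by
    ext p
    rw [Finset.mem_filter, Finset.mem_inter, m1, m2]
    tauto
  rw [hW]
  have hK0 : (0 : ℤ) ≤ K := Int.natCast_nonneg K
  by_cases c1 : H1 ⊆ H2
  · rw [Finset.inter_eq_left.mpr c1]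
    linarith
  by_cases c2 : H2 ⊆ H1
  · rw [Finset.inter_eq_right.mpr c2]
    linarith
  by_cases c3 : H1 ∩ H2 = ∅
  · rw [c3]
    simp [Dc79]
  by_cases c4 : ∀ p ∈ P, p ∈ H1 ∨ p ∈ H2
  · have d1 : Disjoint (H1 ∩ H2) (H1 \ H2) := by
      rw [Finset.disjoint_left]
      intro p hp hp'
      exact (Finset.mem_sdiff.mp hp').2 (Finset.mem_inter.mp hp).2
    have u1 : H1 = H1 ∩ H2 ∪ H1 \ H2 := by
      ext p
      rw [Finset.mem_union, Finset.mem_inter, Finset.mem_sdiff]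
      tauto
    have d2 : Disjoint H2 (H1 \ H2) := by
      rw [Finset.disjoint_left]
      intro p hp hp'
      exact (Finset.mem_sdiff.mp hp').2 hp
    have u2 : P = H2 ∪ H1 \ H2 := by
      ext p
      rw [Finset.mem_union, Finset.mem_sdiff]
      constructor
      · intro hp
        rcases c4 p hp with h | h
        · by_cases h' : p ∈ H2
          · exact Or.inl h'
          · exact Or.inr ⟨h, h'⟩
        · exact Or.inl h
      · rintro (h | ⟨h, -⟩)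
        · exact ((m2 p).mp h).1
        · exact ((m1 p).mp h).1
    have e1 : Dc79 R H1 = Dc79 R (H1 ∩ H2) + Dc79 R (H1 \ H2) := by
      conv_lhs => rw [u1]
      exact Dc79_disj d1
    have e2 : Dc79 R P = Dc79 R H2 + Dc79 R (H1 \ H2) := by
      conv_lhs => rw [u2]
      exact Dc79_disj d2
    have e3 : Dc79 R (H1 ∩ H2) = Dc79 R H1 + Dc79 R H2 := by linarith
    rw [e3]
    have := abs_add_le (Dc79 R H1) (Dc79 R H2)
    linarith
  · exfalso
    push Not at c4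
    obtain ⟨p4, hp4, h41, h42⟩ := c4
    obtain ⟨p1, hp1, h12⟩ := Finset.not_subset.mp c1
    obtain ⟨p2, hp2, h21⟩ := Finset.not_subset.mp c2
    obtain ⟨p3, hp3⟩ := Finset.nonempty_iff_ne_empty.mpr c3
    obtain ⟨h31, h32⟩ := Finset.mem_inter.mp hp3
    obtain ⟨q1, a11⟩ := (m1 p1).mp hp1
    obtain ⟨q2, a22⟩ := (m2 p2).mp hp2
    obtain ⟨q3, a31⟩ := (m1 p3).mp h31
    have a32 := ((m2 p3).mp h32).2
    have a12 : dt w₂ (p1 - y) ≤ 0 := by
      by_contra h; push Not at h; exact h12 ((m2 p1).mpr ⟨q1, h⟩)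
    have a21 : dt w₁ (p2 - y) ≤ 0 := by
      by_contra h; push Not at h; exact h21 ((m1 p2).mpr ⟨q2, h⟩)
    have a41 : dt w₁ (p4 - y) ≤ 0 := by
      by_contra h; push Not at h; exact h41 ((m1 p4).mpr ⟨hp4, h⟩)
    have a42 : dt w₂ (p4 - y) ≤ 0 := by
      by_contra h; push Not at h; exact h42 ((m2 p4).mpr ⟨hp4, h⟩)
    have pos : ∀ (w x x' : ℝ × ℝ), 0 < dt w x → dt w x' ≤ 0 → 0 < dt e x → 0 < dt e x' →
        0 < cr w e * cr x x' := by
      intro w x x' g1 g2 g3 g4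
      rw [← ptrace30]
      have := mul_pos g1 g4
      have := mul_nonpos_of_nonpos_of_nonneg g2 g3.le
      linarith
    have A1 := pos w₁ _ _ a11 a21 (he p1 q1) (he p2 q2)
    have A2 := pos w₁ _ _ a31 a41 (he p3 q3) (he p4 hp4)
    have B1 := pos w₂ _ _ a22 a12 (he p2 q2) (he p1 q1)
    have B2 := pos w₂ _ _ a32 a42 (he p3 q3) (he p4 hp4)
    have e1 : cr (p2 - y) (p1 - y) = -cr (p1 - y) (p2 - y) := by
      simp only [cr]; ring
    rw [e1] at B1
    have C1 := mul_pos A1 B2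
    have C2 := mul_pos A2 B1
    have e2 : (cr w₁ e * cr (p1 - y) (p2 - y)) * (cr w₂ e * cr (p3 - y) (p4 - y)) +
        (cr w₁ e * cr (p3 - y) (p4 - y)) * (cr w₂ e * -cr (p1 - y) (p2 - y)) = 0 := by ring
    linarith

end Pool.Agent.AltAll
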