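import Pool.Agent.AltAll.CornA30

/-! The exterior wedges at the corners of a convex polygon. -/

set_option autoImplicit false

namespace Pool.Agent.AltAll

open Pool.Agent.AltPath Pool.Agent.AltHP Pool.Agent.HPD79 Pool.Agent.AltALL

/-- The next corner. -/
def nx30 (v i : ℕ) : ℕ := if i = v then 0 else i + 1

/-- The previous corner. -/
def pv30 (v i : ℕ) : ℕ := if i = 0 then v else i - 1

theorem nx30_le {v i : ℕ} (h : i ≤ v) : nx30 v i ≤ v := by
  unfold nx30; split_ifs <;> omega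

theorem pv30_le {v i : ℕ} (h : i ≤ v) : pv30 v i ≤ v := by
  unfold pv30; split_ifs <;> omega

/-- The half-open exterior wedge at the corner z i. -/
noncomputable def EW30 (P : Finset (ℝ × ℝ)) (v : ℕ) (z : ℕ → ℝ × ℝ) (i : ℕ) :
    Finset (ℝ × ℝ) :=
  P.filter (fun p => 0 < dt (rot79 (z (nx30 v i) - z i)) (p - z i) ∧
    0 ≤ dt (rot79 (z (pv30 v i) - z i)) (p - z i))

theorem mem_EW30 {P : Finset (ℝ × ℝ)} {v : ℕ} {z : ℕ → ℝ × ℝ} {i : ℕ} {p : ℝ × ℝ} :
    p ∈ EW30 P v z i ↔ p ∈ P ∧ 0 < cr (z i - p) (z (nx30 v i) - p) ∧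
      0 ≤ cr (z i - p) (z (pv30 v i) - p) := by
  have e : ∀ j, dt (rot79 (z j - z i)) (p - z i) = cr (z i - p) (z j - p) := by
    intro j
    rw [dt_rot79]
    simp only [cr, Prod.fst_sub, Prod.snd_sub]; ring
  unfold EW30
  rw [Finset.mem_filter, e, e]

/-- The slope coordinate seen from p in the direction e. -/
noncomputable def sl30 (e : ℝ × ℝ) (z : ℕ → ℝ × ℝ) (p : ℝ × ℝ) (m : ℕ) : ℝ :=
  cr e (z m - p) / dt e (z m - p)

theorem sl30_lt {e : ℝ × ℝ} {z : ℕ → ℝ × ℝ} {p : ℝ × ℝ} {i j : ℕ} (hi : 0 < dt e (z i - p))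
    (hj : 0 < dt e (z j - p)) :
    0 < cr (z i - p) (z j - p) ↔ sl30 e z p i < sl30 e z p j := by
  unfold sl30
  have h0 : 0 < dt e e := by
    apply dt_self_pos
    rintro rfl
    simp [dt] at hi
  rw [div_lt_div_iff₀ hi hj]
  have e1 : dt e e * cr (z i - p) (z j - p) =
      cr e (z j - p) * dt e (z i - p) - cr e (z i - p) * dt e (z j - p) := by
    simp only [dt, cr]; ring
  constructor
  · intro h
    have := mul_pos h0 h
    linarith
  · intro h
    have h1 : 0 < dt e e * cr (z i - p) (z j - p) := by rw [e1]; linarith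
    exact (mul_pos_iff_of_pos_left h0).mp h1

theorem sl30_le {e : ℝ × ℝ} {z : ℕ → ℝ × ℝ} {p : ℝ × ℝ} {i j : ℕ} (hi : 0 < dt e (z i - p))
    (hj : 0 < dt e (z j - p)) :
    0 ≤ cr (z i - p) (z j - p) ↔ sl30 e z p i ≤ sl30 e z p j := by
  have h := sl30_lt (z := z) hj hi
  have e1 : cr (z j - p) (z i - p) = -cr (z i - p) (z j - p) := by simp only [cr]; ring
  rw [e1] at h
  constructor
  · intro h1
    by_contra h2
    push Not at h2
    have := h.mpr h2
    linarith
  · intro h1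
    by_contra h2
    push Not at h2
    have := h.mp (by linarith)
    linarith

/-- The affine functional of a line through p. -/
theorem sl30_val {e : ℝ × ℝ} {z : ℕ → ℝ × ℝ} {p : ℝ × ℝ} {m : ℕ} (t : ℝ)
    (hm : 0 < dt e (z m - p)) :
    dt (rot79 e - t • e) (z m) + (-dt (rot79 e - t • e) p) =
      (sl30 e z p m - t) * dt e (z m - p) := by
  have h1 : sl30 e z p m * dt e (z m - p) = cr e (z m - p) := by
    unfold sl30
    rw [div_mul_cancel₀ _ hm.ne']
  rw [sub_mul, h1]
  simp only [dt, cr, rot79, Prod.fst_sub, Prod.snd_sub, Prod.smul_fst, Prod.smul_snd,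
    smul_eq_mul]
  ring

/-- A point outside of the polygon does not see two local minima of the slope. -/
theorem no_two_min30 {v : ℕ} {z : ℕ → ℝ × ℝ}
    (hcw : ∀ i j k, i < j → j < k → k ≤ v → cr (z j - z i) (z k - z i) < 0) {e p : ℝ × ℝ}
    (he : ∀ m ≤ v, 0 < dt e (z m - p)) {i j m1 m2 : ℕ} (hij : i < j) (hj : j ≤ v)
    (h1 : i < m1) (h1' : m1 < j) (h2 : (j < m2 ∧ m2 ≤ v) ∨ m2 < i)
    (s1 : sl30 e z p i < sl30 e z p m1) (s2 : sl30 e z p j ≤ sl30 e z p m1)
    (s3 : sl30 e z p j < sl30 e z p m2) (s4 : sl30 e z p i ≤ sl30 e z p m2) : False := by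
  obtain ⟨t, ht⟩ : ∃ t, t = max (sl30 e z p i) (sl30 e z p j) := ⟨_, rfl⟩
  have ti : sl30 e z p i ≤ t := by rw [ht]; exact le_max_left _ _
  have tj : sl30 e z p j ≤ t := by rw [ht]; exact le_max_right _ _
  have tm1 : t ≤ sl30 e z p m1 := by rw [ht]; exact max_le s1.le s2
  have tm2 : t ≤ sl30 e z p m2 := by rw [ht]; exact max_le s4 s3.le
  have hm2 : m2 ≤ v := by
    rcases h2 with h | h
    · exact h.2
    · omega
  have vi := sl30_val (z := z) t (he i (by omega))
  have vj := sl30_val (z := z) t (he j hj)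
  have v1 := sl30_val (z := z) t (he m1 (by omega))
  have v2 := sl30_val (z := z) t (he m2 hm2)
  have ni : dt (rot79 e - t • e) (z i) + (-dt (rot79 e - t • e) p) ≤ 0 := by
    rw [vi]; exact mul_nonpos_of_nonpos_of_nonneg (by linarith) (he i (by omega)).le
  have nj : dt (rot79 e - t • e) (z j) + (-dt (rot79 e - t • e) p) ≤ 0 := by
    rw [vj]; exact mul_nonpos_of_nonpos_of_nonneg (by linarith) (he j hj).le
  have n1 : 0 ≤ dt (rot79 e - t • e) (z m1) + (-dt (rot79 e - t • e) p) := by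
    rw [v1]; exact mul_nonneg (by linarith) (he m1 (by omega)).le
  have n2 : 0 ≤ dt (rot79 e - t • e) (z m2) + (-dt (rot79 e - t • e) p) := by
    rw [v2]; exact mul_nonneg (by linarith) (he m2 hm2).le
  have hne : dt (rot79 e - t • e) (z m1) + (-dt (rot79 e - t • e) p) ≠ 0 ∨
      dt (rot79 e - t • e) (z m2) + (-dt (rot79 e - t • e) p) ≠ 0 := by
    rcases le_total (sl30 e z p j) (sl30 e z p i) with h | h
    · left
      have : t = sl30 e z p i := by rw [ht]; exact max_eq_left h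
      rw [v1]
      exact (mul_pos (by linarith) (he m1 (by omega))).ne'
    · right
      have : t = sl30 e z p j := by rw [ht]; exact max_eq_right h
      rw [v2]
      exact (mul_pos (by linarith) (he m2 hm2)).ne'
  rcases h2 with h | h
  · -- the order i, m1, j, m2
    have neg : ∀ x, dt (-(rot79 e - t • e)) x + dt (rot79 e - t • e) p =
        -(dt (rot79 e - t • e) x + (-dt (rot79 e - t • e) p)) := by
      intro x
      rw [dt_neg_left]; ring
    refine no_alt hcw h1 h1' h.1 h.2 (-(rot79 e - t • e)) (dt (rot79 e - t • e) p) ?_ ?_ ?_ ?_ ?_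
    · rw [neg]; linarith
    · rw [neg]; linarith
    · rw [neg]; linarith
    · rw [neg]; linarith
    · rw [neg, neg, neg, neg]
      rcases hne with h3 | h3
      · exact Or.inr (Or.inl (neg_ne_zero.mpr h3))
      · exact Or.inr (Or.inr (Or.inr (neg_ne_zero.mpr h3)))
  · refine no_alt hcw h h1 h1' hj (rot79 e - t • e) (-dt (rot79 e - t • e) p) n2 ni n1 nj ?_
    rcases hne with h3 | h3
    · exact Or.inr (Or.inr (Or.inl h3))
    · exact Or.inl h3

/-- The exterior wedges are disjoint. -/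
theorem ew_disj30 {P : Finset (ℝ × ℝ)} {v : ℕ} {z : ℕ → ℝ × ℝ}
    (hcw : ∀ i j k, i < j → j < k → k ≤ v → cr (z j - z i) (z k - z i) < 0) {e p : ℝ × ℝ}
    (he : ∀ m ≤ v, 0 < dt e (z m - p)) {i j : ℕ} (hij : i < j) (hj : j ≤ v)
    (hi' : p ∈ EW30 P v z i) (hj' : p ∈ EW30 P v z j) : False := by
  obtain ⟨-, a1, a2⟩ := mem_EW30.mp hi'
  obtain ⟨-, b1, b2⟩ := mem_EW30.mp hj'
  have hiv : i ≤ v := by omega
  rw [sl30_lt (he i hiv) (he _ (nx30_le hiv))] at a1
  rw [sl30_le (he i hiv) (he _ (pv30_le hiv))] at a2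
  rw [sl30_lt (he j hj) (he _ (nx30_le hj))] at b1
  rw [sl30_le (he j hj) (he _ (pv30_le hj))] at b2
  have ni : nx30 v i = i + 1 := by unfold nx30; rw [if_neg (by omega)]
  have pj : pv30 v j = j - 1 := by unfold pv30; rw [if_neg (by omega)]
  rw [ni] at a1
  rw [pj] at b2
  rcases Nat.lt_or_ge (i + 1) j with h | h
  · -- the corner between them
    obtain ⟨m1, h1, h1', s1, s2⟩ : ∃ m1, i < m1 ∧ m1 < j ∧ sl30 e z p i < sl30 e z p m1 ∧
        sl30 e z p j ≤ sl30 e z p m1 := by
      rcases le_total (sl30 e z p (i + 1)) (sl30 e z p (j - 1)) with h3 | h3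
      · exact ⟨j - 1, by omega, by omega, a1.trans_le h3, b2⟩
      · exact ⟨i + 1, by omega, h, a1, b2.trans h3⟩
    by_cases hc : i = 0 ∧ j = v
    · obtain ⟨rfl, rfl⟩ := hc
      have n1 : nx30 j j = 0 := by unfold nx30; rw [if_pos rfl]
      have p1 : pv30 j 0 = j := by unfold pv30; rw [if_pos rfl]
      rw [n1] at b1
      rw [p1] at a2
      linarith
    · have hn : (j < nx30 v j ∧ nx30 v j ≤ v) ∨ nx30 v j < i := by
        unfold nx30; split_ifs <;> omega
      have hp : (j < pv30 v i ∧ pv30 v i ≤ v) ∨ pv30 v i < i := by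
        unfold pv30; split_ifs <;> omega
      rcases le_total (sl30 e z p (nx30 v j)) (sl30 e z p (pv30 v i)) with h3 | h3
      · exact no_two_min30 hcw he hij hj h1 h1' hp s1 s2 (b1.trans_le h3) a2
      · exact no_two_min30 hcw he hij hj h1 h1' hn s1 s2 b1 (a2.trans h3)
  · have : j = i + 1 := by omega
    subst this
    rw [Nat.add_sub_cancel] at b2
    linarith

/-- The exterior wedges cover the exterior. -/
theorem ew_cover30 {P : Finset (ℝ × ℝ)} {v : ℕ} {z : ℕ → ℝ × ℝ} (hv : 2 ≤ v)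
    (hcw : ∀ i j k, i < j → j < k → k ≤ v → cr (z j - z i) (z k - z i) < 0) {e p : ℝ × ℝ}
    (he : ∀ m ≤ v, 0 < dt e (z m - p)) (hp : p ∈ P) : ∃ i ≤ v, p ∈ EW30 P v z i := by
  obtain ⟨m0, hm0, hmin⟩ := Finset.exists_min_image (Finset.range (v + 1)) (sl30 e z p) ⟨0, by simp⟩
  have hm0v : m0 ≤ v := by simpa [Nat.lt_succ_iff] using hm0
  have hmin' : ∀ j ≤ v, sl30 e z p m0 ≤ sl30 e z p j :=
    fun j hj => hmin j (by simpa [Nat.lt_succ_iff] using hj)
  obtain ⟨μ, hμ⟩ : ∃ μ, μ = sl30 e z p m0 := ⟨_, rfl⟩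
  rw [← hμ] at hmin'
  by_contra hcon
  push Not at hcon
  -- no corner with slope μ has a next corner with a larger slope
  have hstep : ∀ i ≤ v, sl30 e z p i = μ → sl30 e z p (nx30 v i) = μ := by
    intro i hi hs
    by_contra hne
    have h1 : μ < sl30 e z p (nx30 v i) := lt_of_le_of_ne (hmin' _ (nx30_le hi)) (Ne.symm hne)
    apply hcon i hi
    rw [mem_EW30]
    refine ⟨hp, ?_, ?_⟩
    · rw [sl30_lt (he i hi) (he _ (nx30_le hi)), hs]
      exact h1
    · rw [sl30_le (he i hi) (he _ (pv30_le hi)), hs]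
      exact hmin' _ (pv30_le hi)
  have hup : ∀ d, m0 + d ≤ v → sl30 e z p (m0 + d) = μ := by
    intro d
    induction d with
    | zero => intro _; exact hμ.symm
    | succ d ih =>
      intro hd
      have h1 := hstep (m0 + d) (by omega) (ih (by omega))
      have h2 : nx30 v (m0 + d) = m0 + (d + 1) := by
        unfold nx30; rw [if_neg (by omega)]; rfl
      rwa [h2] at h1
  have hv1 : sl30 e z p v = μ := by
    have := hup (v - m0) (by omega)
    rwa [show m0 + (v - m0) = v by omega] at this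
  have h0 : sl30 e z p 0 = μ := by
    have h1 := hstep v le_rfl hv1
    have h2 : nx30 v v = 0 := by unfold nx30; rw [if_pos rfl]
    rwa [h2] at h1
  have hall : ∀ d, d ≤ v → sl30 e z p d = μ := by
    intro d
    induction d with
    | zero => intro _; exact h0
    | succ d ih =>
      intro hd
      have h1 := hstep d (by omega) (ih (by omega))
      have h2 : nx30 v d = d + 1 := by unfold nx30; rw [if_neg (by omega)]
      rwa [h2] at h1
  -- three corners on a line
  have hz : ∀ i j, i ≤ v → j ≤ v → cr (z i - p) (z j - p) = 0 := by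
    intro i j hi hj
    have h1 := (sl30_le (z := z) (he i hi) (he j hj)).mpr (by rw [hall i hi, hall j hj])
    have h2 := (sl30_le (z := z) (he j hj) (he i hi)).mpr (by rw [hall i hi, hall j hj])
    have e1 : cr (z j - p) (z i - p) = -cr (z i - p) (z j - p) := by simp only [cr]; ring
    linarith
  have h3 := hcw 0 1 2 (by omega) (by omega) hv
  have h4 := hz 0 1 (by omega) (by omega)
  have h5 := hz 1 2 (by omega) (by omega)
  have h6 := hz 0 2 (by omega) hv
  have e2 : cr (z 1 - z 0) (z 2 - z 0) =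
      cr (z 0 - p) (z 1 - p) + cr (z 1 - p) (z 2 - p) - cr (z 0 - p) (z 2 - p) := by
    simp only [cr, Prod.fst_sub, Prod.snd_sub]; ring
  linarith

theorem cyc30 (a b p : ℝ × ℝ) : cr (b - a) (p - a) = cr (a - p) (b - p) := by
  simp only [cr, Prod.fst_sub, Prod.snd_sub]; ring

theorem cvx_le30 (w : ℝ × ℝ) (c : ℝ) : Convex ℝ {x : ℝ × ℝ | dt w x ≤ c} := by
  intro x hx y hy s t hs ht hst
  have hx' : dt w x ≤ c := hx
  have hy' : dt w y ≤ c := hy
  show dt w (s • x + t • y) ≤ c
  have e : dt w (s • x + t • y) = s * dt w x + t * dt w y := by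
    simp only [dt, Prod.fst_add, Prod.snd_add, Prod.smul_fst, Prod.smul_snd, smul_eq_mul]; ring
  rw [e]
  have h1 := mul_le_mul_of_nonneg_left hx' hs
  have h2 := mul_le_mul_of_nonneg_left hy' ht
  have h3 : s * c + t * c = c := by rw [← add_mul, hst, one_mul]
  linarith

/-- A point of the hull lies on the closed right side of a line if all points of the set do. -/
theorem right30 {F : Set (ℝ × ℝ)} {u a p : ℝ × ℝ} (h : ∀ q ∈ F, cr u (q - a) ≤ 0)
    (hp : p ∈ convexHull ℝ F) : cr u (p - a) ≤ 0 := by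
  have key : ∀ q, cr u (q - a) ≤ 0 ↔ dt (rot79 u) q ≤ dt (rot79 u) a := by
    intro q
    rw [← dt_rot79]
    simp only [dt, rot79, Prod.fst_sub, Prod.snd_sub]
    constructor <;> intro h <;> linarith
  have h1 : convexHull ℝ F ⊆ {x | dt (rot79 u) x ≤ dt (rot79 u) a} :=
    convexHull_min (fun q hq => (key q).mp (h q hq)) (cvx_le30 _ _)
  exact (key p).mpr (h1 hp)

/-- All corners are on the right side of the edge from z i to the next corner. -/
theorem edge30 {v : ℕ} {z : ℕ → ℝ × ℝ}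
    (hcw : ∀ i j k, i < j → j < k → k ≤ v → cr (z j - z i) (z k - z i) < 0) {i j : ℕ}
    (hi : i ≤ v) (hj : j ≤ v) : cr (z (nx30 v i) - z i) (z j - z i) ≤ 0 := by
  have zz : ∀ x : ℝ × ℝ, cr x x = 0 := by intro x; simp only [cr]; ring
  by_cases hiv : i = v
  · have n1 : nx30 v i = 0 := by unfold nx30; rw [if_pos hiv]
    rw [n1, hiv]
    rcases Nat.eq_zero_or_pos j with h | h
    · subst h
      exact (zz _).le
    · rcases Nat.lt_or_ge j v with h1 | h1
      · have := hcw 0 j v h h1 le_rfl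
        have e : cr (z 0 - z v) (z j - z v) = cr (z j - z 0) (z v - z 0) := by
          simp only [cr, Prod.fst_sub, Prod.snd_sub]; ring
        rw [e]
        exact this.le
      · have : j = v := by omega
        subst this
        simp [cr]
  · have n1 : nx30 v i = i + 1 := by unfold nx30; rw [if_neg hiv]
    rw [n1]
    rcases lt_trichotomy j i with h | h | h
    · rw [cyc30]
      exact (hcw j i (i + 1) h (by omega) (by omega)).le
    · subst h
      simp [cr]
    · rcases Nat.lt_or_ge (i + 1) j with h1 | h1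
      · exact (hcw i (i + 1) j (by omega) h1 hj).le
      · have : j = i + 1 := by omega
        subst this
        exact (zz _).le

/-- A point of the polygon is in no exterior wedge. -/
theorem ew_out30 {P : Finset (ℝ × ℝ)} {v : ℕ} {z : ℕ → ℝ × ℝ}
    (hcw : ∀ i j k, i < j → j < k → k ≤ v → cr (z j - z i) (z k - z i) < 0) {p : ℝ × ℝ}
    (hpZ : p ∈ convexHull ℝ {x | ∃ i ≤ v, x = z i}) {i : ℕ} (hi : i ≤ v) :
    p ∉ EW30 P v z i := by
  intro h
  obtain ⟨-, h1, -⟩ := mem_EW30.mp h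
  have h2 : cr (z (nx30 v i) - z i) (p - z i) ≤ 0 := by
    refine right30 ?_ hpZ
    rintro q ⟨j, hj, rfl⟩
    exact edge30 hcw hi hj
  rw [cyc30] at h2
  linarith

/-- The discrepancy of a convex polygon with at least three corners. -/
theorem polygon30 {R P : Finset (ℝ × ℝ)} (hP0 : Dc79 R P = 0) {D : ℤ} {v : ℕ} {z : ℕ → ℝ × ℝ}
    (hv : 2 ≤ v) (hcw : ∀ i j k, i < j → j < k → k ≤ v → cr (z j - z i) (z k - z i) < 0)
    (hW : ∀ i ≤ v, AW30 R P D (z i)) {T : Finset (ℝ × ℝ)}
    (hT : ∀ p, p ∈ T ↔ p ∈ P ∧ p ∈ convexHull ℝ {x | ∃ i ≤ v, x = z i}) :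
    |Dc79 R T| ≤ (v + 1 : ℕ) * D := by
  classical
  obtain ⟨Z, hZ⟩ : ∃ Z : Finset (ℝ × ℝ), Z = (Finset.range (v + 1)).image z := ⟨_, rfl⟩
  have hZe : (Z : Set (ℝ × ℝ)) = {x | ∃ i ≤ v, x = z i} := by
    ext x
    rw [hZ, Finset.mem_coe, Finset.mem_image]
    constructor
    · rintro ⟨i, hi, rfl⟩
      exact ⟨i, by simpa [Nat.lt_succ_iff] using hi, rfl⟩
    · rintro ⟨i, hi, rfl⟩
      exact ⟨i, by simpa [Nat.lt_succ_iff] using hi, rfl⟩
  have hsep : ∀ p, p ∉ convexHull ℝ {x | ∃ i ≤ v, x = z i} →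
      ∃ e : ℝ × ℝ, ∀ m ≤ v, 0 < dt e (z m - p) := by
    intro p hp
    rw [← hZe] at hp
    obtain ⟨e, he⟩ := sep30 hp
    refine ⟨e, fun m hm => he (z m) ?_⟩
    rw [← Finset.mem_coe, hZe]
    exact ⟨m, hm, rfl⟩
  obtain ⟨U, hU⟩ : ∃ U : ℕ → Finset (ℝ × ℝ), U = fun m =>
      (Finset.range m).biUnion (EW30 P v z) := ⟨_, rfl⟩
  have hUm : ∀ m p, p ∈ U m ↔ ∃ i < m, p ∈ EW30 P v z i := by
    intro m p; rw [hU]; simp only [Finset.mem_biUnion, Finset.mem_range]
  have hout : ∀ i ≤ v, ∀ p, p ∈ EW30 P v z i → p ∉ convexHull ℝ {x | ∃ i ≤ v, x = z i} :=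
    fun i hi p hp h => ew_out30 hcw h hi hp
  have hUb : ∀ m, m ≤ v + 1 → |Dc79 R (U m)| ≤ (m : ℤ) * D := by
    intro m
    induction m with
    | zero =>
      intro _
      have : U 0 = ∅ := by rw [hU]; simp
      rw [this]
      simp [Dc79]
    | succ m ih =>
      intro hm
      have h1 := ih (by omega)
      have hus : U (m + 1) = U m ∪ EW30 P v z m := by
        ext p
        rw [Finset.mem_union, hUm, hUm]
        constructor
        · rintro ⟨i, i2, i3⟩
          by_cases h : i = m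
          · rw [h] at i3
            exact Or.inr i3
          · exact Or.inl ⟨i, by omega, i3⟩
        · rintro (⟨i, i2, i3⟩ | h)
          · exact ⟨i, by omega, i3⟩
          · exact ⟨m, by omega, h⟩
      have hd : Disjoint (U m) (EW30 P v z m) := by
        rw [Finset.disjoint_left]
        intro p hp1 hp2
        obtain ⟨i, i2, i3⟩ := (hUm m p).mp hp1
        obtain ⟨e, he⟩ := hsep p (hout m (by omega) p hp2)
        exact ew_disj30 hcw he i2 (by omega) i3 hp2
      rw [hus, Dc79_disj hd]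
      have h3 : |Dc79 R (EW30 P v z m)| ≤ D := (hW m (by omega)).half _ _
      have h4 := abs_add_le (Dc79 R (U m)) (Dc79 R (EW30 P v z m))
      push_cast
      linarith
  have hPe : P = T ∪ U (v + 1) := by
    ext p
    rw [Finset.mem_union, hUm, hT]
    constructor
    · intro hp
      by_cases h : p ∈ convexHull ℝ {x | ∃ i ≤ v, x = z i}
      · exact Or.inl ⟨hp, h⟩
      · obtain ⟨e, he⟩ := hsep p h
        obtain ⟨i, hi, hi'⟩ := ew_cover30 hv hcw he hp
        exact Or.inr ⟨i, by omega, hi'⟩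
    · rintro (⟨hp, -⟩ | ⟨i, -, hi⟩)
      · exact hp
      · exact (mem_EW30.mp hi).1
  have hTU : Disjoint T (U (v + 1)) := by
    rw [Finset.disjoint_left]
    intro p hp1 hp2
    obtain ⟨i, i2, i3⟩ := (hUm (v + 1) p).mp hp2
    exact hout i (by omega) p i3 ((hT p).mp hp1).2
  have e1 : Dc79 R P = Dc79 R T + Dc79 R (U (v + 1)) := by
    conv_lhs => rw [hPe]
    exact Dc79_disj hTU
  have e2 : Dc79 R T = -Dc79 R (U (v + 1)) := by linarith
  rw [e2, abs_neg]
  exact hUb (v + 1) le_rfl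

end Pool.Agent.AltAll
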