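import Mathlib

/-!
The window count: a line changes side at most twice along the chain, so it crosses at most two
disjoint windows; hence some window has few crossing pairs and a thin double cone.
-/

set_option autoImplicit false

open Finset

namespace Pool.Agent.AltAll12

/-- If `f` has no four indices with alternating strict signs, then `f` changes sign in at most two of
the disjoint windows `[s a, t a]`. -/
theorem two_windows {W v : ℕ} {s t : ℕ → ℕ} (hst : ∀ a b, a < b → b < W → t a < s b)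
    (htv : ∀ a, a < W → t a ≤ v) (f : ℕ → ℝ)
    (h4 : ∀ i j k l, i < j → j < k → k < l → l ≤ v → ¬ (0 < f i ∧ f j < 0 ∧ 0 < f k ∧ f l < 0))
    (h4' : ∀ i j k l, i < j → j < k → k < l → l ≤ v → ¬ (f i < 0 ∧ 0 < f j ∧ f k < 0 ∧ 0 < f l))
    (X : Finset ℕ) (hX : ∀ a ∈ X, a < W ∧ ∃ i j, s a ≤ i ∧ i < j ∧ j ≤ t a ∧ f i * f j < 0) :
    #X ≤ 2 := by
  by_contra hcon
  have hcon := not_le.mp hcon
  obtain ⟨a, ha, b, hb, c, hc, hab, hac, hbc⟩ := Finset.two_lt_card.mp hcon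
  -- sort the three windows
  have main : ∀ a b c : ℕ, a < b → b < c → a ∈ X → b ∈ X → c ∈ X → False := by
    intro a b c hab hbc ha hb hc
    obtain ⟨haW, i1, j1, h11, h12, h13, h14⟩ := hX a ha
    obtain ⟨hbW, i2, j2, h21, h22, h23, h24⟩ := hX b hb
    obtain ⟨hcW, i3, j3, h31, h32, h33, h34⟩ := hX c hc
    have hab' := hst a b hab hbW
    have hbc' := hst b c hbc hcW
    have hcv := htv c hcW
    rcases mul_neg_iff.mp h14 with ⟨p1, q1⟩ | ⟨p1, q1⟩
    · -- f i1 > 0 > f j1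
      obtain ⟨k, hk1, hk2, hk3⟩ : ∃ k, i2 ≤ k ∧ k ≤ j2 ∧ 0 < f k := by
        rcases mul_neg_iff.mp h24 with ⟨p2, q2⟩ | ⟨p2, q2⟩
        · exact ⟨i2, le_rfl, by omega, p2⟩
        · exact ⟨j2, by omega, le_rfl, q2⟩
      obtain ⟨l, hl1, hl2, hl3⟩ : ∃ l, i3 ≤ l ∧ l ≤ j3 ∧ f l < 0 := by
        rcases mul_neg_iff.mp h34 with ⟨p2, q2⟩ | ⟨p2, q2⟩
        · exact ⟨j3, by omega, le_rfl, q2⟩
        · exact ⟨i3, le_rfl, by omega, p2⟩
      exact h4 i1 j1 k l h12 (by omega) (by omega) (by omega) ⟨p1, q1, hk3, hl3⟩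
    · obtain ⟨k, hk1, hk2, hk3⟩ : ∃ k, i2 ≤ k ∧ k ≤ j2 ∧ f k < 0 := by
        rcases mul_neg_iff.mp h24 with ⟨p2, q2⟩ | ⟨p2, q2⟩
        · exact ⟨j2, by omega, le_rfl, q2⟩
        · exact ⟨i2, le_rfl, by omega, p2⟩
      obtain ⟨l, hl1, hl2, hl3⟩ : ∃ l, i3 ≤ l ∧ l ≤ j3 ∧ 0 < f l := by
        rcases mul_neg_iff.mp h34 with ⟨p2, q2⟩ | ⟨p2, q2⟩
        · exact ⟨i3, le_rfl, by omega, p2⟩
        · exact ⟨j3, by omega, le_rfl, q2⟩
      exact h4' i1 j1 k l h12 (by omega) (by omega) (by omega) ⟨p1, q1, hk3, hl3⟩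
  rcases lt_or_gt_of_ne hab with h1 | h1
  · rcases lt_or_gt_of_ne hbc with h2 | h2
    · exact main a b c h1 h2 ha hb hc
    · rcases lt_or_gt_of_ne hac with h3 | h3
      · exact main a c b h3 h2 ha hc hb
      · exact main c a b h3 h1 hc ha hb
  · rcases lt_or_gt_of_ne hac with h3 | h3
    · exact main b a c h1 h3 hb ha hc
    · rcases lt_or_gt_of_ne hbc with h2 | h2
      · exact main b c a h2 h3 hb hc ha
      · exact main c b a h2 h1 hc hb ha

/-- Double counting: every element of `U` is in at most `k` of the sets. -/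
theorem sum_card_le {α : Type*} [DecidableEq α] {W k : ℕ} (S : ℕ → Finset α) (U : Finset α)
    (hS : ∀ a, a < W → S a ⊆ U) (hk : ∀ p ∈ U, #{a ∈ range W | p ∈ S a} ≤ k) :
    ∑ a ∈ range W, #(S a) ≤ k * #U := by
  classical
  have h1 : ∑ a ∈ range W, #(S a) = ∑ a ∈ range W, ∑ p ∈ U, (if p ∈ S a then 1 else 0) := by
    refine Finset.sum_congr rfl fun a ha => ?_
    rw [Finset.sum_boole, Nat.cast_id]
    congr 1
    ext p
    rw [Finset.mem_filter]
    exact ⟨fun h => ⟨hS a (Finset.mem_range.mp ha) h, h⟩, fun h => h.2⟩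
  rw [h1, Finset.sum_comm]
  have h2 : ∀ p ∈ U, ∑ a ∈ range W, (if p ∈ S a then 1 else 0) ≤ k := by
    intro p hp
    rw [Finset.sum_boole, Nat.cast_id]
    exact hk p hp
  calc ∑ p ∈ U, ∑ a ∈ range W, (if p ∈ S a then 1 else 0) ≤ ∑ _p ∈ U, k := Finset.sum_le_sum h2
    _ = k * #U := by rw [Finset.sum_const, smul_eq_mul, mul_comm]

/-- Two averages at once. -/
theorem exists_both {W : ℕ} (hW : 0 < W) (f g : ℕ → ℕ) {A B : ℕ}
    (hf : ∑ a ∈ range W, f a ≤ A) (hg : ∑ a ∈ range W, g a ≤ B) :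
    ∃ a, a < W ∧ W * f a ≤ 2 * A ∧ W * g a ≤ 2 * B := by
  classical
  by_contra hcon
  push Not at hcon
  set X := (range W).filter (fun a => 2 * A < W * f a) with hX
  set Y := (range W).filter (fun a => 2 * B < W * g a) with hY
  have hcov : range W ⊆ X ∪ Y := by
    intro a ha
    rw [Finset.mem_union, hX, hY, Finset.mem_filter, Finset.mem_filter]
    by_cases h : W * f a ≤ 2 * A
    · exact Or.inr ⟨ha, hcon a (Finset.mem_range.mp ha) h⟩
    · exact Or.inl ⟨ha, not_le.mp h⟩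
  have hcard : W ≤ #X + #Y := by
    calc W = #(range W) := (Finset.card_range W).symm
      _ ≤ #(X ∪ Y) := Finset.card_le_card hcov
      _ ≤ #X + #Y := Finset.card_union_le X Y
  have hx : #X * (2 * A + 1) ≤ W * A := by
    calc #X * (2 * A + 1) = ∑ _a ∈ X, (2 * A + 1) := by rw [Finset.sum_const, smul_eq_mul]
      _ ≤ ∑ a ∈ X, W * f a := Finset.sum_le_sum fun a ha => (Finset.mem_filter.mp ha).2
      _ ≤ ∑ a ∈ range W, W * f a :=
          Finset.sum_le_sum_of_subset (Finset.filter_subset _ _)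
      _ = W * ∑ a ∈ range W, f a := by rw [Finset.mul_sum]
      _ ≤ W * A := Nat.mul_le_mul_left _ hf
  have hy : #Y * (2 * B + 1) ≤ W * B := by
    calc #Y * (2 * B + 1) = ∑ _a ∈ Y, (2 * B + 1) := by rw [Finset.sum_const, smul_eq_mul]
      _ ≤ ∑ a ∈ Y, W * g a := Finset.sum_le_sum fun a ha => (Finset.mem_filter.mp ha).2
      _ ≤ ∑ a ∈ range W, W * g a :=
          Finset.sum_le_sum_of_subset (Finset.filter_subset _ _)
      _ = W * ∑ a ∈ range W, g a := by rw [Finset.mul_sum]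
      _ ≤ W * B := Nat.mul_le_mul_left _ hg
  have hx2 : 2 * #X < W ∨ #X = 0 := by
    rcases Nat.eq_zero_or_pos (#X) with h | h
    · exact Or.inr h
    · left
      by_contra hc
      have hc := not_lt.mp hc
      nlinarith
  have hy2 : 2 * #Y < W ∨ #Y = 0 := by
    rcases Nat.eq_zero_or_pos (#Y) with h | h
    · exact Or.inr h
    · left
      by_contra hc
      have hc := not_lt.mp hc
      nlinarith
  have hX' : 2 * #X < W := by
    rcases hx2 with h | h
    · exact h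
    · omega
  have hY' : 2 * #Y < W := by
    rcases hy2 with h | h
    · exact h
    · omega
  omega

/-- **The window count.** `x a m` = number of blues of the `m`-th cell of window `a`; `pr a` = the pairs
(red, blue) of the cells of window `a`; `dc a` = the points of the double cone of window `a`. Every pair and
every point belongs to at most two windows. -/
theorem window_count {α β : Type*} [DecidableEq α] [DecidableEq β] {W M n : ℕ} (hW : 0 < W)
    (x : ℕ → ℕ → ℕ) (pr : ℕ → Finset α) (U : Finset α) (dc : ℕ → Finset β) (P : Finset β)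
    (hU : #U ≤ n ^ 2) (hP : #P ≤ 2 * n)
    (hpr : ∀ a, a < W → pr a ⊆ U) (hdc : ∀ a, a < W → dc a ⊆ P)
    (hx : ∀ a, a < W → ∑ m ∈ range M, x a m ^ 2 ≤ #(pr a))
    (h2 : ∀ p ∈ U, #{a ∈ range W | p ∈ pr a} ≤ 2) (h2' : ∀ p ∈ P, #{a ∈ range W | p ∈ dc a} ≤ 2) :
    ∃ a, a < W ∧ W * (∑ m ∈ range M, x a m) ^ 2 ≤ 4 * M * n ^ 2 ∧ W * #(dc a) ≤ 8 * n := by
  classical
  have h1 := sum_card_le pr U hpr h2
  have h3 := sum_card_le dc P hdc h2'
  obtain ⟨a, ha, hf, hg⟩ := exists_both hW (fun a => #(pr a)) (fun a => #(dc a))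
    (A := 2 * n ^ 2) (B := 2 * (2 * n)) (h1.trans (Nat.mul_le_mul_left _ hU))
    (h3.trans (Nat.mul_le_mul_left _ hP))
  refine ⟨a, ha, ?_, by simpa [mul_assoc] using (show W * #(dc a) ≤ 8 * n by omega)⟩
  have hcs : (∑ m ∈ range M, x a m) ^ 2 ≤ M * ∑ m ∈ range M, x a m ^ 2 := by
    have := sq_sum_le_card_mul_sum_sq (s := range M) (f := fun m => x a m)
    simpa [Finset.card_range] using this
  calc W * (∑ m ∈ range M, x a m) ^ 2 ≤ W * (M * ∑ m ∈ range M, x a m ^ 2) :=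
        Nat.mul_le_mul_left _ hcs
    _ ≤ W * (M * #(pr a)) := Nat.mul_le_mul_left _ (Nat.mul_le_mul_left _ (hx a ha))
    _ = M * (W * #(pr a)) := by ring
    _ ≤ M * (2 * (2 * n ^ 2)) := Nat.mul_le_mul_left _ hf
    _ = 4 * M * n ^ 2 := by ring

end Pool.Agent.AltAll12
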