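import Pool.Agent.AltHP.LemmaS
import Pool.Agent.Helper66.HPD.CutList

/-! Alternating paths: the frame at a point and a hull vertex, for the wedge bound. -/

set_option autoImplicit false

namespace Pool.Agent.AltAll

open Pool.Agent.AltPath Pool.Agent.AltHP Pool.Agent.HPD79

/-- The points of `P` strictly on the positive side of the line through `x` with normal `b`. -/
noncomputable def up34 (P : Finset (ℝ × ℝ)) (x b : ℝ × ℝ) : Finset (ℝ × ℝ) :=
  P.filter (fun p => 0 < dt b (p - x))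

/-- `b` is a normal of the line `x v`, and `c` is negative in the direction from `x` to `v`. -/
structure Frame34 (P : Finset (ℝ × ℝ)) (x v b c : ℝ × ℝ) : Prop where
  hx : x ∈ P
  hv : v ∈ P
  hb : dt b (v - x) = 0
  hb0 : b ≠ 0
  hc : dt c (v - x) < 0

/-- `X` consists of the first points of the side `b` seen from `x`, beginning at the ray `x v`. -/
def Ini34 (P : Finset (ℝ × ℝ)) (x b c : ℝ × ℝ) (X : Finset (ℝ × ℝ)) : Prop :=
  X ⊆ up34 P x b ∧ ∃ t : ℝ, (∀ p ∈ X, dt c (p - x) < t * dt b (p - x)) ∧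
    ∀ q ∈ up34 P x b, q ∉ X → t * dt b (q - x) < dt c (q - x)

/-- `Y` consists of the last points of the side opposite to `b` seen from `v`, beginning at the ray
`v x`. -/
def Far34 (P : Finset (ℝ × ℝ)) (x v b c : ℝ × ℝ) (Y : Finset (ℝ × ℝ)) : Prop :=
  Y ⊆ up34 P x (-b) ∧ ∃ s : ℝ, (∀ p ∈ Y, dt c (p - v) < s * dt b (p - v)) ∧
    ∀ q ∈ up34 P x (-b), q ∉ Y → s * dt b (q - v) < dt c (q - v)

/-- The fold with the corners `x` and `v`, `v` a vertex of the convex hull. -/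
def ZStmt34 : Prop :=
  ∀ (R B : Finset (ℝ × ℝ)) (n G : ℕ) (x v b c : ℝ × ℝ) (X Y : Finset (ℝ × ℝ)), Disjoint R B →
    GP (R ∪ B) → R.card = n → B.card = n → (∀ k, HasPath R B k → k ≤ n + G) →
    Frame34 (R ∪ B) x v b c → (∃ h : ℝ × ℝ, ∀ p ∈ R ∪ B, p ≠ v → dt h (p - v) < 0) →
    Ini34 (R ∪ B) x b c X → Far34 (R ∪ B) x v b c Y → X.card + Y.card = n →
    (R ∩ Y).card + 1 ≤ (B ∩ (up34 (R ∪ B) x (-b) \ Y)).card →
    2 * ((R ∩ X).card + (R ∩ Y).card) ≤ n + G + 6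

/-- The bent fold at `x` with about `n` points on both sides. -/
def BentStmt34 : Prop :=
  ∀ (R B : Finset (ℝ × ℝ)) (n G : ℕ) (x v b c : ℝ × ℝ) (X X' : Finset (ℝ × ℝ)), Disjoint R B →
    GP (R ∪ B) → R.card = n → B.card = n → (∀ k, HasPath R B k → k ≤ n + G) →
    Frame34 (R ∪ B) x v b c → Ini34 (R ∪ B) x b c X → Ini34 (R ∪ B) x (-b) c X' →
    X.card + X'.card + 1 = n → 2 * ((R ∩ X).card + (R ∩ X').card) ≤ n + G + 6

/-- The wedge bound. -/
def WedgeStmt34 (C : ℕ) : Prop :=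
  ∀ (R B : Finset (ℝ × ℝ)) (n G K : ℕ), Disjoint R B → GP (R ∪ B) → R.card = n → B.card = n →
    (∀ k, HasPath R B k → k ≤ n + G) →
    (∀ H, IsHP79 (R ∪ B) H → |Dc79 R H| ≤ K) →
    ∀ x ∈ R ∪ B, ∀ w₁ w₂ : ℝ × ℝ,
      |Dc79 R ((R ∪ B).filter (fun p => 0 < dt w₁ (p - x) ∧ 0 < dt w₂ (p - x)))| ≤
        C * (G + K + 1)

end Pool.Agent.AltAll
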