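import Pool.Agent.AltAll.Kit34
import Pool.Agent.AltAll.DefsW34
import Pool.Agent.AllS.Cell82

/-! Small geometric facts for the folds with two corners. -/

set_option autoImplicit false

namespace Pool.Agent.AltAll

open Pool.Agent.AltPath Pool.Agent.AltHP Pool.Agent.HPD79 Pool.Agent.HPD66 Pool.Agent.AllS

/-- Binet-Cauchy. -/
theorem bc34 (c b p q : ℝ × ℝ) : dt c p * dt b q - dt c q * dt b p = cr c b * cr p q := by
  simp only [dt, cr]
  ring

theorem cr_ne34 {P : Finset (ℝ × ℝ)} {x v b c : ℝ × ℝ} (hf : Frame34 P x v b c) : cr c b ≠ 0 := by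
  intro h
  have h1 : b.1 ≠ 0 ∨ b.2 ≠ 0 := by
    by_contra hcon
    push Not at hcon
    exact hf.hb0 (Prod.ext hcon.1 hcon.2)
  have hb := hf.hb
  have hc := hf.hc
  simp only [dt, cr] at h hb hc
  rcases h1 with h1 | h1
  · have : b.1 * (c.1 * (v - x).1 + c.2 * (v - x).2) = 0 := by
      linear_combination c.1 * hb - (v - x).2 * h
    rcases mul_eq_zero.1 this with h' | h'
    · exact h1 h'
    · linarith
  · have : b.2 * (c.1 * (v - x).1 + c.2 * (v - x).2) = 0 := by
      linear_combination c.2 * hb + (v - x).1 * h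
    rcases mul_eq_zero.1 this with h' | h'
    · exact h1 h'
    · linarith

/-- Two points of a set in general position are not on one line through a third one. -/
theorem inj34 {P : Finset (ℝ × ℝ)} (hgp : GP P) {z p q b c : ℝ × ℝ} (hcb : cr c b ≠ 0)
    (hz : z ∈ P) (hp : p ∈ P) (hq : q ∈ P) (hzp : z ≠ p) (hzq : z ≠ q)
    (hpb : dt b (p - z) ≠ 0) (hqb : dt b (q - z) ≠ 0)
    (h : dt c (p - z) / dt b (p - z) = dt c (q - z) / dt b (q - z)) : p = q := by
  by_contra hpq
  have h1 := hgp z hz p hp q hq hzp hzq hpq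
  rw [div_eq_div_iff hpb hqb] at h
  have h2 := bc34 c b (p - z) (q - z)
  have h3 : cr c b * cr (p - z) (q - z) = 0 := by rw [← h2]; linarith
  exact (mul_ne_zero hcb h1) h3

/-- Thresholds below a given number. -/
theorem thr34 (E : Finset (ℝ × ℝ)) (f : ℝ × ℝ → ℝ) (τ : ℝ)
    (hf : ∀ v ∈ E, ∀ w ∈ E, f v = f w → v = w) (hτ : ∀ v ∈ E, f v < τ) (k : ℕ)
    (hk : k ≤ E.card) : ∃ E₁ ⊆ E, E₁.card = k ∧ ∃ t, t < τ ∧ (∀ v ∈ E₁, f v < t) ∧
      ∀ v ∈ E, v ∉ E₁ → t < f v := by
  obtain ⟨E₁, h1, h2, t₀, h3, h4⟩ := threshold66 E f hf k hk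
  obtain ⟨m, hm⟩ : ∃ m, m = min t₀ τ := ⟨_, rfl⟩
  have h5 : ∀ v ∈ E₁, f v < m := by
    intro v hv
    rw [hm]
    exact lt_min (h3 v hv) (hτ v (h1 hv))
  have h6 : ∃ t, t < m ∧ ∀ v ∈ E₁, f v < t := by
    rcases Finset.eq_empty_or_nonempty E₁ with h | h
    · exact ⟨m - 1, by linarith, fun v hv => by rw [h] at hv; exact absurd hv (Finset.notMem_empty v)⟩
    · obtain ⟨u, hu, hmax⟩ := Finset.exists_max_image E₁ f h
      have := h5 u hu
      exact ⟨(f u + m) / 2, by linarith, fun v hv => by have := hmax v hv; linarith⟩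
  obtain ⟨t, ht, ht'⟩ := h6
  have h7 : m ≤ t₀ := by rw [hm]; exact min_le_left _ _
  have h8 : m ≤ τ := by rw [hm]; exact min_le_right _ _
  refine ⟨E₁, h1, h2, t, by linarith, ht', fun v hv hv' => ?_⟩
  have := h4 v hv hv'
  linarith

theorem mem_up34 {P : Finset (ℝ × ℝ)} {x b p : ℝ × ℝ} :
    p ∈ up34 P x b ↔ p ∈ P ∧ 0 < dt b (p - x) := by
  rw [up34, Finset.mem_filter]

theorem mem_low34 {P : Finset (ℝ × ℝ)} {x b p : ℝ × ℝ} :
    p ∈ up34 P x (-b) ↔ p ∈ P ∧ dt b (p - x) < 0 := by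
  rw [up34, Finset.mem_filter, dt_neg_left]
  constructor
  · rintro ⟨h1, h2⟩
    exact ⟨h1, by linarith⟩
  · rintro ⟨h1, h2⟩
    exact ⟨h1, by linarith⟩

/-- Only `x` and `v` are on the line. -/
theorem axis34 {P : Finset (ℝ × ℝ)} (hgp : GP P) {x v b c : ℝ × ℝ} (hf : Frame34 P x v b c)
    {p : ℝ × ℝ} (hp : p ∈ P) (h : dt b (p - x) = 0) : p = x ∨ p = v := by
  by_contra hcon
  push Not at hcon
  have hxv : x ≠ v := by
    rintro rfl
    have := hf.hc
    rw [dt_self_sub] at this
    exact lt_irrefl _ this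
  refine gp_line hgp hf.hx hf.hv hp hxv hcon.1.symm hcon.2.symm hf.hb0 ?_ ?_
  · have := hf.hb
    rw [dt_sub] at this
    linarith
  · rw [dt_sub] at h
    linarith

theorem frame_ne34 {P : Finset (ℝ × ℝ)} {x v b c : ℝ × ℝ} (hf : Frame34 P x v b c) : x ≠ v := by
  rintro rfl
  have := hf.hc
  rw [dt_self_sub] at this
  exact lt_irrefl _ this

/-- The points of `Q` are counted by the two sides and the two points of the axis. -/
theorem card_frame34 {P : Finset (ℝ × ℝ)} (hgp : GP P) {x v b c : ℝ × ℝ}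
    (hf : Frame34 P x v b c) {Q : Finset (ℝ × ℝ)} (hQ : Q ⊆ P) :
    Q.card = (Q ∩ up34 P x b).card + (Q ∩ up34 P x (-b)).card + (Q ∩ {x, v}).card := by
  classical
  have e1 : (Q ∩ up34 P x b).card + (Q \ up34 P x b).card = Q.card :=
    Finset.card_inter_add_card_sdiff _ _
  have e2 : ((Q \ up34 P x b) ∩ up34 P x (-b)).card + ((Q \ up34 P x b) \ up34 P x (-b)).card =
      (Q \ up34 P x b).card := Finset.card_inter_add_card_sdiff _ _
  have hu : ∀ p, p ∈ up34 P x b ↔ p ∈ P ∧ 0 < dt b (p - x) := fun p => mem_up34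
  have hl : ∀ p, p ∈ up34 P x (-b) ↔ p ∈ P ∧ dt b (p - x) < 0 := fun p => mem_low34
  have e3 : (Q \ up34 P x b) ∩ up34 P x (-b) = Q ∩ up34 P x (-b) := by
    ext p
    rw [Finset.mem_inter, Finset.mem_sdiff, Finset.mem_inter, hu, hl]
    constructor
    · rintro ⟨⟨h1, -⟩, h2⟩
      exact ⟨h1, h2⟩
    · rintro ⟨h1, h2⟩
      refine ⟨⟨h1, ?_⟩, h2⟩
      rintro ⟨-, h3⟩
      linarith [h2.2]
  have e4 : (Q \ up34 P x b) \ up34 P x (-b) = Q ∩ {x, v} := by
    ext p
    rw [Finset.mem_sdiff, Finset.mem_sdiff, Finset.mem_inter, hu, hl, Finset.mem_insert,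
      Finset.mem_singleton]
    constructor
    · rintro ⟨⟨h1, h2⟩, h3⟩
      refine ⟨h1, axis34 hgp hf (hQ h1) ?_⟩
      have a1 : ¬ 0 < dt b (p - x) := fun h => h2 ⟨hQ h1, h⟩
      have a2 : ¬ dt b (p - x) < 0 := fun h => h3 ⟨hQ h1, h⟩
      linarith
    · rintro ⟨h1, h2⟩
      have h4 : dt b (p - x) = 0 := by
        rcases h2 with rfl | rfl
        · exact dt_self_sub _ _
        · exact hf.hb
      refine ⟨⟨h1, ?_⟩, ?_⟩
      · rintro ⟨-, h3⟩
        linarith
      · rintro ⟨-, h3⟩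
        linarith
  rw [e3, e4] at e2
  omega

/-- All points above the axis are above a line through the hull vertex `v` which has a point of the
lower side below it and `x` above it. -/
theorem hull34 {x v b w h p q : ℝ × ℝ} (hbw : cr b w ≠ 0) (hbx : dt b (x - v) = 0)
    (hwx : 0 < dt w (x - v)) (hhx : dt h (x - v) < 0) (hhp : dt h (p - v) < 0)
    (hhq : dt h (q - v) < 0) (hbq : dt b (q - v) < 0) (hwq : dt w (q - v) < 0)
    (hbp : 0 < dt b (p - v)) : 0 < dt w (p - v) := by
  by_contra hcon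
  push Not at hcon
  obtain ⟨al, hal⟩ : ∃ al, al = cr h w / cr b w := ⟨_, rfl⟩
  obtain ⟨ga, hga⟩ : ∃ ga, ga = cr b h / cr b w := ⟨_, rfl⟩
  have key : ∀ y, dt h y = al * dt b y + ga * dt w y := by
    intro y
    rw [hal, hga]
    field_simp
    simp only [dt, cr]
    ring
  rw [key] at hhx hhp hhq
  rw [hbx] at hhx
  have g1 : ga < 0 := by
    by_contra hg
    push Not at hg
    have := mul_nonneg hg hwx.le
    linarith
  have g2 : 0 < ga * dt w (q - v) := mul_pos_of_neg_of_neg g1 hwq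
  have g3 : 0 < al := by
    by_contra hg
    push Not at hg
    have := mul_nonneg_of_nonpos_of_nonpos hg hbq.le
    linarith
  have g4 : 0 ≤ ga * dt w (p - v) := mul_nonneg_of_nonpos_of_nonpos g1.le hcon
  have g5 : 0 < al * dt b (p - v) := mul_pos g3 hbp
  linarith

/-- An arm at `z`: all points are on the positive side of `w`, the red ones on the negative side of
`a`, the blue ones on its positive side. -/
theorem arm34 {R B : Finset (ℝ × ℝ)} (hd : Disjoint R B) (hgp : GP (R ∪ B)) {z w a : ℝ × ℝ}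
    (hz : z ∈ R ∪ B) {R₁ B₁ : Finset (ℝ × ℝ)} (hR : R₁ ⊆ R) (hB : B₁ ⊆ B)
    (hc : R₁.card = B₁.card) (hcr : cr a w ≠ 0) (hwR : ∀ q ∈ R₁, 0 < dt w (q - z))
    (hwB : ∀ q ∈ B₁, 0 < dt w (q - z)) (haR : ∀ q ∈ R₁, dt a (q - z) < 0)
    (haB : ∀ q ∈ B₁, 0 < dt a (q - z)) :
    ∃ l : List (ℝ × ℝ), SPath R B (z :: l) ∧ (∀ q ∈ l, q ∈ R₁ ∪ B₁) ∧
      l.length = 2 * R₁.card := by
  classical
  have hRP : R ⊆ R ∪ B := Finset.subset_union_left
  have hBP : B ⊆ R ∪ B := Finset.subset_union_right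
  have hRB : ∀ q ∈ B, q ∉ R := fun q hq h => Finset.disjoint_left.1 hd h hq
  have hznot : ∀ q ∈ R₁ ∪ B₁, q ≠ z := by
    rintro q hq rfl
    rcases Finset.mem_union.1 hq with h | h
    · have := hwR q h
      rw [dt_self_sub] at this
      exact lt_irrefl _ this
    · have := hwB q h
      rw [dt_self_sub] at this
      exact lt_irrefl _ this
  have hmem : ∀ q ∈ R₁ ∪ B₁, q ∈ R ∪ B := by
    intro q hq
    rcases Finset.mem_union.1 hq with h | h
    · exact hRP (hR h)
    · exact hBP (hB h)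
  by_cases hzR : z ∈ R
  · obtain ⟨l, h1, h2, h3, h4, h5⟩ := fan66 hgp z w (-a) R₁ B₁
      (by
        intro h
        apply hcr
        simp only [cr, Prod.fst_neg, Prod.snd_neg] at h ⊢
        linarith)
      (hR.trans hRP) (hB.trans hBP) hwR hwB
      (fun q hq => by rw [dt_neg_left]; linarith [haR q hq])
      (fun q hq => by rw [dt_neg_left]; linarith [haB q hq]) hc
    have hzl : z ∉ l := fun h => hznot z ((h2 z).1 h) rfl
    refine ⟨l, spath_of_good (b := true) hd hz (by simp [hzR])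
      (fun q hq => hmem q ((h2 q).1 hq)) (List.nodup_cons.2 ⟨hzl, h1⟩) h4 ?_,
      fun q hq => (h2 q).1 hq, by omega⟩
    exact h5 R true (fun q hq => by simp [hR hq]) (fun q hq => by simp [hRB q (hB hq)])
  · obtain ⟨l, h1, h2, h3, h4, h5⟩ := fan66 hgp z w a B₁ R₁ hcr
      (hB.trans hBP) (hR.trans hRP) hwB hwR haB haR hc.symm
    have h2' : ∀ q ∈ l, q ∈ R₁ ∪ B₁ := by
      intro q hq
      rw [Finset.union_comm]
      exact (h2 q).1 hq
    have hzl : z ∉ l := fun h => hznot z (h2' z h) rfl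
    refine ⟨l, spath_of_good (b := false) hd hz (by simp [hzR])
      (fun q hq => hmem q (h2' q hq)) (List.nodup_cons.2 ⟨hzl, h1⟩) h4 ?_, h2', by omega⟩
    exact h5 R false (fun q hq => by simp [hRB q (hB hq)]) (fun q hq => by simp [hR hq])

/-- The colour correction for a connector from `x` to `v`. -/
noncomputable def cor34 (R : Finset (ℝ × ℝ)) (x v : ℝ × ℝ) : ℤ :=
  open Classical in
  (if x ∈ R then 0 else 1) + (if v ∈ R then 0 else 1) - 1

/-- A connector from `x` to `v`: the red points on the positive side of `b`, the blue ones on the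
negative side. -/
theorem conn34 {R B : Finset (ℝ × ℝ)} (hd : Disjoint R B) (hgp : GP (R ∪ B)) {x v b w h : ℝ × ℝ}
    (hx : x ∈ R ∪ B) (hv : v ∈ R ∪ B) (hb0 : b ≠ 0) (hb : dt b (v - x) = 0)
    {R₁ B₁ : Finset (ℝ × ℝ)} (hR : R₁ ⊆ R) (hB : B₁ ⊆ B)
    (hc : (R₁.card : ℤ) = B₁.card + cor34 R x v)
    (hbR : ∀ q ∈ R₁, 0 < dt b (q - x)) (hbB : ∀ q ∈ B₁, dt b (q - x) < 0)
    (hwR : ∀ q ∈ R₁, dt w (q - x) < 0) (hwB : ∀ q ∈ B₁, dt w (q - x) < 0)
    (hwv : dt w (v - x) < 0) (hh : ∀ p ∈ R ∪ B, p ≠ v → dt h (p - v) < 0) :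
    ∃ l : List (ℝ × ℝ), SPath R B (x :: (l ++ [v])) ∧ (∀ q ∈ l, q ∈ R₁ ∪ B₁) ∧
      l.length = R₁.card + B₁.card := by
  classical
  have hRP : R ⊆ R ∪ B := Finset.subset_union_left
  have hBP : B ⊆ R ∪ B := Finset.subset_union_right
  have hRB : ∀ q ∈ B, q ∉ R := fun q hq h => Finset.disjoint_left.1 hd h hq
  have hxv : x ≠ v := by
    rintro rfl
    rw [dt_self_sub] at hwv
    exact lt_irrefl _ hwv
  have hvR : v ∉ R₁ := fun h => by
    have := hbR v h
    rw [hb] at this
    exact lt_irrefl _ this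
  have hvB : v ∉ B₁ := fun h => by
    have := hbB v h
    rw [hb] at this
    exact lt_irrefl _ this
  have hw0 : ∀ q ∈ insert v (R₁ ∪ B₁), dt w (q - x) < 0 := by
    intro q hq
    rcases Finset.mem_insert.1 hq with rfl | hq
    · exact hwv
    · rcases Finset.mem_union.1 hq with h | h
      · exact hwR q h
      · exact hwB q h
  have hmem : ∀ q ∈ insert v (R₁ ∪ B₁), q ∈ R ∪ B := by
    intro q hq
    rcases Finset.mem_insert.1 hq with rfl | hq
    · exact hv
    · rcases Finset.mem_union.1 hq with h | h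
      · exact hRP (hR h)
      · exact hBP (hB h)
  have hw1 : ∀ q ∈ insert v (R₁ ∪ B₁), q ≠ v → 0 < dt (-h) (q - v) := by
    intro q hq hqv
    rw [dt_neg_left]
    linarith [hh q (hmem q hq) hqv]
  have hw1x : 0 < dt (-h) (x - v) := by
    rw [dt_neg_left]
    linarith [hh x hx hxv]
  have hdis : Disjoint R₁ B₁ := Disjoint.mono hR hB hd
  have hnb0 : -b ≠ 0 := neg_ne_zero.2 hb0
  have hnb : dt (-b) (v - x) = 0 := by rw [dt_neg_left, hb, neg_zero]
  -- the final step
  have fin : ∀ (bb : Bool) (X Y : Finset (ℝ × ℝ)), (x ∈ R ↔ bb = true) →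
      X ∪ Y = insert v (R₁ ∪ B₁) → X.card + Y.card = R₁.card + B₁.card + 1 →
      (∀ q ∈ X, (q ∈ R ↔ bb = true)) → (∀ q ∈ Y, (q ∈ R ↔ bb = false)) →
      (∃ l : List (ℝ × ℝ), (l ++ [v]).Nodup ∧ (∀ q, q ∈ l ++ [v] ↔ q ∈ X ∪ Y) ∧
        (l ++ [v]).length = X.card + Y.card ∧ Good x (l ++ [v]) ∧
        ∀ (T : Finset (ℝ × ℝ)) (b : Bool), (∀ q ∈ X, (q ∈ T ↔ b = true)) →
          (∀ q ∈ Y, (q ∈ T ↔ b = false)) → Alt T b (l ++ [v])) →
      ∃ l : List (ℝ × ℝ), SPath R B (x :: (l ++ [v])) ∧ (∀ q ∈ l, q ∈ R₁ ∪ B₁) ∧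
        l.length = R₁.card + B₁.card := by
    rintro bb X Y hxb hXY hcard hX hY ⟨l, h1, h2, h3, h4, h5⟩
    rw [hXY] at h2
    refine ⟨l, ?_, ?_, ?_⟩
    · refine spath_of_good hd hx hxb (fun q hq => hmem q ((h2 q).1 hq)) ?_ h4 (h5 R bb hX hY)
      refine List.nodup_cons.2 ⟨fun hxl => ?_, h1⟩
      have := hw0 x ((h2 x).1 hxl)
      rw [dt_self_sub] at this
      exact lt_irrefl _ this
    · intro q hq
      have h6 := (h2 q).1 (List.mem_append_left _ hq)
      rcases Finset.mem_insert.1 h6 with rfl | h6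
      · exfalso
        rw [List.nodup_append] at h1
        exact h1.2.2 q hq q (by simp) rfl
      · exact h6
    · rw [List.length_append, List.length_singleton] at h3
      omega
  unfold cor34 at hc
  by_cases hxR : x ∈ R <;> by_cases hvR' : v ∈ R
  · -- red, red: v joins the red ones
    rw [if_pos hxR, if_pos hvR'] at hc
    refine fin true (insert v R₁) B₁ (by simp [hxR]) (by rw [Finset.insert_union]) ?_ ?_ ?_ ?_
    · rw [Finset.card_insert_of_notMem hvR]; omega
    · intro q hq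
      rcases Finset.mem_insert.1 hq with rfl | hq
      · simp [hvR']
      · simp [hR hq]
    · intro q hq
      simp [hRB q (hB hq)]
    · refine cell82 (w0 := w) hgp hb0 ?_ (hB.trans hBP) hb ?_ (fun q hq _ => hbB q hq) ?_ ?_ hw1x
        (Or.inr ⟨Finset.mem_insert_self _ _, ?_⟩) ?_
      · exact Finset.insert_subset hv (hR.trans hRP)
      · intro q hq hqv
        exact hbR q (Finset.mem_of_mem_insert_of_ne hq hqv)
      · intro q hq
        rw [Finset.insert_union] at hq
        exact hw0 q hq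
      · intro q hq
        rw [Finset.insert_union] at hq
        exact hw1 q hq
      · rw [Finset.card_insert_of_notMem hvR]; omega
      · rw [Finset.disjoint_insert_left]
        exact ⟨hvB, hdis⟩
  · -- red, blue: v joins the blue ones
    rw [if_pos hxR, if_neg hvR'] at hc
    refine fin true R₁ (insert v B₁) (by simp [hxR]) (by rw [Finset.union_insert]) ?_ ?_ ?_ ?_
    · rw [Finset.card_insert_of_notMem hvB]; omega
    · intro q hq
      simp [hR hq]
    · intro q hq
      rcases Finset.mem_insert.1 hq with rfl | hq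
      · simp [hvR']
      · simp [hRB q (hB hq)]
    · refine cell82 (w0 := w) hgp hb0 (hR.trans hRP) ?_ hb (fun q hq _ => hbR q hq) ?_ ?_ ?_ hw1x
        (Or.inl ⟨Finset.mem_insert_self _ _, ?_⟩) ?_
      · exact Finset.insert_subset hv (hB.trans hBP)
      · intro q hq hqv
        exact hbB q (Finset.mem_of_mem_insert_of_ne hq hqv)
      · intro q hq
        rw [Finset.union_insert] at hq
        exact hw0 q hq
      · intro q hq
        rw [Finset.union_insert] at hq
        exact hw1 q hq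
      · rw [Finset.card_insert_of_notMem hvB]; omega
      · rw [Finset.disjoint_insert_right]
        exact ⟨hvR, hdis⟩
  · -- blue, red
    rw [if_neg hxR, if_pos hvR'] at hc
    refine fin false B₁ (insert v R₁) (by simp [hxR])
      (by rw [Finset.union_insert, Finset.union_comm]) ?_ ?_ ?_ ?_
    · rw [Finset.card_insert_of_notMem hvR]; omega
    · intro q hq
      simp [hRB q (hB hq)]
    · intro q hq
      rcases Finset.mem_insert.1 hq with rfl | hq
      · simp [hvR']
      · simp [hR hq]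
    · refine cell82 (w0 := w) hgp hnb0 (hB.trans hBP) ?_ hnb ?_ ?_ ?_ ?_ hw1x
        (Or.inl ⟨Finset.mem_insert_self _ _, ?_⟩) ?_
      · exact Finset.insert_subset hv (hR.trans hRP)
      · intro q hq _
        rw [dt_neg_left]
        linarith [hbB q hq]
      · intro q hq hqv
        rw [dt_neg_left]
        linarith [hbR q (Finset.mem_of_mem_insert_of_ne hq hqv)]
      · intro q hq
        rw [Finset.union_insert, Finset.union_comm] at hq
        exact hw0 q hq
      · intro q hq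
        rw [Finset.union_insert, Finset.union_comm] at hq
        exact hw1 q hq
      · rw [Finset.card_insert_of_notMem hvR]; omega
      · rw [Finset.disjoint_insert_right]
        exact ⟨hvB, hdis.symm⟩
  · -- blue, blue
    rw [if_neg hxR, if_neg hvR'] at hc
    refine fin false (insert v B₁) R₁ (by simp [hxR])
      (by rw [Finset.insert_union, Finset.union_comm]) ?_ ?_ ?_ ?_
    · rw [Finset.card_insert_of_notMem hvB]; omega
    · intro q hq
      rcases Finset.mem_insert.1 hq with rfl | hq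
      · simp [hvR']
      · simp [hRB q (hB hq)]
    · intro q hq
      simp [hR hq]
    · refine cell82 (w0 := w) hgp hnb0 ?_ (hR.trans hRP) hnb ?_ ?_ ?_ ?_ hw1x
        (Or.inr ⟨Finset.mem_insert_self _ _, ?_⟩) ?_
      · exact Finset.insert_subset hv (hB.trans hBP)
      · intro q hq hqv
        rw [dt_neg_left]
        linarith [hbB q (Finset.mem_of_mem_insert_of_ne hq hqv)]
      · intro q hq _
        rw [dt_neg_left]
        linarith [hbR q hq]
      · intro q hq
        rw [Finset.insert_union, Finset.union_comm B₁] at hq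
        exact hw0 q hq
      · intro q hq
        rw [Finset.insert_union, Finset.union_comm B₁] at hq
        exact hw1 q hq
      · rw [Finset.card_insert_of_notMem hvB]; omega
      · rw [Finset.disjoint_insert_left]
        exact ⟨hvR, hdis.symm⟩

end Pool.Agent.AltAll
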