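import Pool.Agent.AltAll.Iface30
import Pool.Agent.AltAll.LemX12
import Pool.Agent.AltALL.Gm14
import Pool.Agent.AltALL.Fold47

/-! Long alternating paths, all sets: a good window gives a long path. -/

set_option autoImplicit false

namespace Pool.Agent.AltAll

open Pool.Agent.AltPath Pool.Agent.AltHP Pool.Agent.HPD79 Pool.Agent.AltALL Pool.Agent.AltAll12

/-- The reds above l and right of T. -/
noncomputable def At82 (R : Finset (ℝ × ℝ)) (v : ℕ) (z : ℕ → ℝ × ℝ) (i : ℕ) (tau : ℝ × ℝ) :
    Finset (ℝ × ℝ) :=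
  R.filter (fun p => 0 < cr (z v - z i) (p - z i) ∧ 0 < dt tau (p - z i))

/-! ### Plane geometry -/

/-- A vector between two others in the clockwise order. -/
theorem comb82 {a b x t : ℝ × ℝ} (hab : cr a b < 0) (hax : cr a x < 0) (hxb : cr x b < 0)
    (ha : 0 < dt t a) (hb : 0 < dt t b) : 0 < dt t x := by
  have key : cr a b * dt t x = cr x b * dt t a + cr a x * dt t b := by
    simp only [cr, dt]; ring
  by_contra hcon
  have hcon := not_lt.mp hcon
  have h1 : 0 ≤ cr a b * dt t x := mul_nonneg_of_nonpos_of_nonpos hab.le hcon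
  have h2 : cr x b * dt t a < 0 := mul_neg_of_neg_of_pos hxb ha
  have h3 : cr a x * dt t b < 0 := mul_neg_of_neg_of_pos hax hb
  linarith

theorem dtn82 (w x : ℝ × ℝ) : dt (-w) x = -dt w x := by
  simp only [dt, Prod.fst_neg, Prod.snd_neg]; ring

/-- Corners after a are right of a separator through the corner a. -/
theorem right_corner82 {v : ℕ} {z : ℕ → ℝ × ℝ}
    (hcw : ∀ i j k, i < j → j < k → k ≤ v → cr (z j - z i) (z k - z i) < 0) {i a b : ℕ}
    (hia : i < a) (hab : a < b) (hbv : b < v) {w : ℝ × ℝ} (hq : dt w (z i - z a) < 0)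
    (hc : 0 < dt w (z v - z a)) : 0 < dt w (z b - z a) := by
  have h1 := hcw i a b hia hab hbv.le
  have h2 := hcw i a v hia (hab.trans hbv) le_rfl
  have h3 := hcw a b v hab hbv le_rfl
  refine comb82 (a := z a - z i) (b := z v - z a) ?_ ?_ h3 ?_ hc
  · have e : cr (z a - z i) (z v - z a) = cr (z a - z i) (z v - z i) := by
      simp only [cr, Prod.fst_sub, Prod.snd_sub]; ring
    rw [e]; exact h2
  · have e : cr (z a - z i) (z b - z a) = cr (z a - z i) (z b - z i) := by
      simp only [cr, Prod.fst_sub, Prod.snd_sub]; ring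
    rw [e]; exact h1
  · have e : dt w (z a - z i) = -dt w (z i - z a) := by
      simp only [dt, Prod.fst_sub, Prod.snd_sub]; ring
    rw [e]; linarith

/-- Corners before b are left of a separator through the corner b. -/
theorem left_corner82 {v : ℕ} {z : ℕ → ℝ × ℝ}
    (hcw : ∀ i j k, i < j → j < k → k ≤ v → cr (z j - z i) (z k - z i) < 0) {i a b : ℕ}
    (hia : i < a) (hab : a < b) (hbv : b < v) {w : ℝ × ℝ} (hq : dt w (z i - z b) < 0)
    (hc : 0 < dt w (z v - z b)) : dt w (z a - z b) < 0 := by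
  have h1 := hcw i a b hia hab hbv.le
  have h2 := hcw i b v (hia.trans hab) hbv le_rfl
  have h3 := hcw a b v hab hbv le_rfl
  have h := comb82 (a := z i - z b) (b := z b - z v) (x := z a - z b) (t := -w)
    (by
      have e : cr (z i - z b) (z b - z v) = cr (z b - z i) (z v - z i) := by
        simp only [cr, Prod.fst_sub, Prod.snd_sub]; ring
      rw [e]; exact h2)
    (by
      have e : cr (z i - z b) (z a - z b) = cr (z a - z i) (z b - z i) := by
        simp only [cr, Prod.fst_sub, Prod.snd_sub]; ring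
      rw [e]; exact h1)
    (by
      have e : cr (z a - z b) (z b - z v) = cr (z b - z a) (z v - z a) := by
        simp only [cr, Prod.fst_sub, Prod.snd_sub]; ring
      rw [e]; exact h3)
    (by rw [dtn82]; linarith)
    (by
      rw [dtn82]
      have e : dt w (z b - z v) = -dt w (z v - z b) := by
        simp only [dt, Prod.fst_sub, Prod.snd_sub]; ring
      rw [e]; linarith)
  rw [dtn82] at h
  linarith

/-- The chain is above the line l. -/
theorem above82 {v : ℕ} {z : ℕ → ℝ × ℝ}
    (hcw : ∀ i j k, i < j → j < k → k ≤ v → cr (z j - z i) (z k - z i) < 0) {i a : ℕ}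
    (hia : i < a) (hav : a < v) : 0 < cr (z v - z i) (z a - z i) := by
  have h := hcw i a v hia hav le_rfl
  have e : cr (z v - z i) (z a - z i) = -cr (z a - z i) (z v - z i) := by
    simp only [cr, Prod.fst_sub, Prod.snd_sub]; ring
  rw [e]; linarith

/-- All later corners are right of T. -/
theorem tau_corner82 {v : ℕ} {z : ℕ → ℝ × ℝ}
    (hcw : ∀ i j k, i < j → j < k → k ≤ v → cr (z j - z i) (z k - z i) < 0) {i a : ℕ}
    (hia : i < a) (hav : a ≤ v) {w : ℝ × ℝ} (hq : 0 < dt w (z (i + 1) - z i))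
    (hc : 0 < dt w (z v - z i)) : 0 < dt w (z a - z i) := by
  rcases eq_or_lt_of_le (Nat.succ_le_of_lt hia) with h | h
  · have h' : a = i + 1 := h.symm
    rw [h']; exact hq
  rcases eq_or_lt_of_le hav with h' | h'
  · rw [h']; exact hc
  have h1 : i + 1 < a := h
  exact comb82 (hcw i (i + 1) v (Nat.lt_succ_self i) (h1.trans h') le_rfl)
    (hcw i (i + 1) a (Nat.lt_succ_self i) h1 hav) (hcw i a v hia h' le_rfl) hq hc

/-- The complement of the triangle in the form of Lemma X. -/
theorem out82 {R B : Finset (ℝ × ℝ)} {v : ℕ} {z : ℕ → ℝ × ℝ} (hch : Chain30 R B v z) {i a : ℕ}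
    (hi : i ≤ v) (ha : a ≤ v) {x : ℝ × ℝ} (hx : x ∈ R) :
    ¬ (0 < cr (z v - z i) (x - z i) ∧ 0 < cr (z a - z v) (x - z v) ∧
      0 < cr (z i - z a) (x - z a)) := by
  rintro ⟨h1, h2, h3⟩
  apply hch.free i a v hi ha le_rfl x hx
  refine ⟨?_, ?_, ?_⟩
  · have e : cr (z a - z i) (x - z i) = -cr (z i - z a) (x - z a) := by
      simp only [cr, Prod.fst_sub, Prod.snd_sub]; ring
    rw [e]; linarith
  · have e : cr (z v - z a) (x - z a) = -cr (z a - z v) (x - z v) := by
      simp only [cr, Prod.fst_sub, Prod.snd_sub]; ring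
    rw [e]; linarith
  · have e : cr (z i - z v) (x - z v) = -cr (z v - z i) (x - z i) := by
      simp only [cr, Prod.fst_sub, Prod.snd_sub]; ring
    rw [e]; linarith

/-! ### The cells are a partition -/

theorem cells_sum82 {α : Type*} (S : Finset α) (f : ℕ → α → ℝ) (h0 : ∀ p ∈ S, 0 < f 0 p) :
    ∀ M : ℕ, (∀ m < M, ∀ p ∈ S, (∀ j ≤ m, 0 < f j p) → f (m + 1) p ≠ 0) →
      S.card = (∑ m ∈ Finset.range M,
        (S.filter (fun p => (∀ j ≤ m, 0 < f j p) ∧ f (m + 1) p < 0)).card) +
        (S.filter (fun p => ∀ j ≤ M, 0 < f j p)).card := by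
  intro M
  induction M with
  | zero =>
      intro _
      rw [Finset.range_zero, Finset.sum_empty, zero_add]
      congr 1
      ext p
      simp only [Finset.mem_filter]
      constructor
      · intro hp
        refine ⟨hp, fun j hj => ?_⟩
        rw [Nat.le_zero.1 hj]
        exact h0 p hp
      · exact fun hp => hp.1
  | succ M ih =>
      intro hoff
      rw [ih (fun m hm => hoff m (by omega)), Finset.sum_range_succ]
      have hsplit : (S.filter (fun p => ∀ j ≤ M, 0 < f j p)).card =
          (S.filter (fun p => (∀ j ≤ M, 0 < f j p) ∧ f (M + 1) p < 0)).card +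
            (S.filter (fun p => ∀ j ≤ M + 1, 0 < f j p)).card := by
        classical
        rw [← Finset.card_union_of_disjoint]
        · congr 1
          ext p
          simp only [Finset.mem_filter, Finset.mem_union]
          constructor
          · rintro ⟨hp, hj⟩
            rcases lt_trichotomy (f (M + 1) p) 0 with h | h | h
            · exact Or.inl ⟨hp, hj, h⟩
            · exact absurd h (hoff M (by omega) p hp hj)
            · refine Or.inr ⟨hp, fun j hjM => ?_⟩
              rcases Nat.le_succ_iff.1 hjM with h' | h'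
              · exact hj j h'
              · rw [h']; exact h
          · rintro (⟨hp, hj, -⟩ | ⟨hp, hj⟩)
            · exact ⟨hp, hj⟩
            · exact ⟨hp, fun j hjM => hj j (by omega)⟩
        · rw [Finset.disjoint_left]
          intro p hp hp'
          have h1 := (Finset.mem_filter.1 hp).2.2
          have h2 := (Finset.mem_filter.1 hp').2 (M + 1) le_rfl
          linarith
      omega

/-! ### The count -/

/-- The half-plane left of T and the wedge: the first arm is long. -/
theorem arm82 {R B : Finset (ℝ × ℝ)} {n G K D M v : ℕ} {z : ℕ → ℝ × ℝ} {i : ℕ} {tau : ℝ × ℝ}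
    (hBal : Bal30 R B n G) (hHP : HP30 R B K) (hWB : WB30 R B D) (hch : Chain30 R B v z)
    (hi : i < v) (hT : Tl30 R B v z M i tau) :
    n + M ≤ 2 * (At82 R v z i tau).card + D + K +
        (R.filter (fun p => dt tau (p - z i) < 0)).card ∧
      n + M ≤ 2 * (At82 R v z i tau).card + D + K +
        (B.filter (fun p => dt tau (p - z i) < 0)).card := by
  classical
  have hqB : z i ∈ B := hch.mem i hi.le
  have hcB : z v ∈ B := hch.mem v le_rfl
  have hqc : z i ≠ z v := hch.inj i v hi le_rfl
  have hqR : ∀ p ∈ R, p ≠ z i := by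
    intro p hp h
    exact Finset.disjoint_left.1 hBal.dis hp (h ▸ hqB)
  have hcR : ∀ p ∈ R, p ≠ z v := by
    intro p hp h
    exact Finset.disjoint_left.1 hBal.dis hp (h ▸ hcB)
  -- the three parts of R
  have hR3 : n = (R.filter (fun p => dt tau (p - z i) < 0)).card + (At82 R v z i tau).card +
      (R.filter (fun p => cr (z v - z i) (p - z i) < 0 ∧ 0 < dt tau (p - z i))).card := by
    unfold At82
    rw [← Finset.card_union_of_disjoint, ← Finset.card_union_of_disjoint]
    · rw [← hBal.hR]
      congr 1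
      ext p
      simp only [Finset.mem_filter, Finset.mem_union]
      constructor
      · intro hp
        have h1 := hT.off p (Finset.mem_union_left _ hp) (hqR p hp)
        have h2 : cr (z v - z i) (p - z i) ≠ 0 :=
          hBal.gp (z i) (Finset.mem_union_right _ hqB) (z v) (Finset.mem_union_right _ hcB) p
            (Finset.mem_union_left _ hp) hqc (hqR p hp).symm (hcR p hp).symm
        rcases lt_or_gt_of_ne h1 with h | h
        · exact Or.inl (Or.inl ⟨hp, h⟩)
        · rcases lt_or_gt_of_ne h2 with h' | h'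
          · exact Or.inr ⟨hp, h', h⟩
          · exact Or.inl (Or.inr ⟨hp, h', h⟩)
      · rintro ((⟨hp, -⟩ | ⟨hp, -⟩) | ⟨hp, -⟩) <;> exact hp
    · rw [Finset.disjoint_left]
      intro p hp hp'
      have h' := (Finset.mem_filter.1 hp').2
      rcases Finset.mem_union.1 hp with h | h
      · have := (Finset.mem_filter.1 h).2
        linarith [h'.2]
      · have := (Finset.mem_filter.1 h).2
        linarith [h'.1, this.1]
    · rw [Finset.disjoint_left]
      intro p hp hp'
      have h := (Finset.mem_filter.1 hp).2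
      have h' := (Finset.mem_filter.1 hp').2
      linarith [h'.2]
  -- the wedge
  have hw : (R.filter (fun p => cr (z v - z i) (p - z i) < 0 ∧ 0 < dt tau (p - z i))).card ≤
      (Bl30 B v z i tau).card + D := by
    have h := hWB (z i) (Finset.mem_union_right _ hqB) tau
      ((z v - z i).2, -(z v - z i).1)
    have e : ∀ S : Finset (ℝ × ℝ), S.filter (fun p => 0 < dt tau (p - z i) ∧
        0 < dt ((z v - z i).2, -(z v - z i).1) (p - z i)) =
        S.filter (fun p => cr (z v - z i) (p - z i) < 0 ∧ 0 < dt tau (p - z i)) := by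
      intro S
      apply Finset.filter_congr
      intro p _
      have e1 : dt ((z v - z i).2, -(z v - z i).1) (p - z i) = -cr (z v - z i) (p - z i) := by
        simp only [dt, cr]; ring
      rw [e1]
      constructor
      · rintro ⟨h1, h2⟩
        exact ⟨by linarith, h1⟩
      · rintro ⟨h1, h2⟩
        exact ⟨h2, by linarith⟩
    rw [e, e] at h
    have h' := (abs_le.1 h).2
    unfold Bl30
    omega
  -- the half-plane
  have hh : |((R.filter (fun p => dt tau (p - z i) < 0)).card : ℤ) -
      ((B.filter (fun p => dt tau (p - z i) < 0)).card : ℤ)| ≤ K := by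
    have h := hHP ((R ∪ B).filter (fun p => dt tau (p - z i) < 0)) ⟨Finset.filter_subset _ _,
      tau, by
        intro x hx y hy hy'
        have h1 := (Finset.mem_filter.1 hx).2
        have h2 : ¬ dt tau (y - z i) < 0 := fun h => hy' (Finset.mem_filter.2 ⟨hy, h⟩)
        have e : ∀ p, dt tau (p - z i) = dt tau p - dt tau (z i) := by
          intro p
          simp only [dt, Prod.fst_sub, Prod.snd_sub]; ring
        rw [e] at h1 h2
        linarith⟩
    unfold Dc79 at h
    have e1 : (R ∪ B).filter (fun p => dt tau (p - z i) < 0) ∩ R =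
        R.filter (fun p => dt tau (p - z i) < 0) := by
      ext p
      simp only [Finset.mem_inter, Finset.mem_filter, Finset.mem_union]
      tauto
    have e2 : (R ∪ B).filter (fun p => dt tau (p - z i) < 0) \ R =
        B.filter (fun p => dt tau (p - z i) < 0) := by
      ext p
      simp only [Finset.mem_sdiff, Finset.mem_filter, Finset.mem_union]
      constructor
      · rintro ⟨⟨h1 | h1, h2⟩, h3⟩
        · exact absurd h1 h3
        · exact ⟨h1, h2⟩
      · rintro ⟨h1, h2⟩
        exact ⟨⟨Or.inr h1, h2⟩, fun h3 => Finset.disjoint_left.1 hBal.dis h3 h1⟩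
    rw [e1, e2] at h
    exact h
  have hnum : (At82 R v z i tau).card = (Bl30 B v z i tau).card + M := hT.num
  have h1 := (abs_le.1 hh).1
  have h2 := (abs_le.1 hh).2
  constructor
  · omega
  · omega

/-- **A good window gives a long path**: the separators through the corners 1, ..., M - 1 with one
more red than blues in every cell contradict the bound for the paths. -/
theorem good_window82 {R B : Finset (ℝ × ℝ)} {n G K D M k v : ℕ} {z : ℕ → ℝ × ℝ} {i : ℕ}
    {tau : ℝ × ℝ} (hBal : Bal30 R B n G) (hHP : HP30 R B K) (hWB : WB30 R B D)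
    (hch : Chain30 R B v z) (hM : G + K + D + 4 ≤ M) (hk : 1 ≤ k) (hiv : i + M * k ≤ v)
    (hT : Tl30 R B v z M i tau) (w : ℕ → ℝ × ℝ) (hw0 : w 0 = tau)
    (hwq : ∀ m, 1 ≤ m → m < M → dt (w m) (z i - z (i + m * k)) < 0)
    (hwc : ∀ m, 1 ≤ m → m < M → 0 < dt (w m) (z v - z (i + m * k)))
    (hoff : ∀ m, m + 1 < M → ∀ p ∈ At82 R v z i tau ∪ Bl30 B v z i tau,
      (∀ j ≤ m, 0 < dt (w j) (p - z (i + j * k))) →
        dt (w (m + 1)) (p - z (i + (m + 1) * k)) ≠ 0)
    (hcnt : ∀ m, m + 1 < M →
      ((At82 R v z i tau).filter (fun p => (∀ j ≤ m, 0 < dt (w j) (p - z (i + j * k))) ∧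
        dt (w (m + 1)) (p - z (i + (m + 1) * k)) < 0)).card =
      ((Bl30 B v z i tau).filter (fun p => (∀ j ≤ m, 0 < dt (w j) (p - z (i + j * k))) ∧
        dt (w (m + 1)) (p - z (i + (m + 1) * k)) < 0)).card + 1) : False := by
  classical
  have hcw := hch.cw
  obtain ⟨N, rfl⟩ : ∃ N, M = N + 1 := ⟨M - 1, by omega⟩
  have hN : 1 ≤ N := by omega
  have hcor : ∀ m ≤ N, i + m * k < v := by
    intro m hm
    have h1 : m * k ≤ N * k := Nat.mul_le_mul_right k hm
    have h2 : (N + 1) * k = N * k + k := by ring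
    omega
  have hcor1 : ∀ m, 1 ≤ m → i < i + m * k := by
    intro m hm
    have h1 : 1 * k ≤ m * k := Nat.mul_le_mul_right k hm
    omega
  have hcorlt : ∀ m j, m < j → i + m * k < i + j * k := by
    intro m j hmj
    have h1 : (m + 1) * k ≤ j * k := Nat.mul_le_mul_right k hmj
    have h2 : (m + 1) * k = m * k + k := by ring
    omega
  have hiv' : i < v := by have := hcor 0 (Nat.zero_le _); omega
  have hqB : z i ∈ B := hch.mem i hiv'.le
  have hcB : z v ∈ B := hch.mem v le_rfl
  -- reds and blues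
  have hAR : At82 R v z i tau ⊆ R := Finset.filter_subset _ _
  have hLB : Bl30 B v z i tau ⊆ B := Finset.filter_subset _ _
  have hAup : ∀ p ∈ At82 R v z i tau, 0 < cr (z v - z i) (p - z i) := fun p hp =>
    (Finset.mem_filter.1 hp).2.1
  have hLdn : ∀ p ∈ Bl30 B v z i tau, cr (z v - z i) (p - z i) < 0 := fun p hp =>
    (Finset.mem_filter.1 hp).2.1
  have hAT : ∀ p ∈ At82 R v z i tau, 0 < dt tau (p - z i) := fun p hp =>
    (Finset.mem_filter.1 hp).2.2
  have hLT : ∀ p ∈ Bl30 B v z i tau, 0 < dt tau (p - z i) := fun p hp =>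
    (Finset.mem_filter.1 hp).2.2
  have hnum : (At82 R v z i tau).card = (Bl30 B v z i tau).card + (N + 1) := hT.num
  -- the remaining sets
  obtain ⟨VA, hVA⟩ : ∃ VA, VA = (At82 R v z i tau).filter
      (fun p => ∀ j ≤ N, 0 < dt (w j) (p - z (i + j * k))) := ⟨_, rfl⟩
  obtain ⟨VL, hVL⟩ : ∃ VL, VL = (Bl30 B v z i tau).filter
      (fun p => ∀ j ≤ N, 0 < dt (w j) (p - z (i + j * k))) := ⟨_, rfl⟩
  have hz0 : z (i + 0 * k) = z i := by rw [Nat.zero_mul, Nat.add_zero]
  have hsA := cells_sum82 (At82 R v z i tau) (fun j p => dt (w j) (p - z (i + j * k)))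
    (by intro p hp; show 0 < dt (w 0) (p - z (i + 0 * k)); rw [hw0, hz0]; exact hAT p hp) N
    (fun m hm p hp => hoff m (by omega) p (Finset.mem_union_left _ hp))
  have hsL := cells_sum82 (Bl30 B v z i tau) (fun j p => dt (w j) (p - z (i + j * k)))
    (by intro p hp; show 0 < dt (w 0) (p - z (i + 0 * k)); rw [hw0, hz0]; exact hLT p hp) N
    (fun m hm p hp => hoff m (by omega) p (Finset.mem_union_right _ hp))
  rw [← hVA] at hsA
  rw [← hVL] at hsL
  have hsum : (∑ m ∈ Finset.range N, ((At82 R v z i tau).filter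
      (fun p => (∀ j ≤ m, 0 < dt (w j) (p - z (i + j * k))) ∧
        dt (w (m + 1)) (p - z (i + (m + 1) * k)) < 0)).card) =
      (∑ m ∈ Finset.range N, ((Bl30 B v z i tau).filter
      (fun p => (∀ j ≤ m, 0 < dt (w j) (p - z (i + j * k))) ∧
        dt (w (m + 1)) (p - z (i + (m + 1) * k)) < 0)).card) + N := by
    rw [Finset.sum_congr rfl (fun m hm => hcnt m (by have := Finset.mem_range.1 hm; omega)),
      Finset.sum_add_distrib]
    simp
  have hVcard : VA.card = VL.card + 1 := by omega
  -- the last separator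
  have hVAR : VA ⊆ R := by rw [hVA]; exact (Finset.filter_subset _ _).trans hAR
  have hVLB : VL ⊆ B := by rw [hVL]; exact (Finset.filter_subset _ _).trans hLB
  have hVA1 : ∀ p ∈ VA, p ∈ At82 R v z i tau := fun p hp => by
    rw [hVA] at hp; exact (Finset.mem_filter.1 hp).1
  have hVL1 : ∀ p ∈ VL, p ∈ Bl30 B v z i tau := fun p hp => by
    rw [hVL] at hp; exact (Finset.mem_filter.1 hp).1
  have hVA2 : ∀ p ∈ VA, ∀ j ≤ N, 0 < dt (w j) (p - z (i + j * k)) := fun p hp => by
    rw [hVA] at hp; exact (Finset.mem_filter.1 hp).2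
  have hVL2 : ∀ p ∈ VL, ∀ j ≤ N, 0 < dt (w j) (p - z (i + j * k)) := fun p hp => by
    rw [hVL] at hp; exact (Finset.mem_filter.1 hp).2
  obtain ⟨wM, hM1, hM2, -, hM4, hM5⟩ := gm_final (q := z i) (c := z v) (c' := z (i + N * k))
    (A := VA) (L := VL) (fun p hp => hAup p (hVA1 p hp)) (fun p hp => hLdn p (hVL1 p hp))
    (above82 hcw (hcor1 N hN) (hcor N le_rfl))
    (fun h => Finset.disjoint_left.1 hBal.dis (hVAR h) (hch.mem _ (hcor N le_rfl).le))
    (by
      intro p hp s hs hps
      have hmem : ∀ x ∈ insert (z (i + N * k)) (VA ∪ VL), x ∈ R ∪ B ∧ x ≠ z v := by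
        intro x hx
        rcases Finset.mem_insert.1 hx with h | h
        · rw [h]
          exact ⟨Finset.mem_union_right _ (hch.mem _ (hcor N le_rfl).le),
            hch.inj _ _ (hcor N le_rfl) le_rfl⟩
        · rcases Finset.mem_union.1 h with h | h
          · exact ⟨Finset.mem_union_left _ (hVAR h), fun e =>
              Finset.disjoint_left.1 hBal.dis (hVAR h) (e ▸ hcB)⟩
          · refine ⟨Finset.mem_union_right _ (hVLB h), fun e => ?_⟩
            have h1 := hLdn x (hVL1 x h)
            rw [e] at h1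
            have h2 : cr (z v - z i) (z v - z i) = 0 := by simp only [cr]; ring
            rw [h2] at h1
            exact lt_irrefl _ h1
      exact hBal.gp (z v) (Finset.mem_union_right _ hcB) p (hmem p hp).1 s (hmem s hs).1
        (hmem p hp).2.symm (hmem s hs).2.symm hps)
    (by omega)
    (by
      intro p hp h
      apply out82 hch (i := i) (a := i + N * k) hiv'.le (hcor N le_rfl).le (hVAR hp)
      refine ⟨hAup p (hVA1 p hp), h, ?_⟩
      have h1 : dt (w N) (z i - z (i + N * k)) < 0 := hwq N hN (by omega)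
      have h2 : 0 < dt (w N) (z v - z (i + N * k)) := hwc N hN (by omega)
      have h3 : 0 < dt (w N) (p - z (i + N * k)) := hVA2 p hp N le_rfl
      have h4 : 0 < cr (z v - z i) (z (i + N * k) - z i) :=
        above82 hcw (hcor1 N hN) (hcor N le_rfl)
      obtain ⟨-, -, -, key, -⟩ := tri_id (z i) (z v) (z (i + N * k)) p p (w N)
      by_contra hcon
      have hcon := not_lt.mp hcon
      have e1 : 0 < dt (w N) (p - z (i + N * k)) * cr (z v - z i) (z (i + N * k) - z i) :=
        mul_pos h3 h4
      have e2 : cr (z (i + N * k) - z v) (p - z v) * dt (w N) (z i - z (i + N * k)) < 0 :=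
        mul_neg_of_pos_of_neg h h1
      have e3 : cr (z i - z (i + N * k)) (p - z (i + N * k)) * dt (w N) (z v - z (i + N * k)) ≤ 0 :=
        mul_nonpos_of_nonpos_of_nonneg hcon h2.le
      linarith)
  -- all corners and separators
  obtain ⟨cc, hcc⟩ : ∃ cc : ℕ → ℝ × ℝ, cc = fun m => if m ≤ N then z (i + m * k) else z v :=
    ⟨_, rfl⟩
  obtain ⟨W, hW⟩ : ∃ W : ℕ → ℝ × ℝ, W = fun m => if m ≤ N then w m else wM := ⟨_, rfl⟩
  have hcc1 : ∀ m ≤ N, cc m = z (i + m * k) := fun m hm => by rw [hcc]; simp only [hm, if_true]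
  have hcc2 : cc (N + 1) = z v := by
    rw [hcc]; simp only [show ¬ N + 1 ≤ N by omega, if_false]
  have hW1 : ∀ m ≤ N, W m = w m := fun m hm => by rw [hW]; simp only [hm, if_true]
  have hW2 : W (N + 1) = wM := by
    rw [hW]; simp only [show ¬ N + 1 ≤ N by omega, if_false]
  have hcc0 : cc 0 = z i := by rw [hcc1 0 (Nat.zero_le _), hz0]
  have hW0 : W 0 = tau := by rw [hW1 0 (Nat.zero_le _), hw0]
  -- facts of all separators
  have hWq : ∀ m ≤ N, dt (W m) (z i - cc m) ≤ 0 := by
    intro m hm
    rw [hW1 m hm, hcc1 m hm]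
    rcases Nat.eq_zero_or_pos m with h | h
    · rw [h, hz0]; simp [dt]
    · exact (hwq m h (by omega)).le
  have hWc : ∀ m ≤ N, 0 < dt (W m) (z v - cc m) := by
    intro m hm
    rcases Nat.eq_zero_or_pos m with h | h
    · rw [h, hW0, hcc0]; exact hT.last
    · rw [hW1 m hm, hcc1 m hm]
      exact hwc m h (by omega)
  have hWq' : ∀ m ≤ N, dt (W (m + 1)) (z i - cc (m + 1)) < 0 := by
    intro m hm
    rcases eq_or_lt_of_le hm with h | h
    · rw [h, hW2, hcc2]; exact hM1
    · rw [hW1 (m + 1) h, hcc1 (m + 1) h]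
      exact hwq (m + 1) (by omega) (by omega)
  have hWc' : ∀ m ≤ N, 0 ≤ dt (W (m + 1)) (z v - cc (m + 1)) := by
    intro m hm
    rcases eq_or_lt_of_le hm with h | h
    · rw [h, hW2, hcc2]; simp [dt]
    · exact (hWc (m + 1) h).le
  -- the cells
  obtain ⟨Cl, hCl⟩ : ∃ Cl : Finset (ℝ × ℝ) → ℕ → Finset (ℝ × ℝ), Cl = fun S m => S.filter
      (fun p => (∀ j ≤ m, 0 < dt (W j) (p - cc j)) ∧
        (m ≤ N → dt (W (m + 1)) (p - cc (m + 1)) < 0)) := ⟨_, rfl⟩
  have hClmem : ∀ S m p, p ∈ Cl S m ↔ p ∈ S ∧ (∀ j ≤ m, 0 < dt (W j) (p - cc j)) ∧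
      (m ≤ N → dt (W (m + 1)) (p - cc (m + 1)) < 0) := by
    intro S m p
    rw [hCl]
    simp only [Finset.mem_filter]
  have hClN : ∀ S m, m < N → Cl S m = S.filter
      (fun p => (∀ j ≤ m, 0 < dt (w j) (p - z (i + j * k))) ∧
        dt (w (m + 1)) (p - z (i + (m + 1) * k)) < 0) := by
    intro S m hm
    ext p
    rw [hClmem]
    simp only [Finset.mem_filter]
    constructor
    · rintro ⟨h1, h2, h3⟩
      refine ⟨h1, fun j hj => ?_, ?_⟩
      · have := h2 j hj
        rwa [hW1 j (by omega), hcc1 j (by omega)] at this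
      · have := h3 hm.le
        rwa [hW1 (m + 1) hm, hcc1 (m + 1) hm] at this
    · rintro ⟨h1, h2, h3⟩
      refine ⟨h1, fun j hj => ?_, fun _ => ?_⟩
      · rw [hW1 j (by omega), hcc1 j (by omega)]; exact h2 j hj
      · rw [hW1 (m + 1) hm, hcc1 (m + 1) hm]; exact h3
  have hClA : Cl (At82 R v z i tau) N = VA.filter (fun p => dt wM (p - z v) < 0) := by
    ext p
    rw [hClmem, hVA]
    simp only [Finset.mem_filter]
    rw [hW2, hcc2]
    constructor
    · rintro ⟨h1, h2, h3⟩
      refine ⟨⟨h1, fun j hj => ?_⟩, h3 le_rfl⟩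
      have := h2 j hj
      rwa [hW1 j hj, hcc1 j hj] at this
    · rintro ⟨⟨h1, h2⟩, h3⟩
      refine ⟨h1, fun j hj => ?_, fun _ => h3⟩
      rw [hW1 j hj, hcc1 j hj]; exact h2 j hj
  have hClL : Cl (Bl30 B v z i tau) N = VL.filter (fun p => dt wM (p - z v) < 0) := by
    ext p
    rw [hClmem, hVL]
    simp only [Finset.mem_filter]
    rw [hW2, hcc2]
    constructor
    · rintro ⟨h1, h2, h3⟩
      refine ⟨⟨h1, fun j hj => ?_⟩, h3 le_rfl⟩
      have := h2 j hj
      rwa [hW1 j hj, hcc1 j hj] at this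
    · rintro ⟨⟨h1, h2⟩, h3⟩
      refine ⟨h1, fun j hj => ?_, fun _ => h3⟩
      rw [hW1 j hj, hcc1 j hj]; exact h2 j hj
  have hClA' : Cl (At82 R v z i tau) (N + 1) = VA.filter (fun p => 0 < dt wM (p - z v)) := by
    ext p
    rw [hClmem, hVA]
    simp only [Finset.mem_filter]
    constructor
    · rintro ⟨h1, h2, -⟩
      refine ⟨⟨h1, fun j hj => ?_⟩, ?_⟩
      · have := h2 j (by omega)
        rwa [hW1 j hj, hcc1 j hj] at this
      · have := h2 (N + 1) le_rfl
        rwa [hW2, hcc2] at this
    · rintro ⟨⟨h1, h2⟩, h3⟩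
      refine ⟨h1, fun j hj => ?_, fun h => absurd h (by omega)⟩
      rcases Nat.le_succ_iff.1 hj with h | h
      · rw [hW1 j h, hcc1 j h]; exact h2 j h
      · rw [h, hW2, hcc2]; exact h3
  have hClL' : Cl (Bl30 B v z i tau) (N + 1) = VL.filter (fun p => 0 < dt wM (p - z v)) := by
    ext p
    rw [hClmem, hVL]
    simp only [Finset.mem_filter]
    constructor
    · rintro ⟨h1, h2, -⟩
      refine ⟨⟨h1, fun j hj => ?_⟩, ?_⟩
      · have := h2 j (by omega)
        rwa [hW1 j hj, hcc1 j hj] at this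
      · have := h2 (N + 1) le_rfl
        rwa [hW2, hcc2] at this
    · rintro ⟨⟨h1, h2⟩, h3⟩
      refine ⟨h1, fun j hj => ?_, fun h => absurd h (by omega)⟩
      rcases Nat.le_succ_iff.1 hj with h | h
      · rw [hW1 j h, hcc1 j h]; exact h2 j h
      · rw [h, hW2, hcc2]; exact h3
  -- splitting the last remaining sets
  have hsp : ∀ S : Finset (ℝ × ℝ), (∀ p ∈ S, dt wM (p - z v) ≠ 0) →
      S.card = (S.filter (fun p => dt wM (p - z v) < 0)).card +
        (S.filter (fun p => 0 < dt wM (p - z v))).card := by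
    intro S hS
    rw [← Finset.card_union_of_disjoint]
    · congr 1
      ext p
      simp only [Finset.mem_filter, Finset.mem_union]
      constructor
      · intro hp
        rcases lt_or_gt_of_ne (hS p hp) with h | h
        · exact Or.inl ⟨hp, h⟩
        · exact Or.inr ⟨hp, h⟩
      · rintro (⟨hp, -⟩ | ⟨hp, -⟩) <;> exact hp
    · rw [Finset.disjoint_left]
      intro p hp hp'
      have h := (Finset.mem_filter.1 hp).2
      have h' := (Finset.mem_filter.1 hp').2
      linarith
  have hspA := hsp VA (fun p hp => hM4 p (Finset.mem_union_left _ hp))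
  have hspL := hsp VL (fun p hp => hM4 p (Finset.mem_union_right _ hp))
  -- the corners
  have hccB : ∀ m ≤ N + 1, cc m ∈ B := by
    intro m hm
    rcases Nat.le_succ_iff.1 hm with h | h
    · rw [hcc1 m h]; exact hch.mem _ (hcor m h).le
    · rw [h, hcc2]; exact hcB
  have hlin : ∀ m ≤ N, ∀ x ∈ Cl (At82 R v z i tau) m, ∀ y ∈ Cl (Bl30 B v z i tau) m,
      0 < cr (x - y) (cc m - y) := by
    intro m hm x hx y hy
    obtain ⟨x1, x2, x3⟩ := (hClmem _ _ _).1 hx
    obtain ⟨y1, y2, y3⟩ := (hClmem _ _ _).1 hy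
    rcases Nat.eq_zero_or_pos m with h | h
    · rw [h, hcc0]
      exact lemX_first (w := tau) (hAup x x1) (hLdn y y1) hT.last (hAT x x1) (hLT y y1)
    · refine lemX_left (w := W m) (v := W (m + 1)) (c'' := cc (m + 1)) ?_ (hAup x x1)
        (hLdn y y1) (hWq m hm) (hWc m hm) (x2 m le_rfl) (y2 m le_rfl) (hWq' m hm) (hWc' m hm)
        (x3 hm) (y3 hm) ?_
      · rw [hcc1 m hm]
        exact above82 hcw (hcor1 m h) (hcor m hm)
      · rw [hcc1 m hm]
        exact out82 hch hiv'.le (hcor m hm).le (hAR x1)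
  have hrin : ∀ m ≤ N, ∀ x ∈ Cl (At82 R v z i tau) m, ∀ y ∈ Cl (Bl30 B v z i tau) m,
      cr (x - y) (cc (m + 1) - y) < 0 := by
    intro m hm x hx y hy
    obtain ⟨x1, x2, x3⟩ := (hClmem _ _ _).1 hx
    obtain ⟨y1, y2, y3⟩ := (hClmem _ _ _).1 hy
    rcases eq_or_lt_of_le hm with h | h
    · subst h
      rw [hcc2]
      have x4 := x3 hm
      have y4 := y3 hm
      have q4 := hWq' m hm
      rw [hW2, hcc2] at x4 y4 q4
      exact lemX_last (w := W m) (v := wM) (hAup x x1) (hLdn y y1) (hWq m hm) (hWc m hm)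
        (x2 m le_rfl) (y2 m le_rfl) q4 x4 y4
    · refine lemX_right (w := W m) (v := W (m + 1)) (c' := cc m) ?_ (hAup x x1)
        (hLdn y y1) (hWq m hm) (hWc m hm) (x2 m le_rfl) (y2 m le_rfl) (hWq' m hm) (hWc' m hm)
        (x3 hm) (y3 hm) ?_
      · rw [hcc1 (m + 1) h]
        exact above82 hcw (hcor1 (m + 1) (by omega)) (hcor (m + 1) h)
      · rw [hcc1 (m + 1) h]
        exact out82 hch hiv'.le (hcor (m + 1) h).le (hAR x1)
  -- the order of the corners
  have hord : ∀ m j, m < j → j ≤ N + 1 → 0 < dt (W m) (cc j - cc m) := by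
    intro m j hmj hj
    rcases Nat.le_succ_iff.1 hj with h | h
    · rcases Nat.eq_zero_or_pos m with h0 | h0
      · rw [h0, hW0, hcc0, hcc1 j h]
        exact tau_corner82 hcw (hcor1 j (by omega)) (hcor j h).le hT.next hT.last
      · rw [hW1 m (by omega), hcc1 m (by omega), hcc1 j h]
        exact right_corner82 hcw (hcor1 m h0) (hcorlt m j hmj) (hcor j h)
          (hwq m h0 (by omega)) (hwc m h0 (by omega))
    · rw [h, hcc2]
      exact hWc m (by omega)
  have hord' : ∀ m < N + 1, dt (W (m + 1)) (cc m - cc (m + 1)) < 0 := by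
    intro m hm
    rcases Nat.lt_succ_iff_lt_or_eq.1 hm with h | h
    · rw [hW1 (m + 1) h, hcc1 m h.le, hcc1 (m + 1) h]
      rcases Nat.eq_zero_or_pos m with h0 | h0
      · subst h0
        rw [hz0]
        exact hwq (0 + 1) (by omega) (by omega)
      · exact left_corner82 hcw (hcor1 m h0) (hcorlt m (m + 1) (by omega)) (hcor (m + 1) h)
          (hwq (m + 1) (by omega) (by omega)) (hwc (m + 1) (by omega) (by omega))
    · subst h
      rw [hW2, hcc2, hcc1 m le_rfl]
      exact hM2
  -- the first arm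
  obtain ⟨ha1, ha2⟩ := arm82 hBal hHP hWB hch hiv' hT
  have hpath := fold_pathX hBal.dis hBal.gp (N + 1) cc W (Cl (At82 R v z i tau))
    (Cl (Bl30 B v z i tau)) hccB
    (fun m _ x hx => hAR ((hClmem _ _ _).1 hx).1) (fun m _ x hx => hLB ((hClmem _ _ _).1 hx).1)
    (by
      intro m hm
      rcases Nat.lt_succ_iff_lt_or_eq.1 hm with h | h
      · rw [hClN _ m h, hClN _ m h]
        exact hcnt m (by omega)
      · subst h
        rw [hClA, hClL]
        exact hM5)
    (by rw [hClA', hClL']; omega)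
    (by
      intro m _ x hx
      rw [hcc2, hcc0]
      exact hAup x ((hClmem _ _ _).1 hx).1)
    (by
      intro m _ x hx
      rw [hcc2, hcc0]
      exact hLdn x ((hClmem _ _ _).1 hx).1)
    (fun m hm => hlin m (by omega)) (fun m hm => hrin m (by omega))
    (by
      intro m j hmj _ x hx
      rcases Finset.mem_union.1 hx with h | h
      · exact ((hClmem _ _ _).1 h).2.1 m hmj
      · exact ((hClmem _ _ _).1 h).2.1 m hmj)
    hord
    (by
      intro m hm x hx
      rcases Finset.mem_union.1 hx with h | h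
      · exact ((hClmem _ _ _).1 h).2.2 (by omega)
      · exact ((hClmem _ _ _).1 h).2.2 (by omega))
    hord' (R1 := R.filter (fun p => dt tau (p - z i) < 0))
    (B1 := B.filter (fun p => dt tau (p - z i) < 0)) (Finset.filter_subset _ _)
    (Finset.filter_subset _ _)
    (by
      intro x hx
      rw [hW0, hcc0]
      rcases Finset.mem_union.1 hx with h | h
      · exact (Finset.mem_filter.1 h).2
      · exact (Finset.mem_filter.1 h).2)
    (j := min (R.filter (fun p => dt tau (p - z i) < 0)).card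
      (B.filter (fun p => dt tau (p - z i) < 0)).card) (min_le_left _ _) (min_le_right _ _)
  have htot : ∑ m ∈ Finset.range (N + 1 + 1), (Cl (At82 R v z i tau) m).card =
      (At82 R v z i tau).card := by
    rw [Finset.sum_range_succ, Finset.sum_range_succ, hClA, hClA', hsA,
      Finset.sum_congr rfl (fun m hm => by rw [hClN _ m (Finset.mem_range.1 hm)])]
    omega
  rw [htot] at hpath
  have hle := hBal.hG _ hpath
  have hmin : n + (N + 1) ≤ 2 * (At82 R v z i tau).card + D + K +
      min (R.filter (fun p => dt tau (p - z i) < 0)).card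
        (B.filter (fun p => dt tau (p - z i) < 0)).card := by
    rcases min_cases (R.filter (fun p => dt tau (p - z i) < 0)).card
      (B.filter (fun p => dt tau (p - z i) < 0)).card with h | h
    · rw [h.1]; exact ha1
    · rw [h.1]; exact ha2
  omega

end Pool.Agent.AltAll
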