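import Pool.Agent.AltAll.HullCov30
import Pool.Agent.AltAll.Fin30

/-! The convex hull of k points of the set: the discrepancy is at most k (3 D + 4) if the wedges
with apex in the set have discrepancy at most D, and the bound for alternating paths. -/

set_option autoImplicit false

namespace Pool.Agent.AltAll

open Pool.Agent.AltPath Pool.Agent.AltHP Pool.Agent.HPD79 Pool.Agent.AltALL

theorem cr_cyc30 (a b p : ℝ × ℝ) : cr (b - a) (p - a) = cr (a - p) (b - p) := by
  simp only [cr, Prod.fst_sub, Prod.snd_sub]; ring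

theorem cr_rev30 (a b p : ℝ × ℝ) : cr (a - b) (p - b) = -cr (b - a) (p - a) := by
  simp only [cr, Prod.fst_sub, Prod.snd_sub]; ring

theorem convex_le30 (w : ℝ × ℝ) (c : ℝ) : Convex ℝ {x : ℝ × ℝ | dt w x ≤ c} := by
  intro x hx y hy s t hs ht hst
  have hx' : dt w x ≤ c := hx
  have hy' : dt w y ≤ c := hy
  show dt w (s • x + t • y) ≤ c
  have e : dt w (s • x + t • y) = s * dt w x + t * dt w y := by
    simp only [dt, Prod.fst_add, Prod.snd_add, Prod.smul_fst, Prod.smul_snd, smul_eq_mul]; ring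
  rw [e]
  have h1 := mul_le_mul_of_nonneg_left hx' hs
  have h2 := mul_le_mul_of_nonneg_left hy' ht
  have h3 : s * c + t * c = c := by rw [← add_mul, hst, one_mul]
  linarith

/-- A point of the hull lies on the closed right side of a line if all points of the set do. -/
theorem hull_right30 {F : Set (ℝ × ℝ)} {u a p : ℝ × ℝ} (h : ∀ q ∈ F, cr u (q - a) ≤ 0)
    (hp : p ∈ convexHull ℝ F) : cr u (p - a) ≤ 0 := by
  have key : ∀ q, cr u (q - a) ≤ 0 ↔ dt (rot79 u) q ≤ dt (rot79 u) a := by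
    intro q
    rw [← dt_rot79]
    simp only [dt, rot79, Prod.fst_sub, Prod.snd_sub]
    constructor <;> intro h <;> linarith
  have h1 : convexHull ℝ F ⊆ {x | dt (rot79 u) x ≤ dt (rot79 u) a} :=
    convexHull_min (fun q hq => (key q).mp (h q hq)) (convex_le30 _ _)
  exact (key p).mpr (h1 hp)

/-- The vertices are on the right side of the edges. -/
theorem edge_vert30 {v : ℕ} {z : ℕ → ℝ × ℝ}
    (hcw : ∀ i j k, i < j → j < k → k ≤ v → cr (z j - z i) (z k - z i) < 0) {i j : ℕ}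
    (hi : i < v) (hj : j ≤ v) : cr (z (i + 1) - z i) (z j - z i) ≤ 0 := by
  rcases lt_trichotomy j i with h | h | h
  · rw [cr_cyc30]
    exact (hcw j i (i + 1) h (by omega) (by omega)).le
  · subst h
    simp [cr]
  · rcases Nat.lt_or_ge (i + 1) j with h1 | h1
    · exact (hcw i (i + 1) j (by omega) h1 hj).le
    · have : j = i + 1 := by omega
      subst this
      have e : cr (z (i + 1) - z i) (z (i + 1) - z i) = 0 := by simp only [cr]; ring
      exact e.le

/-- The vertices are on the right side of the last edge. -/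
theorem close_vert30 {v : ℕ} {z : ℕ → ℝ × ℝ}
    (hcw : ∀ i j k, i < j → j < k → k ≤ v → cr (z j - z i) (z k - z i) < 0) {j : ℕ}
    (hj : j ≤ v) : cr (z 0 - z v) (z j - z v) ≤ 0 := by
  rcases Nat.eq_zero_or_pos j with h | h
  · subst h
    have e : cr (z 0 - z v) (z 0 - z v) = 0 := by simp only [cr]; ring
    exact e.le
  · rcases Nat.lt_or_ge j v with h1 | h1
    · have := hcw 0 j v h h1 le_rfl
      have e : cr (z 0 - z v) (z j - z v) = cr (z j - z 0) (z v - z 0) := by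
        simp only [cr, Prod.fst_sub, Prod.snd_sub]; ring
      rw [e]
      exact this.le
    · have : j = v := by omega
      subst this
      simp [cr]

/-- The fan covers the points of the hull. -/
theorem fan_cover30 {S F : Finset (ℝ × ℝ)} (hgp : GP S) (hFS : F ⊆ S) {v : ℕ} {z : ℕ → ℝ × ℝ}
    (hv : 1 ≤ v) (hz : ∀ i ≤ v, z i ∈ F) (hinj : ∀ i j, i < j → j ≤ v → z i ≠ z j)
    (hcw : ∀ i j k, i < j → j < k → k ≤ v → cr (z j - z i) (z k - z i) < 0)
    (hcov : ∀ q ∈ F, (∃ i ≤ v, q = z i) ∨ ∃ i, 1 ≤ i ∧ i < v ∧ InTri (z 0) (z i) (z (i + 1)) q)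
    {p : ℝ × ℝ} (hp : p ∈ S) (hpF : p ∈ convexHull ℝ (F : Set (ℝ × ℝ))) :
    (∃ i ≤ v, p = z i) ∨ ∃ i, 1 ≤ i ∧ i < v ∧ InTri (z 0) (z i) (z (i + 1)) p := by
  by_cases hvert : ∃ i ≤ v, p = z i
  · exact Or.inl hvert
  right
  push Not at hvert
  obtain ⟨Z, hZ⟩ : ∃ Z : Set (ℝ × ℝ), Z = {x | ∃ i ≤ v, x = z i} := ⟨_, rfl⟩
  have hzZ : ∀ i ≤ v, z i ∈ Z := fun i hi => by rw [hZ]; exact ⟨i, hi, rfl⟩
  have hFZ : (F : Set (ℝ × ℝ)) ⊆ convexHull ℝ Z := by
    intro q hq
    rcases hcov q (Finset.mem_coe.mp hq) with ⟨i, hi, rfl⟩ | ⟨i, hi1, hi, hT⟩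
    · exact subset_convexHull ℝ Z (hzZ i hi)
    · exact hT.mem_hull (hzZ 0 (Nat.zero_le _)) (hzZ i hi.le) (hzZ (i + 1) hi)
  have hpZ : p ∈ convexHull ℝ Z := convexHull_min hFZ (convex_convexHull ℝ Z) hpF
  have hne : ∀ i j, i ≤ v → j ≤ v → i ≠ j → cr (z j - z i) (p - z i) ≠ 0 := by
    intro i j hi hj hij
    have hzz : z i ≠ z j := by
      rcases lt_or_gt_of_ne hij with h | h
      · exact hinj i j h hj
      · exact (hinj j i h hi).symm
    exact hgp (z i) (hFS (hz i hi)) (z j) (hFS (hz j hj)) p hp hzz (hvert i hi).symm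
      (hvert j hj).symm
  have hedge : ∀ i, i < v → cr (z (i + 1) - z i) (p - z i) < 0 := by
    intro i hi
    refine lt_of_le_of_ne (hull_right30 (F := Z) ?_ hpZ) (hne i (i + 1) hi.le hi (by omega))
    intro q hq
    rw [hZ] at hq
    obtain ⟨j, hj, rfl⟩ := hq
    exact edge_vert30 hcw hi hj
  have hclose : cr (z 0 - z v) (p - z v) < 0 := by
    refine lt_of_le_of_ne (hull_right30 (F := Z) ?_ hpZ) (hne v 0 le_rfl (Nat.zero_le _)
      (by omega))
    intro q hq
    rw [hZ] at hq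
    obtain ⟨j, hj, rfl⟩ := hq
    exact close_vert30 hcw hj
  have hex : ∃ j, 1 ≤ j ∧ 0 < cr (z j - z 0) (p - z 0) := by
    refine ⟨v, hv, ?_⟩
    have e := cr_rev30 (z 0) (z v) p
    rw [e] at hclose
    linarith
  classical
  obtain ⟨j, hj⟩ : ∃ j, j = Nat.find hex := ⟨_, rfl⟩
  have hj1 := Nat.find_spec hex
  rw [← hj] at hj1
  have hjv : j ≤ v := by
    rw [hj]
    apply Nat.find_min'
    refine ⟨hv, ?_⟩
    have e := cr_rev30 (z 0) (z v) p
    rw [e] at hclose
    linarith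
  have hjne : j ≠ 1 := by
    intro h
    have h1 := hedge 0 (by omega)
    rw [h] at hj1
    rw [zero_add] at h1
    linarith [hj1.2]
  obtain ⟨i, rfl⟩ : ∃ i, j = i + 1 := ⟨j - 1, by omega⟩
  have hmin := Nat.find_min hex (m := i) (by omega)
  have hi1 : 1 ≤ i := by omega
  have hneg : cr (z i - z 0) (p - z 0) < 0 := by
    have h1 : ¬ 0 < cr (z i - z 0) (p - z 0) := fun h => hmin ⟨hi1, h⟩
    exact lt_of_le_of_ne (not_lt.mp h1) (hne 0 i (Nat.zero_le _) (by omega) (by omega))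
  refine ⟨i, hi1, by omega, hneg, hedge i (by omega), ?_⟩
  rw [cr_rev30 (z 0) (z (i + 1)) p]
  linarith [hj1.2]

/-- The open triangles of the fan are disjoint. -/
theorem fan_disj30 {v : ℕ} {z : ℕ → ℝ × ℝ}
    (hcw : ∀ i j k, i < j → j < k → k ≤ v → cr (z j - z i) (z k - z i) < 0) {i j : ℕ}
    (hi : 1 ≤ i) (hij : i < j) (hj : j < v) {p : ℝ × ℝ} (h1 : InTri (z 0) (z i) (z (i + 1)) p)
    (h2 : InTri (z 0) (z j) (z (j + 1)) p) : False := by
  obtain ⟨a1, -, a3⟩ := h1
  obtain ⟨b1, -, -⟩ := h2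
  rw [cr_rev30 (z 0) (z (i + 1)) p] at a3
  rcases Nat.lt_or_ge (i + 1) j with h | h
  · have c1 := hcw 0 i (i + 1) (by omega) (by omega) (by omega)
    have c2 := hcw 0 i j (by omega) (by omega) (by omega)
    have c3 := hcw 0 (i + 1) j (by omega) (by omega) (by omega)
    have e : cr (z i - z 0) (z (i + 1) - z 0) * cr (z j - z 0) (p - z 0) =
        cr (z (i + 1) - z 0) (p - z 0) * cr (z i - z 0) (z j - z 0) -
        cr (z i - z 0) (p - z 0) * cr (z (i + 1) - z 0) (z j - z 0) := by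
      simp only [cr, Prod.fst_sub, Prod.snd_sub]; ring
    have m1 := mul_pos_of_neg_of_neg c1 b1
    have m2 : 0 < cr (z (i + 1) - z 0) (p - z 0) := by linarith
    have m3 := mul_neg_of_pos_of_neg m2 c2
    have m4 := mul_pos_of_neg_of_neg a1 c3
    linarith
  · have : j = i + 1 := by omega
    subst this
    linarith

/-- A vertex does not lie in an open triangle of the fan. -/
theorem vert_fan30 {v : ℕ} {z : ℕ → ℝ × ℝ}
    (hcw : ∀ i j k, i < j → j < k → k ≤ v → cr (z j - z i) (z k - z i) < 0) {i j : ℕ}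
    (hi : i < v) (hj : j ≤ v) (h : InTri (z 0) (z i) (z (i + 1)) (z j)) : False := by
  obtain ⟨a1, -, a3⟩ := h
  rw [cr_rev30 (z 0) (z (i + 1)) (z j)] at a3
  rcases Nat.eq_zero_or_pos j with h0 | h0
  · subst h0
    simp [cr] at a1
  rcases lt_trichotomy j i with h1 | h1 | h1
  · have h2 := hcw 0 j i h0 h1 hi.le
    have e : cr (z i - z 0) (z j - z 0) = -cr (z j - z 0) (z i - z 0) := by
      simp only [cr]; ring
    linarith
  · subst h1
    have e : cr (z j - z 0) (z j - z 0) = 0 := by simp only [cr]; ring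
    linarith
  · rcases Nat.lt_or_ge (i + 1) j with h3 | h3
    · have h2 := hcw 0 (i + 1) j (by omega) h3 hj
      linarith
    · have : j = i + 1 := by omega
      subst this
      have e : cr (z (i + 1) - z 0) (z (i + 1) - z 0) = 0 := by simp only [cr]; ring
      linarith

/-- The discrepancy of the convex hull of a subset with at least two points. -/
theorem hull_disc30 {R B : Finset (ℝ × ℝ)} (hdis : Disjoint R B) (hgp : GP (R ∪ B)) {n : ℕ}
    (hR : R.card = n) (hB : B.card = n) {D : ℕ} (hW : Wed79 R B D) {F : Finset (ℝ × ℝ)}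
    (hF : F ⊆ R ∪ B) {T : Finset (ℝ × ℝ)}
    (hT : ∀ p, p ∈ T ↔ p ∈ R ∪ B ∧ p ∈ convexHull ℝ (F : Set (ℝ × ℝ))) :
    |Dc79 R T| ≤ F.card * (3 * D + 4) := by
  classical
  have hD0 : (0 : ℤ) ≤ D := Int.natCast_nonneg D
  rcases Nat.lt_or_ge F.card 2 with h1 | h2
  · -- at most one point
    have hTF : T ⊆ F := by
      intro p hp
      have hp' := ((hT p).mp hp).2
      have hs : ((F : Set (ℝ × ℝ))).Subsingleton := by
        rw [← Finset.card_le_one_iff_subsingleton]
        omega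
      rcases hs.eq_empty_or_singleton with h | ⟨x, h⟩
      · rw [h, convexHull_empty] at hp'
        exact absurd hp' (Set.notMem_empty _)
      · rw [h, convexHull_singleton, ← h] at hp'
        exact Finset.mem_coe.mp hp'
    have h3 := Dc79_abs_le R T
    have h4 : (T.card : ℤ) ≤ F.card := by exact_mod_cast Finset.card_le_card hTF
    have h5 : (F.card : ℤ) * 1 ≤ F.card * (3 * D + 4) :=
      mul_le_mul_of_nonneg_left (by linarith) (Int.natCast_nonneg _)
    linarith
  obtain ⟨v, z, hv, hz, hinj, hcw, hcov⟩ :=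
    chain_cover30 F (fun p hp q hq r hr => hgp p (hF hp) q (hF hq) r (hF hr)) h2
  obtain ⟨Tr, hTr⟩ : ∃ Tr : ℕ → Finset (ℝ × ℝ), Tr = fun i =>
      (R ∪ B).filter (fun p => InTri (z 0) (z i) (z (i + 1)) p) := ⟨_, rfl⟩
  have hTrm : ∀ i p, p ∈ Tr i ↔ p ∈ R ∪ B ∧ InTri (z 0) (z i) (z (i + 1)) p := by
    intro i p; rw [hTr]; exact Finset.mem_filter
  obtain ⟨U, hU⟩ : ∃ U : ℕ → Finset (ℝ × ℝ), U = fun m => (Finset.Ico 1 (m + 1)).biUnion Tr :=
    ⟨_, rfl⟩
  have hUm : ∀ m p, p ∈ U m ↔ ∃ i, (1 ≤ i ∧ i < m + 1) ∧ p ∈ Tr i := by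
    intro m p; rw [hU]; simp only [Finset.mem_biUnion, Finset.mem_Ico]
  have hUb : ∀ m, m < v → |Dc79 R (U m)| ≤ m * (3 * D + 3) := by
    intro m
    induction m with
    | zero =>
      intro _
      have : U 0 = ∅ := by
        rw [hU]
        simp
      rw [this]
      simp [Dc79]
    | succ m ih =>
      intro hm
      have h1 := ih (by omega)
      have hus : U (m + 1) = U m ∪ Tr (m + 1) := by
        ext p
        rw [Finset.mem_union, hUm, hUm]
        constructor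
        · rintro ⟨i, ⟨i1, i2⟩, i3⟩
          by_cases h : i = m + 1
          · rw [h] at i3
            exact Or.inr i3
          · exact Or.inl ⟨i, ⟨i1, by omega⟩, i3⟩
        · rintro (⟨i, ⟨i1, i2⟩, i3⟩ | h)
          · exact ⟨i, ⟨i1, by omega⟩, i3⟩
          · exact ⟨m + 1, ⟨by omega, by omega⟩, h⟩
      have hd : Disjoint (U m) (Tr (m + 1)) := by
        rw [Finset.disjoint_left]
        intro p hp1 hp2
        obtain ⟨i, ⟨i1, i2⟩, i3⟩ := (hUm m p).mp hp1
        exact fan_disj30 hcw i1 (by omega) hm ((hTrm i p).mp i3).2 ((hTrm (m + 1) p).mp hp2).2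
      rw [hus, Dc79_disj hd]
      have h3 := pinwheel79 hdis hgp hR hB hW (hF (hz 0 (Nat.zero_le _)))
        (hF (hz (m + 1) hm.le)) (hF (hz (m + 1 + 1) hm))
        (hcw 0 (m + 1) (m + 1 + 1) (by omega) (by omega) hm) (hTrm (m + 1))
      have h4 := abs_add_le (Dc79 R (U m)) (Dc79 R (Tr (m + 1)))
      push_cast
      linarith
  obtain ⟨V, hV⟩ : ∃ V : Finset (ℝ × ℝ), V = (Finset.range (v + 1)).image z := ⟨_, rfl⟩
  have hVm : ∀ p, p ∈ V ↔ ∃ i ≤ v, p = z i := by
    intro p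
    rw [hV, Finset.mem_image]
    constructor
    · rintro ⟨i, hi, rfl⟩
      exact ⟨i, by simpa [Nat.lt_succ_iff] using hi, rfl⟩
    · rintro ⟨i, hi, rfl⟩
      exact ⟨i, by simp; omega, rfl⟩
  have hVc : V.card ≤ v + 1 := by
    rw [hV]
    exact Finset.card_image_le.trans (by simp)
  have hvF : v + 1 ≤ F.card := by
    have := Finset.card_le_card_of_injOn z (s := Finset.range (v + 1)) (t := F)
      (fun i hi => hz i (by simpa [Nat.lt_succ_iff] using hi))
      (by
        intro i hi j hj hij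
        have hi' : i ≤ v := by simpa [Nat.lt_succ_iff] using hi
        have hj' : j ≤ v := by simpa [Nat.lt_succ_iff] using hj
        rcases lt_trichotomy i j with h | h | h
        · exact absurd hij (hinj i j h hj')
        · exact h
        · exact absurd hij.symm (hinj j i h hi'))
    simpa using this
  have hTe : T = V ∪ U (v - 1) := by
    ext p
    rw [Finset.mem_union, hVm, hUm, hT]
    constructor
    · rintro ⟨hp1, hp2⟩
      rcases fan_cover30 hgp hF hv hz hinj hcw hcov hp1 hp2 with h | ⟨i, i1, i2, i3⟩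
      · exact Or.inl h
      · exact Or.inr ⟨i, ⟨i1, by omega⟩, (hTrm i p).mpr ⟨hp1, i3⟩⟩
    · rintro (⟨i, hi, rfl⟩ | ⟨i, ⟨i1, i2⟩, i3⟩)
      · exact ⟨hF (hz i hi), subset_convexHull ℝ _ (Finset.mem_coe.mpr (hz i hi))⟩
      · obtain ⟨h3, h4⟩ := (hTrm i p).mp i3
        exact ⟨h3, h4.mem_hull (Finset.mem_coe.mpr (hz 0 (Nat.zero_le _)))
          (Finset.mem_coe.mpr (hz i (by omega))) (Finset.mem_coe.mpr (hz (i + 1) (by omega)))⟩
  have hVU : Disjoint V (U (v - 1)) := by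
    rw [Finset.disjoint_left]
    intro p hp1 hp2
    obtain ⟨j, hj, rfl⟩ := (hVm p).mp hp1
    obtain ⟨i, ⟨i1, i2⟩, i3⟩ := (hUm (v - 1) _).mp hp2
    exact vert_fan30 hcw (by omega) hj ((hTrm i _).mp i3).2
  rw [hTe, Dc79_disj hVU]
  have h3 := abs_add_le (Dc79 R V) (Dc79 R (U (v - 1)))
  have h4 := Dc79_abs_le R V
  have h5 := hUb (v - 1) (by omega)
  have h6 : (V.card : ℤ) ≤ F.card := by exact_mod_cast (hVc.trans hvF)
  have h7 : ((v - 1 : ℕ) : ℤ) ≤ F.card := by exact_mod_cast (by omega : v - 1 ≤ F.card)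
  have h8 : ((v - 1 : ℕ) : ℤ) * (3 * D + 3) ≤ F.card * (3 * D + 3) :=
    mul_le_mul_of_nonneg_right h7 (by linarith)
  have h9 : (F.card : ℤ) * (3 * D + 4) = F.card * (3 * D + 3) + F.card := by ring
  linarith

/-- The bound for paths. -/
theorem hulls30 {R B : Finset (ℝ × ℝ)} (hdis : Disjoint R B) (hgp : GP (R ∪ B)) {n : ℕ}
    (hR : R.card = n) (hB : B.card = n) (hn : 1 ≤ n) {F : Finset (ℝ × ℝ)} (hF : F ⊆ R ∪ B)
    {k : ℕ} (hk : F.card ≤ k) (hk1 : 1 ≤ k) {T : Finset (ℝ × ℝ)}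
    (hT : ∀ p, p ∈ T ↔ p ∈ R ∪ B ∧ p ∈ convexHull ℝ (F : Set (ℝ × ℝ))) {ε : ℝ} (hε : 0 < ε)
    (hε1 : ε ≤ 1) (hD : ε * n ≤ |(Dc79 R T : ℝ)|) :
    ∃ m : ℕ, HasPath R B m ∧ (1 + ε / (4620 * k * Real.logb 2 (660 * k / ε))) * n ≤ m := by
  classical
  have hkr : (1 : ℝ) ≤ k := by exact_mod_cast hk1
  have hk0 : (0 : ℝ) < k := by linarith
  have hnr : (0 : ℝ) < n := by exact_mod_cast hn
  have h1 : HasPath R B (n + 1) := hasPath_succ hdis hgp hR hB hn
  obtain ⟨δ, hδ⟩ : ∃ δ : ℝ, δ = ε / (330 * k) := ⟨_, rfl⟩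
  have hδ0 : 0 < δ := by rw [hδ]; positivity
  have hδ1 : δ ≤ 1 := by
    rw [hδ, div_le_one (by positivity)]
    linarith
  by_cases hHP : ∃ H, IsHP79 (R ∪ B) H ∧ δ * n ≤ |(Dc79 R H : ℝ)|
  · obtain ⟨H, hH, hHd⟩ := hHP
    obtain ⟨m, hm, hmn⟩ := real_bound cut hdis hgp hR hB h1 hH hδ0 hδ1 hHd
    refine ⟨m, hm, ?_⟩
    have e1 : 2 / δ = 660 * k / ε := by
      rw [hδ]
      field_simp
      ring
    have e2 : δ / (14 * Real.logb 2 (2 / δ)) =
        ε / (4620 * k * Real.logb 2 (660 * k / ε)) := by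
      rw [e1, hδ, div_div]
      congr 1
      ring
    rw [← e2]
    exact hmn
  · push Not at hHP
    obtain ⟨m, hm, hmax⟩ := exists_longest (R := R) (B := B)
    have hm1 := hmax _ h1
    obtain ⟨G, rfl⟩ : ∃ G, m = n + G := ⟨m - n, by omega⟩
    have hG1 : 1 ≤ G := by omega
    refine ⟨n + G, hm, ?_⟩
    obtain ⟨K, hK⟩ : ∃ K : ℕ, K = ⌊δ * n⌋₊ := ⟨_, rfl⟩
    have hKle : (K : ℝ) ≤ δ * n := by
      rw [hK]; exact Nat.floor_le (by positivity)
    have hKb : ∀ H, IsHP79 (R ∪ B) H → |Dc79 R H| ≤ (K : ℤ) := by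
      intro H hH
      have h2 := (hHP H hH).le
      have h3 : ((Dc79 R H).natAbs : ℝ) ≤ δ * n := by
        rw [Nat.cast_natAbs, Int.cast_abs]
        exact h2
      have h4 : (Dc79 R H).natAbs ≤ K := by
        rw [hK]
        exact Nat.le_floor h3
      rw [Int.abs_eq_natAbs]
      exact_mod_cast h4
    obtain ⟨D, hDd⟩ : ∃ D : ℕ, D = 55 * (G + K + 1) := ⟨_, rfl⟩
    have hW : Wed79 R B D := by
      intro x hx w₁ w₂
      have := wedge34 zfold34 bent34 R B n G K hdis hgp hR hB hmax hKb x hx w₁ w₂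
      rw [hDd]
      push_cast
      exact this
    have h5 := hull_disc30 hdis hgp hR hB hW hF hT
    have h6 : |(Dc79 R T : ℝ)| ≤ F.card * (3 * D + 4) := by
      exact_mod_cast h5
    have h7 : (D : ℝ) = 55 * (G + K + 1) := by rw [hDd]; push_cast; ring
    have h8 : (F.card : ℝ) ≤ k := by exact_mod_cast hk
    have hGr : (1 : ℝ) ≤ G := by exact_mod_cast hG1
    have hK0 : (0 : ℝ) ≤ K := Nat.cast_nonneg K
    have h9 : (F.card : ℝ) * (3 * D + 4) ≤ k * (334 * G + 165 * K) := by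
      have h10 : (3 * (D : ℝ) + 4) ≤ 334 * G + 165 * K := by
        rw [h7]; linarith
      have h11 : (0 : ℝ) ≤ 334 * G + 165 * K := by positivity
      calc (F.card : ℝ) * (3 * D + 4) ≤ F.card * (334 * G + 165 * K) :=
            mul_le_mul_of_nonneg_left h10 (Nat.cast_nonneg _)
        _ ≤ k * (334 * G + 165 * K) := mul_le_mul_of_nonneg_right h8 h11
    have h12 : k * (165 * (K : ℝ)) ≤ ε * n / 2 := by
      have h13 : k * (165 * (K : ℝ)) ≤ k * (165 * (δ * n)) := by
        apply mul_le_mul_of_nonneg_left _ hk0.le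
        linarith
      have h14 : k * (165 * (δ * n)) = ε * n / 2 := by
        rw [hδ]
        field_simp
        ring
      linarith
    have h15 : ε * n ≤ 668 * k * G := by
      have : k * (334 * (G : ℝ) + 165 * K) = 334 * k * G + k * (165 * K) := by ring
      linarith
    have hL : 1 ≤ Real.logb 2 (660 * k / ε) := by
      rw [Real.le_logb_iff_rpow_le (by norm_num) (by positivity), Real.rpow_one,
        le_div_iff₀ hε]
      linarith
    have h16 : ε / (4620 * k * Real.logb 2 (660 * k / ε)) ≤ ε / (668 * k) := by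
      apply div_le_div_of_nonneg_left hε.le (by positivity)
      have : 4620 * (k : ℝ) * 1 ≤ 4620 * k * Real.logb 2 (660 * k / ε) :=
        mul_le_mul_of_nonneg_left hL (by positivity)
      linarith
    have h17 : ε / (668 * k) * n ≤ G := by
      rw [div_mul_eq_mul_div, div_le_iff₀ (by positivity)]
      linarith
    have h18 := mul_le_mul_of_nonneg_right h16 hnr.le
    push_cast
    linarith

end Pool.Agent.AltAll
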