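import Pool.Agent.AltAll.ChainS79

/-! The hull of a small subset: discrepancy of the convex hull of k points of the set. -/

set_option autoImplicit false

namespace Pool.Agent.AltAll

open Pool.Agent.AltPath Pool.Agent.AltHP Pool.Agent.HPD79 Pool.Agent.AltALL

/-- The clockwise chain of the vertices of the convex hull of a finite set in general position: every
point of the set is a vertex or lies in an open triangle of the fan at the first vertex. -/
theorem chain_cover30 (G : Finset (ℝ × ℝ)) (hG : GP G) (h2 : 2 ≤ G.card) :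
    ∃ (v : ℕ) (z : ℕ → ℝ × ℝ), 1 ≤ v ∧ (∀ i ≤ v, z i ∈ G) ∧
      (∀ i j, i < j → j ≤ v → z i ≠ z j) ∧
      (∀ i j k, i < j → j < k → k ≤ v → cr (z j - z i) (z k - z i) < 0) ∧
      ∀ q ∈ G, (∃ i ≤ v, q = z i) ∨ ∃ i, 1 ≤ i ∧ i < v ∧ InTri (z 0) (z i) (z (i + 1)) q := by
  classical
  have hne : G.Nonempty := Finset.card_pos.mp (by omega)
  obtain ⟨p0, hp0, a, ha⟩ := exists_sep G hne
  set S := G.erase p0 with hS
  have hSne : S.Nonempty := by
    rw [← Finset.card_pos, hS, Finset.card_erase_of_mem hp0]; omega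
  have haS : ∀ q ∈ S, 0 < dt a (q - p0) := ha
  have hSG : ∀ q ∈ S, q ∈ G := fun q hq => (Finset.mem_erase.mp hq).2
  have hS0 : ∀ q ∈ S, q ≠ p0 := fun q hq => (Finset.mem_erase.mp hq).1
  have ha0 : a ≠ 0 := by
    rintro rfl
    obtain ⟨q, hq⟩ := hSne
    have := haS q hq
    simp [dt] at this
  have haa : 0 < dt a a := dt_self_pos ha0
  set X : ℝ × ℝ → ℝ := fun q => -(cr a (q - p0) / dt a (q - p0)) with hXd
  set Y : ℝ × ℝ → ℝ := fun q => 1 / dt a (q - p0) with hYd
  -- the two coordinate identities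
  have hXid : ∀ p ∈ S, ∀ q ∈ S, (X q - X p) * (dt a (p - p0) * dt a (q - p0)) =
      -(dt a a * cr (p - p0) (q - p0)) := by
    intro p hp q hq
    have h1 := (haS p hp).ne'
    have h2 := (haS q hq).ne'
    simp only [hXd]
    field_simp
    simp only [dt, cr, Prod.fst_sub, Prod.snd_sub]
    ring
  have hDid : ∀ p ∈ S, ∀ q ∈ S, ∀ r ∈ S,
      dD X Y p q r * (dt a (p - p0) * dt a (q - p0) * dt a (r - p0)) =
      -(dt a a * cr (q - p) (r - p)) := by
    intro p hp q hq r hr
    have h1 := (haS p hp).ne'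
    have h2 := (haS q hq).ne'
    have h3 := (haS r hr).ne'
    simp only [hXd, hYd, dD]
    field_simp
    simp only [dt, cr, Prod.fst_sub, Prod.snd_sub]
    ring
  have hXlt : ∀ p ∈ S, ∀ q ∈ S, (X p < X q ↔ cr (p - p0) (q - p0) < 0) := by
    intro p hp q hq
    have h1 := mul_pos (haS p hp) (haS q hq)
    have h := hXid p hp q hq
    constructor
    · intro hlt
      have h3 := mul_pos (sub_pos.mpr hlt) h1
      rw [h] at h3
      by_contra hcon
      push Not at hcon
      have := mul_nonneg haa.le hcon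
      linarith
    · intro hlt
      have h3 := mul_pos_of_neg_of_neg (neg_neg_of_pos haa) hlt
      by_contra hcon
      push Not at hcon
      have h4 := mul_nonneg (sub_nonneg.mpr hcon) h1.le
      nlinarith
  have hDlt : ∀ p ∈ S, ∀ q ∈ S, ∀ r ∈ S, (0 < dD X Y p q r ↔ cr (q - p) (r - p) < 0) := by
    intro p hp q hq r hr
    have h1 := mul_pos (mul_pos (haS p hp) (haS q hq)) (haS r hr)
    have h := hDid p hp q hq r hr
    constructor
    · intro hlt
      have h3 := mul_pos hlt h1
      rw [h] at h3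
      by_contra hcon
      push Not at hcon
      have := mul_nonneg haa.le hcon
      linarith
    · intro hlt
      have h3 := mul_pos_of_neg_of_neg (neg_neg_of_pos haa) hlt
      by_contra hcon
      push Not at hcon
      have h4 := mul_nonneg (neg_nonneg.mpr hcon) h1.le
      nlinarith
  have hX : ∀ p ∈ S, ∀ q ∈ S, p ≠ q → X p ≠ X q := by
    intro p hp q hq hpq he
    have h := hXid p hp q hq
    rw [he] at h
    have h1 : dt a a * cr (p - p0) (q - p0) = 0 := by linarith
    rcases mul_eq_zero.mp h1 with h2 | h2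
    · exact haa.ne' h2
    · exact hG p0 hp0 p (hSG p hp) q (hSG q hq) (hS0 p hp).symm (hS0 q hq).symm hpq h2
  have hD : ∀ p ∈ S, ∀ q ∈ S, ∀ r ∈ S, p ≠ q → p ≠ r → q ≠ r → dD X Y p q r ≠ 0 := by
    intro p hp q hq r hr hpq hpr hqr he
    have h := hDid p hp q hq r hr
    rw [he] at h
    have h1 : dt a a * cr (q - p) (r - p) = 0 := by linarith
    rcases mul_eq_zero.mp h1 with h2 | h2
    · exact haa.ne' h2
    · exact hG p (hSG p hp) q (hSG q hq) r (hSG r hr) hpq hpr hqr h2
  obtain ⟨r, y, hy, hinc, hcv, hcov⟩ := lower_hull X Y S hX hD hSne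
  have hyne : ∀ i j, i < j → j ≤ r → y i ≠ y j := by
    intro i j hij hj h
    have := hinc i j hij hj
    rw [h] at this
    exact lt_irrefl _ this
  refine ⟨r + 1, fun i => if i = 0 then p0 else y (i - 1), by omega, ?_, ?_, ?_, ?_⟩
  · intro i hi
    by_cases h : i = 0
    · simp only [h, if_true]; exact hp0
    · simp only [h, if_false]; exact hSG _ (hy _ (by omega))
  · intro i j hij hj
    have hj0 : j ≠ 0 := by omega
    by_cases h : i = 0
    · simp only [h, hj0, if_true, if_false]
      exact (hS0 _ (hy _ (by omega))).symm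
    · simp only [h, hj0, if_false]
      exact hyne _ _ (by omega) (by omega)
  · intro i j k hij hjk hk
    have hj0 : j ≠ 0 := by omega
    have hk0 : k ≠ 0 := by omega
    by_cases h : i = 0
    · simp only [h, hj0, hk0, if_true, if_false]
      exact (hXlt _ (hy _ (by omega)) _ (hy _ (by omega))).mp (hinc _ _ (by omega) (by omega))
    · simp only [h, hj0, hk0, if_false]
      exact (hDlt _ (hy _ (by omega)) _ (hy _ (by omega)) _ (hy _ (by omega))).mp
        (hcv _ _ _ (by omega) (by omega) (by omega))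
  · -- the cover
    intro q hqG
    by_cases hq0 : q = p0
    · left
      exact ⟨0, Nat.zero_le _, by simp [hq0]⟩
    have hq : q ∈ S := Finset.mem_erase.mpr ⟨hq0, hqG⟩
    rcases hcov q hq with ⟨i, hi, hqi⟩ | ⟨i, hi, h1, h2', h3⟩
    · left
      refine ⟨i + 1, by omega, ?_⟩
      simp [hqi]
    · right
      refine ⟨i + 1, by omega, by omega, ?_⟩
      have n1 : i + 1 ≠ 0 := by omega
      have n2 : i + 1 + 1 ≠ 0 := by omega
      simp only [n1, n2, if_true, if_false, Nat.add_sub_cancel]
      refine ⟨?_, ?_, ?_⟩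
      · exact (hXlt _ (hy i hi.le) _ hq).mp h1
      · exact (hDlt _ (hy i hi.le) _ (hy (i + 1) hi) _ hq).mp h3
      · have h4 := (hXlt _ hq _ (hy (i + 1) hi)).mp h2'
        have e : cr (p0 - y (i + 1)) (q - y (i + 1)) = cr (q - p0) (y (i + 1) - p0) := by
          simp only [cr, Prod.fst_sub, Prod.snd_sub]; ring
        rw [e]; exact h4

end Pool.Agent.AltAll
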