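import Pool.Agent.AltAll.DefsW34
import Pool.Agent.AltALL.Chain79

/-! Long alternating paths, all sets: the interfaces between the sections. -/

set_option autoImplicit false

namespace Pool.Agent.AltAll

open Pool.Agent.AltPath Pool.Agent.AltHP Pool.Agent.HPD79 Pool.Agent.AltALL

/-- Two disjoint sets of n points in general position without alternating path longer than
n + G. -/
structure Bal30 (R B : Finset (ℝ × ℝ)) (n G : ℕ) : Prop where
  dis : Disjoint R B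
  gp : GP (R ∪ B)
  hR : R.card = n
  hB : B.card = n
  hG : ∀ k, HasPath R B k → k ≤ n + G

/-- All half-planes have discrepancy at most K. -/
def HP30 (R B : Finset (ℝ × ℝ)) (K : ℕ) : Prop :=
  ∀ H, IsHP79 (R ∪ B) H → |Dc79 R H| ≤ K

/-- All wedges with apex in the set have discrepancy at most D. -/
def WB30 (R B : Finset (ℝ × ℝ)) (D : ℕ) : Prop :=
  ∀ x ∈ R ∪ B, ∀ a b : ℝ × ℝ,
    |((R.filter (fun p => 0 < dt a (p - x) ∧ 0 < dt b (p - x))).card : ℤ) -
      ((B.filter (fun p => 0 < dt a (p - x) ∧ 0 < dt b (p - x))).card : ℤ)| ≤ D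

/-- Section 2: a red-free convex set with many blue points. -/
def HoleStmt30 : Prop :=
  ∀ (R B : Finset (ℝ × ℝ)) (n G K : ℕ), Bal30 R B n G → HP30 R B K →
    ∃ F ⊆ B, (∀ r ∈ R, r ∉ convexHull ℝ (F : Set (ℝ × ℝ))) ∧
      n ≤ 2 * (G + K + 2) * (3 * F.card + 1)

/-- A clockwise convex chain of blue points without red points in its triangles. -/
structure Chain30 (R B : Finset (ℝ × ℝ)) (v : ℕ) (z : ℕ → ℝ × ℝ) : Prop where
  mem : ∀ i ≤ v, z i ∈ B
  inj : ∀ i j, i < j → j ≤ v → z i ≠ z j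
  cw : ∀ i j k, i < j → j < k → k ≤ v → cr (z j - z i) (z k - z i) < 0
  free : ∀ i j k, i ≤ v → j ≤ v → k ≤ v → ∀ r ∈ R, ¬ InTri (z i) (z j) (z k) r

/-- Section 3: the chain of the hole. -/
def ChainStmt30 : Prop :=
  ∀ (R B : Finset (ℝ × ℝ)) (n D : ℕ) (F : Finset (ℝ × ℝ)), Disjoint R B → GP (R ∪ B) →
    R.card = n → B.card = n → WB30 R B D → F ⊆ B → (∀ r ∈ R, r ∉ convexHull ℝ (F : Set (ℝ × ℝ))) → 2 ≤ F.card →
    ∃ (v : ℕ) (z : ℕ → ℝ × ℝ), 1 ≤ v ∧ Chain30 R B v z ∧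
      F.card ≤ (v + 1) + (v - 1) * (3 * D + 3)

/-- The condition RG: the sector between the next vertex and the last one has at most M more
red points than the wedge on the other side has blue points. -/
def RG30 (R B : Finset (ℝ × ℝ)) (v : ℕ) (z : ℕ → ℝ × ℝ) (M i : ℕ) : Prop :=
  (R.filter (fun p => 0 < cr (z v - z i) (p - z i) ∧ cr (z (i + 1) - z i) (p - z i) < 0)).card ≤
    (B.filter (fun p => cr (z v - z i) (p - z i) < 0 ∧
      cr (z (i + 1) - z i) (p - z i) < 0)).card + M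

/-- The tuned line T at the vertex i: tau is positive on its right side. -/
structure Tl30 (R B : Finset (ℝ × ℝ)) (v : ℕ) (z : ℕ → ℝ × ℝ) (M i : ℕ) (tau : ℝ × ℝ) : Prop where
  off : ∀ p ∈ R ∪ B, p ≠ z i → dt tau (p - z i) ≠ 0
  next : 0 < dt tau (z (i + 1) - z i)
  last : 0 < dt tau (z v - z i)
  num : (R.filter (fun p => 0 < cr (z v - z i) (p - z i) ∧ 0 < dt tau (p - z i))).card =
    (B.filter (fun p => cr (z v - z i) (p - z i) < 0 ∧ 0 < dt tau (p - z i))).card + M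

/-- The blue points below l and right of T. -/
noncomputable def Bl30 (B : Finset (ℝ × ℝ)) (v : ℕ) (z : ℕ → ℝ × ℝ) (i : ℕ) (tau : ℝ × ℝ) :
    Finset (ℝ × ℝ) :=
  B.filter (fun p => cr (z v - z i) (p - z i) < 0 ∧ 0 < dt tau (p - z i))

/-- Section 5: existence of T from RG. -/
def TStmt30 : Prop :=
  ∀ (R B : Finset (ℝ × ℝ)) (n K D M v : ℕ) (z : ℕ → ℝ × ℝ) (i : ℕ), Disjoint R B → GP (R ∪ B) →
    R.card = n → B.card = n → HP30 R B K → WB30 R B D → Chain30 R B v z → D + 1 ≤ M →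
    i + 2 + K + D + M ≤ v → RG30 R B v z M i →
    ∃ tau, Tl30 R B v z M i tau ∧ v ≤ (Bl30 B v z i tau).card + i + 2 + D + M

/-- The mirror image of the plane. -/
def sw30 (p : ℝ × ℝ) : ℝ × ℝ := (p.2, p.1)

/-- Section 5: RG for the chain or for the mirrored chain. -/
def RLStmt30 : Prop :=
  ∀ (R B : Finset (ℝ × ℝ)) (D M v : ℕ) (z : ℕ → ℝ × ℝ), Disjoint R B → GP (R ∪ B) →
    WB30 R B D → Chain30 R B v z → D + 1 ≤ M → ∀ i, 2 ≤ i → i + 2 ≤ v →
    RG30 R B v z M i ∨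
      RG30 (R.image sw30) (B.image sw30) v (fun j => sw30 (z (v - j))) M (v - i)

/-- The pairs (x, y), x red and y blue, whose line strictly separates two vertices of the window
from i to i + L. -/
noncomputable def Pi30 (R B : Finset (ℝ × ℝ)) (z : ℕ → ℝ × ℝ) (L i : ℕ) :
    Finset ((ℝ × ℝ) × (ℝ × ℝ)) := by
  classical
  exact (R ×ˢ B).filter (fun q => ∃ k k', i ≤ k ∧ k < k' ∧ k' ≤ i + L ∧
    cr (q.2 - q.1) (z k - q.1) * cr (q.2 - q.1) (z k' - q.1) < 0)

/-- The double cone at the last vertex between the lines to the ends of the window. -/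
noncomputable def dw30 (R B : Finset (ℝ × ℝ)) (v : ℕ) (z : ℕ → ℝ × ℝ) (L i : ℕ) :
    Finset (ℝ × ℝ) :=
  (R ∪ B).filter (fun p => cr (z i - z v) (p - z v) * cr (z (i + L) - z v) (p - z v) < 0)

/-- The window lemma (section 4 and the pair count): windows of length (M - 1) k. -/
def WinStmt30 : Prop :=
  ∀ (R B : Finset (ℝ × ℝ)) (n G K D M k v : ℕ) (z : ℕ → ℝ × ℝ) (i : ℕ) (tau : ℝ × ℝ),
    Bal30 R B n G → HP30 R B K → WB30 R B D → Chain30 R B v z → G + K + D + 4 ≤ M → D + 4 ≤ k →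
    i + M * k ≤ v → Tl30 R B v z M i tau →
    (Bl30 B v z i tau).card ≤ (dw30 R B v z ((M - 1) * k) i).card ∨
      ((Bl30 B v z i tau).card - (dw30 R B v z ((M - 1) * k) i).card) ^ 2 ≤
        M * (Pi30 R B z ((M - 1) * k) i).card

/-- The count: disjoint windows. -/
def CountStmt30 : Prop :=
  ∀ (R B : Finset (ℝ × ℝ)) (n L v : ℕ) (z : ℕ → ℝ × ℝ) (I : Finset ℕ), Disjoint R B →
    GP (R ∪ B) → R.card = n → B.card = n → Chain30 R B v z → 1 ≤ L → (∀ i ∈ I, i + L < v) →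
    (∀ i ∈ I, ∀ j ∈ I, i < j → i + L ≤ j) →
    ∑ i ∈ I, (Pi30 R B z L i).card ≤ 2 * n ^ 2 ∧ ∑ i ∈ I, (dw30 R B v z L i).card ≤ 2 * n

/-- All notions are invariant under the mirror image. -/
def ReflStmt30 : Prop :=
  (∀ (R B : Finset (ℝ × ℝ)) (n G : ℕ), Bal30 R B n G →
    Bal30 (R.image sw30) (B.image sw30) n G) ∧
  (∀ (R B : Finset (ℝ × ℝ)) (K : ℕ), HP30 R B K → HP30 (R.image sw30) (B.image sw30) K) ∧
  (∀ (R B : Finset (ℝ × ℝ)) (D : ℕ), WB30 R B D → WB30 (R.image sw30) (B.image sw30) D) ∧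
  ∀ (R B : Finset (ℝ × ℝ)) (v : ℕ) (z : ℕ → ℝ × ℝ), Chain30 R B v z →
    Chain30 (R.image sw30) (B.image sw30) v (fun j => sw30 (z (v - j)))

end Pool.Agent.AltAll
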