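import Pool.Agent.AltHP.Arms

/-! Gluing simple alternating polygonal paths. -/

set_option autoImplicit false

namespace Pool.Agent.AltAll

open Pool.Agent.AltPath Pool.Agent.AltHP

/-- Two segments meet only in common end points. -/
def NC (e f : (ℝ × ℝ) × (ℝ × ℝ)) : Prop :=
  ∀ z, z ∈ segment ℝ e.1 e.2 → z ∈ segment ℝ f.1 f.2 → (z = e.1 ∨ z = e.2) ∧ (z = f.1 ∨ z = f.2)

theorem NC.symm {e f : (ℝ × ℝ) × (ℝ × ℝ)} (h : NC e f) : NC f e := fun z h1 h2 =>
  ⟨(h z h2 h1).2, (h z h2 h1).1⟩

theorem NC.swap {e f : (ℝ × ℝ) × (ℝ × ℝ)} (h : NC e f) : NC e.swap f.swap := by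
  intro z h1 h2
  rw [Prod.fst_swap, Prod.snd_swap, segment_symm] at h1 h2
  obtain ⟨h3, h4⟩ := h z h1 h2
  exact ⟨h3.symm, h4.symm⟩

/-- The edges of a polygonal path. -/
def edges : List (ℝ × ℝ) → List ((ℝ × ℝ) × (ℝ × ℝ))
  | [] => []
  | [_] => []
  | p :: q :: l => (p, q) :: edges (q :: l)

theorem edges_append (z : ℝ × ℝ) (L₂ : List (ℝ × ℝ)) : ∀ L₁ : List (ℝ × ℝ),
    edges (L₁ ++ z :: L₂) = edges (L₁ ++ [z]) ++ edges (z :: L₂)
  | [] => by simp [edges]
  | [p] => by simp [edges]
  | p :: q :: L₁ => by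
    have ih := edges_append z L₂ (q :: L₁)
    simp only [List.cons_append, edges] at ih ⊢
    rw [ih]

theorem mem_edges {e : (ℝ × ℝ) × (ℝ × ℝ)} : ∀ {L : List (ℝ × ℝ)}, e ∈ edges L →
    e.1 ∈ L ∧ e.2 ∈ L
  | [], h => absurd h (by simp [edges])
  | [_], h => absurd h (by simp [edges])
  | p :: q :: l, h => by
    rw [edges, List.mem_cons] at h
    rcases h with rfl | h
    · exact ⟨by simp, by simp⟩
    · have := mem_edges h
      exact ⟨List.mem_cons_of_mem p this.1, List.mem_cons_of_mem p this.2⟩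

theorem edges_length : ∀ L : List (ℝ × ℝ), (edges L).length = L.length - 1
  | [] => rfl
  | [_] => rfl
  | p :: q :: l => by
    rw [edges, List.length_cons, edges_length (q :: l)]
    simp

theorem edges_getElem : ∀ (L : List (ℝ × ℝ)) (i : ℕ) (h : i < (edges L).length)
    (h1 : i < L.length) (h2 : i + 1 < L.length), (edges L)[i] = (L[i], L[i + 1])
  | [], i, h, _, _ => absurd h (by simp [edges])
  | [_], i, h, _, _ => absurd h (by simp [edges])
  | p :: q :: l, 0, h, h1, h2 => by simp [edges]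
  | p :: q :: l, i + 1, h, h1, h2 => by
    have ih := edges_getElem (q :: l) i (by
      have := edges_length (q :: l)
      simp only [List.length_cons] at h2 this
      omega) (by simpa using h1) (by simpa using h2)
    simp only [edges, List.getElem_cons_succ] at ih ⊢
    exact ih

theorem edges_reverse : ∀ L : List (ℝ × ℝ),
    edges L.reverse = ((edges L).map Prod.swap).reverse
  | [] => rfl
  | [_] => rfl
  | p :: q :: l => by
    have ih := edges_reverse (q :: l)
    have e : (p :: q :: l).reverse = l.reverse ++ q :: [p] := by simp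
    rw [e, edges_append]
    have e2 : l.reverse ++ [q] = (q :: l).reverse := by simp
    rw [e2, ih]
    simp [edges]

/-- A simple alternating polygonal path, given by the list of its vertices. -/
structure SPath (R B : Finset (ℝ × ℝ)) (L : List (ℝ × ℝ)) : Prop where
  nd : L.Nodup
  mem : ∀ p ∈ L, p ∈ R ∪ B
  alt : ∀ e ∈ edges L, (e.1 ∈ R ↔ e.2 ∈ B)
  nc : (edges L).Pairwise NC

theorem SPath.reverse {R B : Finset (ℝ × ℝ)} (hd : Disjoint R B) {L : List (ℝ × ℝ)}
    (h : SPath R B L) : SPath R B L.reverse := by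
  refine ⟨List.nodup_reverse.2 h.nd, fun p hp => h.mem p (List.mem_reverse.1 hp), ?_, ?_⟩
  · intro e he
    rw [edges_reverse, List.mem_reverse, List.mem_map] at he
    obtain ⟨f, hf, rfl⟩ := he
    have h1 := h.alt f hf
    have h2 := mem_edges hf
    have h3 := Finset.mem_union.1 (h.mem _ h2.1)
    have h4 := Finset.mem_union.1 (h.mem _ h2.2)
    have h5 : f.1 ∈ R → f.1 ∉ B := fun h => Finset.disjoint_left.1 hd h
    have h6 : f.2 ∈ R → f.2 ∉ B := fun h => Finset.disjoint_left.1 hd h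
    rw [Prod.fst_swap, Prod.snd_swap]
    tauto
  · rw [edges_reverse, List.pairwise_reverse]
    exact List.Pairwise.map _ (fun a b hab => hab.symm.swap) h.nc

theorem SPath.hasPath {R B : Finset (ℝ × ℝ)} {L : List (ℝ × ℝ)}
    (h : SPath R B L) : HasPath R B L.length := by
  have hg : ∀ i (hi : i < L.length), L.getD i 0 = L[i] := fun i hi =>
    List.getD_eq_getElem _ _ hi
  have hinj : ∀ i j, i < L.length → j < L.length → L.getD i 0 = L.getD j 0 → i = j := by
    intro i j hi hj hij
    rw [hg i hi, hg j hj] at hij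
    exact (List.Nodup.getElem_inj_iff h.nd).1 hij
  have hedge : ∀ i, i + 1 < L.length → ∃ hi : i < (edges L).length,
      (edges L)[i] = (L.getD i 0, L.getD (i + 1) 0) := by
    intro i hi
    have hl := edges_length L
    refine ⟨by omega, ?_⟩
    rw [edges_getElem L i (by omega) (by omega) hi, hg i (by omega), hg (i + 1) hi]
  have hnc : ∀ i j, i < j → j + 1 < L.length →
      NC (L.getD i 0, L.getD (i + 1) 0) (L.getD j 0, L.getD (j + 1) 0) := by
    intro i j hij hj
    obtain ⟨hi', ei⟩ := hedge i (by omega)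
    obtain ⟨hj', ej⟩ := hedge j hj
    rw [← ei, ← ej]
    exact List.pairwise_iff_getElem.1 h.nc i j hi' hj' hij
  refine ⟨fun i => L.getD i 0, ?_, hinj, ?_, ?_, ?_⟩
  · intro i hi
    show L.getD i 0 ∈ R ∪ B
    rw [hg i hi]
    exact h.mem _ (List.getElem_mem hi)
  · intro i hi
    obtain ⟨hi', ei⟩ := hedge i hi
    have := h.alt _ (List.getElem_mem hi')
    rw [ei] at this
    exact this
  · intro i j hj hij
    rw [Set.disjoint_left]
    intro z hz1 hz2
    obtain ⟨h1, h2⟩ := hnc i j (by omega) hj z hz1 hz2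
    dsimp only at h1 h2
    rcases h1 with h1 | h1 <;> rcases h2 with h2 | h2
    · have := hinj i j (by omega) (by omega) (h1.symm.trans h2); omega
    · have := hinj i (j + 1) (by omega) (by omega) (h1.symm.trans h2); omega
    · have := hinj (i + 1) j (by omega) (by omega) (h1.symm.trans h2); omega
    · have := hinj (i + 1) (j + 1) (by omega) (by omega) (h1.symm.trans h2); omega
  · intro i hi
    apply Set.eq_singleton_iff_unique_mem.2
    refine ⟨⟨right_mem_segment ℝ _ _, left_mem_segment ℝ _ _⟩, ?_⟩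
    rintro z ⟨hz1, hz2⟩
    obtain ⟨h1, h2⟩ := hnc i (i + 1) (by omega) (by omega) z hz1 hz2
    dsimp only at h1 h2
    rcases h1 with h1 | h1
    · rcases h2 with h2 | h2
      · have := hinj i (i + 1) (by omega) (by omega) (h1.symm.trans h2); omega
      · have := hinj i (i + 1 + 1) (by omega) (by omega) (h1.symm.trans h2); omega
    · exact h1

/-- **Gluing** two paths at a common end point. -/
theorem SPath.glue {R B : Finset (ℝ × ℝ)} {L₁ L₂ : List (ℝ × ℝ)} {z : ℝ × ℝ}
    (h₁ : SPath R B (L₁ ++ [z])) (h₂ : SPath R B (z :: L₂)) (hd : ∀ p ∈ L₁, p ∉ L₂)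
    (hc : ∀ e ∈ edges (L₁ ++ [z]), ∀ f ∈ edges (z :: L₂), NC e f) :
    SPath R B (L₁ ++ z :: L₂) := by
  refine ⟨?_, ?_, ?_, ?_⟩
  · have n1 := h₁.nd
    have n2 := h₂.nd
    rw [List.nodup_append] at n1 ⊢
    refine ⟨n1.1, n2, ?_⟩
    intro a ha b hb hab
    subst hab
    rcases List.mem_cons.1 hb with rfl | hb
    · exact n1.2.2 a ha a (by simp) rfl
    · exact hd a ha hb
  · intro p hp
    rcases List.mem_append.1 hp with hp | hp
    · exact h₁.mem p (List.mem_append_left _ hp)
    · exact h₂.mem p hp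
  · intro e he
    rw [edges_append, List.mem_append] at he
    exact he.elim (h₁.alt e) (h₂.alt e)
  · rw [edges_append, List.pairwise_append]
    exact ⟨h₁.nc, h₂.nc, hc⟩

/-- Two segments on the two sides of a line which they touch at most in `z`. -/
theorem nc_line {w z : ℝ × ℝ} {e f : (ℝ × ℝ) × (ℝ × ℝ)} (h1 : dt w (e.1 - z) < 0 ∨ e.1 = z)
    (h2 : dt w (e.2 - z) < 0 ∨ e.2 = z) (h3 : 0 < dt w (f.1 - z) ∨ f.1 = z)
    (h4 : 0 < dt w (f.2 - z) ∨ f.2 = z) : NC e f := by
  intro y hy1 hy2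
  have h0 : dt w (z - z) = 0 := dt_self_sub w z
  have key : ∀ (g : ℝ × ℝ) (p q : ℝ × ℝ), (0 < dt g (p - z) ∨ p = z) →
      (0 < dt g (q - z) ∨ q = z) → y ∈ segment ℝ p q → dt g (y - z) ≤ 0 →
      y = z ∧ (z = p ∨ z = q) := by
    intro g p q hp hq hy hle
    have hg0 : dt g (z - z) = 0 := dt_self_sub g z
    obtain ⟨s, t, hs, ht, hst, hyz, hval⟩ := dt_segment (a := g) (g := z) hy
    have hp' : 0 ≤ dt g (p - z) := by
      rcases hp with hp | rfl
      · exact hp.le
      · exact hg0.ge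
    have hq' : 0 ≤ dt g (q - z) := by
      rcases hq with hq | rfl
      · exact hq.le
      · exact hg0.ge
    have m1 := mul_nonneg hs hp'
    have m2 := mul_nonneg ht hq'
    have z1 : s * dt g (p - z) = 0 := by linarith
    have z2 : t * dt g (q - z) = 0 := by linarith
    rcases hp with hp | hp
    · have hs0 : s = 0 := (mul_eq_zero.1 z1).resolve_right hp.ne'
      have ht1 : t = 1 := by linarith
      rcases hq with hq | hq
      · rw [ht1, one_mul] at z2
        exact absurd z2 hq.ne'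
      · exact ⟨by rw [hyz, hs0, ht1, zero_smul, one_smul, zero_add, hq], Or.inr hq.symm⟩
    · rcases hq with hq | hq
      · have ht0 : t = 0 := (mul_eq_zero.1 z2).resolve_right hq.ne'
        have hs1 : s = 1 := by linarith
        exact ⟨by rw [hyz, ht0, hs1, zero_smul, one_smul, add_zero, hp], Or.inl hp.symm⟩
      · refine ⟨?_, Or.inl hp.symm⟩
        rw [hyz, hp, hq, ← add_smul, hst, one_smul]
  have hneg : ∀ q : ℝ × ℝ, dt (-w) q = -dt w q := by
    intro q
    simp only [dt, Prod.fst_neg, Prod.snd_neg]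
    ring
  have a1 : dt w (y - z) ≤ 0 := by
    obtain ⟨s, t, hs, ht, hst, -, hval⟩ := dt_segment (a := w) (g := z) hy1
    have b1 : dt w (e.1 - z) ≤ 0 := by
      rcases h1 with h | h
      · exact h.le
      · rw [h]; exact h0.le
    have b2 : dt w (e.2 - z) ≤ 0 := by
      rcases h2 with h | h
      · exact h.le
      · rw [h]; exact h0.le
    have := mul_nonpos_of_nonneg_of_nonpos hs b1
    have := mul_nonpos_of_nonneg_of_nonpos ht b2
    linarith
  obtain ⟨e1, e2⟩ := key w f.1 f.2 h3 h4 hy2 a1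
  obtain ⟨-, e3⟩ := key (-w) e.1 e.2
    (h1.imp (fun h => by rw [hneg]; linarith) id)
    (h2.imp (fun h => by rw [hneg]; linarith) id) hy1 (by rw [hneg, e1, h0]; simp)
  rw [e1]
  exact ⟨e3, e2⟩

/-- Two segments strictly separated by a line. -/
theorem nc_sep {w : ℝ × ℝ} {k : ℝ} {e f : (ℝ × ℝ) × (ℝ × ℝ)} (h1 : dt w e.1 ≤ k)
    (h2 : dt w e.2 ≤ k) (h3 : k < dt w f.1) (h4 : k < dt w f.2) : NC e f := by
  intro y hy1 hy2
  exfalso
  obtain ⟨s, t, hs, ht, hst, -, v1⟩ := dt_segment (a := w) (g := 0) hy1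
  obtain ⟨s', t', hs', ht', hst', -, v2⟩ := dt_segment (a := w) (g := 0) hy2
  simp only [sub_zero] at v1 v2
  have a1 : dt w y ≤ k := by
    rw [v1]
    have := mul_le_mul_of_nonneg_left h1 hs
    have := mul_le_mul_of_nonneg_left h2 ht
    have : s * k + t * k = k := by rw [← add_mul, hst, one_mul]
    linarith
  have a2 : k < dt w y := by
    rw [v2]
    have e0 : s' * k + t' * k = k := by rw [← add_mul, hst', one_mul]
    rcases lt_or_eq_of_le hs' with h | h
    · have := mul_lt_mul_of_pos_left h3 h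
      have := mul_le_mul_of_nonneg_left h4.le ht'
      linarith
    · have ht1 : t' = 1 := by linarith
      rw [← h, ht1]
      linarith
  linarith

theorem good_nc : ∀ {l : List (ℝ × ℝ)} {p : ℝ × ℝ}, Good p l → (edges (p :: l)).Pairwise NC
  | [], _, _ => by simp [edges]
  | q :: l, p, h => by
    obtain ⟨⟨a, ha, hr⟩, hg⟩ := h
    rw [edges, List.pairwise_cons]
    refine ⟨?_, good_nc hg⟩
    intro f hf
    have hm := mem_edges hf
    refine nc_line (w := a) (z := q) (Or.inl ha) (Or.inr rfl) ?_ ?_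
    · rcases List.mem_cons.1 hm.1 with h | h
      · exact Or.inr h
      · exact Or.inl (hr _ h)
    · rcases List.mem_cons.1 hm.2 with h | h
      · exact Or.inr h
      · exact Or.inl (hr _ h)

theorem alt_edges {R B : Finset (ℝ × ℝ)} (hd : Disjoint R B) : ∀ {l : List (ℝ × ℝ)} {p : ℝ × ℝ}
    {b : Bool}, (p ∈ R ↔ b = true) → (∀ q ∈ l, q ∈ R ∪ B) → Alt R b l →
    ∀ e ∈ edges (p :: l), (e.1 ∈ R ↔ e.2 ∈ B)
  | [], _, _, _, _, _, e, he => absurd he (by simp [edges])
  | q :: l, p, b, hp, hm, h, e, he => by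
    rw [edges, List.mem_cons] at he
    obtain ⟨h1, h2⟩ := h
    rcases he with rfl | he
    · dsimp only
      have h3 := Finset.mem_union.1 (hm q List.mem_cons_self)
      have h4 : q ∈ R → q ∉ B := fun h => Finset.disjoint_left.1 hd h
      rw [hp]
      cases b <;> simp at h1 ⊢ <;> tauto
    · refine alt_edges hd ?_ (fun r hr => hm r (List.mem_cons_of_mem q hr)) h2 e he
      rw [h1]
      cases b <;> simp

/-- A good alternating list is a simple alternating path. -/
theorem spath_of_good {R B : Finset (ℝ × ℝ)} (hd : Disjoint R B) {l : List (ℝ × ℝ)} {p : ℝ × ℝ}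
    {b : Bool} (hp : p ∈ R ∪ B) (hb : p ∈ R ↔ b = true) (hm : ∀ q ∈ l, q ∈ R ∪ B)
    (hnd : (p :: l).Nodup) (hg : Good p l) (ha : Alt R b l) : SPath R B (p :: l) := by
  refine ⟨hnd, ?_, alt_edges hd hb hm ha, good_nc hg⟩
  intro q hq
  rcases List.mem_cons.1 hq with rfl | hq
  · exact hp
  · exact hm q hq

/-- Gluing along a line through the common end point. -/
theorem SPath.glue_line {R B : Finset (ℝ × ℝ)} {L₁ L₂ : List (ℝ × ℝ)} {z w : ℝ × ℝ}
    (h₁ : SPath R B (L₁ ++ [z])) (h₂ : SPath R B (z :: L₂)) (h3 : ∀ p ∈ L₁, dt w (p - z) < 0)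
    (h4 : ∀ p ∈ L₂, 0 < dt w (p - z)) : SPath R B (L₁ ++ z :: L₂) := by
  refine h₁.glue h₂ (fun p hp hp' => ?_) ?_
  · have a1 := h3 p hp
    have a2 := h4 p hp'
    linarith
  · intro e he f hf
    have he' := mem_edges he
    have hf' := mem_edges hf
    have c1 : ∀ p ∈ L₁ ++ [z], dt w (p - z) < 0 ∨ p = z := by
      intro p hp
      rcases List.mem_append.1 hp with hp | hp
      · exact Or.inl (h3 p hp)
      · exact Or.inr (List.mem_singleton.1 hp)
    have c2 : ∀ p ∈ z :: L₂, 0 < dt w (p - z) ∨ p = z := by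
      intro p hp
      rcases List.mem_cons.1 hp with hp | hp
      · exact Or.inr hp
      · exact Or.inl (h4 p hp)
    exact nc_line (c1 _ he'.1) (c1 _ he'.2) (c2 _ hf'.1) (c2 _ hf'.2)

end Pool.Agent.AltAll
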