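import Pool.Agent.AltAll.Iface30
import Pool.Agent.AltHP.Cut
import Pool.Agent.AltHP.GOne
import Pool.Agent.AltHP.Bound

/-! Long alternating paths, all sets: the final assembly. -/

set_option autoImplicit false

namespace Pool.Agent.AltAll

open Pool.Agent.AltPath Pool.Agent.AltHP Pool.Agent.HPD79 Pool.Agent.AltALL

/-- The discrepancy of half-planes. -/
theorem hp30 {R B : Finset (ℝ × ℝ)} {n G : ℕ} (h : Bal30 R B n G) :
    HP30 R B (2 * ((Nat.log 2 n + 2) * (G + 2) + G)) := by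
  intro H hH
  rcases eq_or_ne (Dc79 R H) 0 with h0 | h0
  · rw [h0]
    simp only [abs_zero]
    positivity
  · have h1 : 1 ≤ |Dc79 R H| := Int.one_le_abs h0
    have h2 : n < 2 ^ (Nat.log 2 n + 1) := Nat.lt_pow_succ_log_self (by norm_num) n
    have h4 : 2 * (n : ℤ) ≤ 2 ^ (Nat.log 2 n + 2) := by
      have h5 : 2 * n ≤ 2 ^ (Nat.log 2 n + 2) := by
        rw [pow_succ]
        omega
      exact_mod_cast h5
    have h6 : (2 : ℤ) ^ (Nat.log 2 n + 2) ≤ 2 ^ (Nat.log 2 n + 2) * |Dc79 R H| := by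
      have h7 : (0 : ℤ) ≤ 2 ^ (Nat.log 2 n + 2) := by positivity
      nlinarith
    have h3 := disc_bound cut h.dis h.gp h.hR h.hB h.hG hH (Nat.log 2 n + 2) (h4.trans h6)
    push_cast at h3 ⊢
    linarith

/-- The discrepancy of wedges. -/
theorem wb30 {C : ℕ} (hW : WedgeStmt34 C) {R B : Finset (ℝ × ℝ)} {n G K : ℕ}
    (h : Bal30 R B n G) (hK : HP30 R B K) : WB30 R B (C * (G + K + 1)) := by
  classical
  intro x hx a b
  have h1 := hW R B n G K h.dis h.gp h.hR h.hB h.hG hK x hx a b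
  rw [Dc79_eq h.dis (Finset.filter_subset _ _)] at h1
  have e1 : R ∩ (R ∪ B).filter (fun p => 0 < dt a (p - x) ∧ 0 < dt b (p - x)) =
      R.filter (fun p => 0 < dt a (p - x) ∧ 0 < dt b (p - x)) := by
    ext q
    simp only [Finset.mem_inter, Finset.mem_filter, Finset.mem_union]
    tauto
  have e2 : B ∩ (R ∪ B).filter (fun p => 0 < dt a (p - x) ∧ 0 < dt b (p - x)) =
      B.filter (fun p => 0 < dt a (p - x) ∧ 0 < dt b (p - x)) := by
    ext q
    simp only [Finset.mem_inter, Finset.mem_filter, Finset.mem_union]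
    tauto
  rw [e1, e2] at h1
  exact_mod_cast h1

theorem win_num {v M Bl dw Pi : ℕ} (h1 : v ≤ 4 * Bl)
    (h2 : Bl ≤ dw ∨ (Bl - dw) ^ 2 ≤ M * Pi) : v ^ 2 ≤ 8 * v * dw + 64 * M * Pi := by
  rcases Nat.lt_or_ge (8 * dw) v with h3 | h3
  · rcases h2 with h2 | h2
    · omega
    · obtain ⟨x, hx⟩ : ∃ x, x = Bl - dw := ⟨_, rfl⟩
      rw [← hx] at h2
      have h4 : v ≤ 8 * x := by omega
      have h5 : v ^ 2 ≤ (8 * x) ^ 2 := Nat.pow_le_pow_left h4 2
      nlinarith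
  · nlinarith

/-- Pigeonhole for residue classes. -/
theorem residue30 (S : Finset ℕ) {L : ℕ} (hL : 1 ≤ L) :
    ∃ r, S.card ≤ L * (S.filter (fun i => i % L = r)).card := by
  classical
  by_contra hcon
  push Not at hcon
  have h1 : S.card = ∑ r ∈ Finset.range L, (S.filter (fun i => i % L = r)).card :=
    Finset.card_eq_sum_card_fiberwise (fun i _ => by
      simpa using Nat.mod_lt i (by omega))
  have h2 : ∑ r ∈ Finset.range L, L * (S.filter (fun i => i % L = r)).card <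
      ∑ _r ∈ Finset.range L, S.card :=
    Finset.sum_lt_sum_of_nonempty ⟨0, by simp; omega⟩ (fun r _ => hcon r)
  rw [← Finset.mul_sum, ← h1, Finset.sum_const, Finset.card_range, smul_eq_mul] at h2
  exact lt_irrefl _ h2

theorem chain_le30 {R B : Finset (ℝ × ℝ)} {n v : ℕ} {z : ℕ → ℝ × ℝ} (hB : B.card = n)
    (hz : Chain30 R B v z) : v + 1 ≤ n := by
  classical
  have h1 : (Finset.range (v + 1)).card ≤ B.card := by
    refine Finset.card_le_card_of_injOn z ?_ ?_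
    · intro i hi
      have : i < v + 1 := by simpa using hi
      exact hz.mem i (by omega)
    · intro i hi j hj hij
      have hi' : i < v + 1 := by simpa using hi
      have hj' : j < v + 1 := by simpa using hj
      rcases lt_trichotomy i j with h | h | h
      · exact absurd hij (hz.inj i j h (by omega))
      · exact h
      · exact absurd hij.symm (hz.inj j i h (by omega))
  rw [Finset.card_range, hB] at h1
  exact h1

/-- Many RG indices bound the length of the chain. -/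
theorem cnt30 (hT : TStmt30) (hWin : WinStmt30) (hCount : CountStmt30) {R B : Finset (ℝ × ℝ)}
    {n G K D M k v : ℕ} {z : ℕ → ℝ × ℝ} (h : Bal30 R B n G) (hK : HP30 R B K)
    (hD : WB30 R B D) (hz : Chain30 R B v z) (hM : M = G + K + D + 4) (hk : k = D + 4)
    (hv : 12 * (M * k) ≤ v) (S : Finset ℕ) (hS : ∀ i ∈ S, RG30 R B v z M i ∧ i + v / 3 ≤ v)
    (hc : v ≤ 6 * S.card) : v ^ 3 ≤ 864 * (M ^ 2 * k) * n ^ 2 := by
  classical
  have hvn := chain_le30 h.hB hz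
  have hMk : 4 * M ≤ M * k := by
    rw [hk]
    nlinarith
  have hMk1 : M + k ≤ M * k := by
    obtain ⟨k', rfl⟩ : ∃ k', k = k' + 4 := ⟨D, hk⟩
    obtain ⟨M', rfl⟩ : ∃ M', M = M' + 4 := ⟨G + K + D, hM⟩
    nlinarith
  obtain ⟨L, hL⟩ : ∃ L, L = (M - 1) * k := ⟨_, rfl⟩
  have hL1 : 1 ≤ L := by
    rw [hL]
    exact Nat.mul_pos (by omega) (by omega)
  have hLM : L + k = M * k := by
    rw [hL]
    obtain ⟨M', rfl⟩ : ∃ M', M = M' + 1 := ⟨M - 1, by omega⟩
    rw [Nat.add_sub_cancel]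
    ring
  obtain ⟨r, hr⟩ := residue30 S hL1
  obtain ⟨I, hI⟩ : ∃ I, I = S.filter (fun i => i % L = r) := ⟨_, rfl⟩
  rw [← hI] at hr
  have hIS : ∀ i ∈ I, i ∈ S ∧ i % L = r := fun i hi => by
    rw [hI] at hi
    exact Finset.mem_filter.mp hi
  have hrange : ∀ i ∈ I, i + M * k ≤ v := fun i hi => by
    have := (hS i (hIS i hi).1).2
    omega
  obtain ⟨hc1, hc2⟩ := hCount R B n L v z I h.dis h.gp h.hR h.hB hz hL1
    (fun i hi => by
      have := hrange i hi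
      omega)
    (fun i hi j hj hij => by
      have e1 := (hIS i hi).2
      have e2 := (hIS j hj).2
      have e3 : j ≡ i [MOD L] := by
        unfold Nat.ModEq
        rw [e1, e2]
      have e4 : L ∣ j - i := (Nat.modEq_iff_dvd' hij.le).mp e3.symm
      have e5 := Nat.le_of_dvd (by omega) e4
      omega)
  have key : ∀ i ∈ I, v ^ 2 ≤ 8 * v * (dw30 R B v z L i).card + 64 * M * (Pi30 R B z L i).card := by
    intro i hi
    obtain ⟨hrg, hi2⟩ := hS i (hIS i hi).1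
    obtain ⟨tau, ht, hb⟩ := hT R B n K D M v z i h.dis h.gp h.hR h.hB hK hD hz (by omega)
      (by omega) hrg
    have h1 := hWin R B n G K D M k v z i tau h hK hD hz (by omega) (by omega) (hrange i hi) ht
    rw [← hL] at h1
    exact win_num (by omega) h1
  have hsum : I.card * v ^ 2 ≤ 8 * v * (2 * n) + 64 * M * (2 * n ^ 2) := by
    calc I.card * v ^ 2 = ∑ _i ∈ I, v ^ 2 := by rw [Finset.sum_const, smul_eq_mul]
      _ ≤ ∑ i ∈ I, (8 * v * (dw30 R B v z L i).card + 64 * M * (Pi30 R B z L i).card) :=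
          Finset.sum_le_sum key
      _ = 8 * v * ∑ i ∈ I, (dw30 R B v z L i).card + 64 * M * ∑ i ∈ I, (Pi30 R B z L i).card := by
          rw [Finset.sum_add_distrib, Finset.mul_sum, Finset.mul_sum]
      _ ≤ 8 * v * (2 * n) + 64 * M * (2 * n ^ 2) :=
          Nat.add_le_add (Nat.mul_le_mul_left _ hc2) (Nat.mul_le_mul_left _ hc1)
  have h1 : v * v ^ 2 ≤ 6 * (L * I.card) * v ^ 2 :=
    Nat.mul_le_mul_right _ (hc.trans (Nat.mul_le_mul_left 6 hr))
  have h2 : 6 * (L * I.card) * v ^ 2 = 6 * L * (I.card * v ^ 2) := by ring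
  have h3 : 6 * L * (I.card * v ^ 2) ≤ 6 * L * (8 * v * (2 * n) + 64 * M * (2 * n ^ 2)) :=
    Nat.mul_le_mul_left _ hsum
  have h4 : 8 * v * (2 * n) + 64 * M * (2 * n ^ 2) ≤ 144 * (M * n ^ 2) := by
    have h5 : v * n ≤ n * n := Nat.mul_le_mul_right _ (by omega)
    have h6 : n ^ 2 ≤ M * n ^ 2 := Nat.le_mul_of_pos_left _ (by omega)
    nlinarith
  have h5 : 6 * L * (8 * v * (2 * n) + 64 * M * (2 * n ^ 2)) ≤
      6 * (M * k) * (144 * (M * n ^ 2)) :=
    Nat.mul_le_mul (Nat.mul_le_mul_left 6 (by omega)) h4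
  calc v ^ 3 = v * v ^ 2 := by ring
    _ ≤ 6 * (M * k) * (144 * (M * n ^ 2)) := h1.trans (h2.le.trans (h3.trans h5))
    _ = 864 * (M ^ 2 * k) * n ^ 2 := by ring

/-- The length of the chain. -/
theorem len30 (hT : TStmt30) (hRL : RLStmt30) (hRefl : ReflStmt30) (hWin : WinStmt30)
    (hCount : CountStmt30) {R B : Finset (ℝ × ℝ)}
    {n G K D M k v : ℕ} {z : ℕ → ℝ × ℝ} (h : Bal30 R B n G) (hK : HP30 R B K)
    (hD : WB30 R B D) (hz : Chain30 R B v z) (hM : M = G + K + D + 4) (hk : k = D + 4)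
    (hv : 12 * (M * k) ≤ v) : v ^ 3 ≤ 864 * (M ^ 2 * k) * n ^ 2 := by
  classical
  obtain ⟨r1, r2, r3, r4⟩ := hRefl
  have hMk1 : M + k ≤ M * k := by
    obtain ⟨k', rfl⟩ : ∃ k', k = k' + 4 := ⟨D, hk⟩
    obtain ⟨M', rfl⟩ : ∃ M', M = M' + 4 := ⟨G + K + D, hM⟩
    nlinarith
  obtain ⟨m, hm⟩ : ∃ m, m = v / 3 := ⟨_, rfl⟩
  obtain ⟨Q, hQ⟩ : ∃ Q, Q = Finset.Icc m (v - m) := ⟨_, rfl⟩
  obtain ⟨S1, hS1⟩ : ∃ S1, S1 = Q.filter (fun i => RG30 R B v z M i) := ⟨_, rfl⟩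
  obtain ⟨S2, hS2⟩ : ∃ S2, S2 = Q.filter (fun i => RG30 (R.image sw30) (B.image sw30) v
    (fun j => sw30 (z (v - j))) M i) := ⟨_, rfl⟩
  have hcov : Q ⊆ S1 ∪ S2.image (fun i => v - i) := by
    intro i hi
    have hi' : m ≤ i ∧ i ≤ v - m := by
      rw [hQ] at hi
      exact Finset.mem_Icc.mp hi
    rw [Finset.mem_union]
    rcases hRL R B D M v z h.dis h.gp hD hz (by omega) i (by omega) (by omega) with h1 | h1
    · left
      rw [hS1, Finset.mem_filter]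
      exact ⟨hi, h1⟩
    · right
      rw [Finset.mem_image]
      refine ⟨v - i, ?_, by omega⟩
      rw [hS2, Finset.mem_filter]
      refine ⟨?_, h1⟩
      rw [hQ, Finset.mem_Icc]
      omega
  have hcard : v + 1 - m - m ≤ S1.card + S2.card := by
    have e1 : Q.card = v - m + 1 - m := by rw [hQ, Nat.card_Icc]
    have e2 := (Finset.card_le_card hcov).trans (Finset.card_union_le _ _)
    have e3 : (S2.image (fun i => v - i)).card ≤ S2.card := Finset.card_image_le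
    omega
  have hcase : v ≤ 6 * S1.card ∨ v ≤ 6 * S2.card := by omega
  rcases hcase with hc | hc
  · refine cnt30 hT hWin hCount h hK hD hz hM hk hv S1 ?_ hc
    intro i hi
    rw [hS1, Finset.mem_filter, hQ, Finset.mem_Icc] at hi
    exact ⟨hi.2, by omega⟩
  · refine cnt30 hT hWin hCount (r1 R B n G h) (r2 R B K hK) (r3 R B D hD) (r4 R B v z hz)
      hM hk hv S2 ?_ hc
    intro i hi
    rw [hS2, Finset.mem_filter, hQ, Finset.mem_Icc] at hi
    exact ⟨hi.2, by omega⟩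

/-- The bound for n. -/
theorem top30 {C : ℕ} (hW : WedgeStmt34 C) (hHole : HoleStmt30) (hChain : ChainStmt30)
    (hT : TStmt30) (hRL : RLStmt30) (hRefl : ReflStmt30) (hWin : WinStmt30)
    (hCount : CountStmt30) {R B : Finset (ℝ × ℝ)} {n G : ℕ} (h : Bal30 R B n G) (hG : 1 ≤ G) :
    n ≤ 24755860224 * (16 * C + 19) ^ 6 * (G * (Nat.log 2 n + 1)) ^ 9 := by
  classical
  obtain ⟨X, hX⟩ : ∃ X, X = G * (Nat.log 2 n + 1) := ⟨_, rfl⟩
  obtain ⟨K, hK⟩ : ∃ K, K = 2 * ((Nat.log 2 n + 2) * (G + 2) + G) := ⟨_, rfl⟩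
  obtain ⟨D, hD⟩ : ∃ D, D = C * (G + K + 1) := ⟨_, rfl⟩
  obtain ⟨M, hM⟩ : ∃ M, M = G + K + D + 4 := ⟨_, rfl⟩
  obtain ⟨k, hk⟩ : ∃ k, k = D + 4 := ⟨_, rfl⟩
  obtain ⟨E, hE⟩ : ∃ E, E = 16 * C + 19 := ⟨_, rfl⟩
  have hHP : HP30 R B K := by rw [hK]; exact hp30 h
  have hWB : WB30 R B D := by rw [hD]; exact wb30 hW h hHP
  rw [← hX, ← hE]
  have hGX : G ≤ X := by rw [hX]; exact Nat.le_mul_of_pos_right _ (by omega)
  have hX1 : 1 ≤ X := hG.trans hGX
  have hKX : K ≤ 14 * X := by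
    have h1 : (Nat.log 2 n + 2) * (G + 2) ≤ (2 * (Nat.log 2 n + 1)) * (3 * G) :=
      Nat.mul_le_mul (by omega) (by omega)
    have h2 : (2 * (Nat.log 2 n + 1)) * (3 * G) = 6 * X := by rw [hX]; ring
    omega
  have hsX : G + K + 2 ≤ 17 * X := by omega
  have hDX : D ≤ 16 * C * X := by
    rw [hD]
    calc C * (G + K + 1) ≤ C * (16 * X) := Nat.mul_le_mul_left _ (by omega)
      _ = 16 * C * X := by ring
  have hDE : D + 19 * X ≤ E * X := by rw [hE]; nlinarith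
  have hMX : M ≤ E * X := by omega
  have hkX : k ≤ E * X := by omega
  have hDX9 : 9 * D + 16 ≤ 9 * (E * X) := by omega
  have hE1 : 1 ≤ E := by omega
  obtain ⟨F, hFB, hF, hnF⟩ := hHole R B n G K h hHP
  -- powers
  have hpow : ∀ i j : ℕ, i ≤ 6 → j ≤ 9 → E ^ i * X ^ j ≤ E ^ 6 * X ^ 9 := fun i j hi hj =>
    Nat.mul_le_mul (Nat.pow_le_pow_right hE1 hi) (Nat.pow_le_pow_right hX1 hj)
  rcases Nat.lt_or_ge F.card 2 with hF2 | hF2
  · have h1 : n ≤ 2 * (G + K + 2) * 4 := hnF.trans (Nat.mul_le_mul_left _ (by omega))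
    have h2 := hpow 0 1 (by omega) (by omega)
    rw [pow_zero, one_mul, pow_one] at h2
    calc n ≤ 136 * X := by omega
      _ ≤ 24755860224 * (E ^ 6 * X ^ 9) := by omega
      _ = 24755860224 * E ^ 6 * X ^ 9 := by ring
  obtain ⟨v, z, hv1, hz, hFv⟩ := hChain R B n D F h.dis h.gp h.hR h.hB hWB hFB hF hF2
  have hnv : n ≤ 2 * (17 * X) * (v * (9 * (E * X))) := by
    have h1 : 3 * F.card + 1 ≤ v * (9 * D + 16) := by
      obtain ⟨v', rfl⟩ : ∃ v', v = v' + 1 := ⟨v - 1, by omega⟩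
      rw [Nat.add_sub_cancel] at hFv
      nlinarith
    calc n ≤ 2 * (G + K + 2) * (3 * F.card + 1) := hnF
      _ ≤ 2 * (17 * X) * (v * (9 * D + 16)) :=
          Nat.mul_le_mul (Nat.mul_le_mul_left 2 hsX) h1
      _ ≤ 2 * (17 * X) * (v * (9 * (E * X))) :=
          Nat.mul_le_mul_left _ (Nat.mul_le_mul_left _ hDX9)
  rcases Nat.lt_or_ge v (12 * (M * k)) with hv | hv
  · have h1 : v ≤ 12 * ((E * X) * (E * X)) :=
      hv.le.trans (Nat.mul_le_mul_left 12 (Nat.mul_le_mul hMX hkX))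
    have h2 := hpow 3 4 (by omega) (by omega)
    calc n ≤ 2 * (17 * X) * (v * (9 * (E * X))) := hnv
      _ ≤ 2 * (17 * X) * ((12 * ((E * X) * (E * X))) * (9 * (E * X))) :=
          Nat.mul_le_mul_left _ (Nat.mul_le_mul_right _ h1)
      _ = 3672 * (E ^ 3 * X ^ 4) := by ring
      _ ≤ 24755860224 * (E ^ 6 * X ^ 9) := by omega
      _ = 24755860224 * E ^ 6 * X ^ 9 := by ring
  · have h1 := len30 hT hRL hRefl hWin hCount h hHP hWB hz hM hk hv
    have hn0 : 0 < n := by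
      have := chain_le30 h.hB hz
      omega
    have h2 : M ^ 2 * k ≤ (E * X) ^ 2 * (E * X) :=
      Nat.mul_le_mul (Nat.pow_le_pow_left hMX 2) hkX
    have h3 : n ^ 3 ≤ (24755860224 * E ^ 6 * X ^ 9) * n ^ 2 := by
      calc n ^ 3 ≤ (2 * (17 * X) * (v * (9 * (E * X)))) ^ 3 := Nat.pow_le_pow_left hnv 3
        _ = (306 * E * X ^ 2) ^ 3 * v ^ 3 := by ring
        _ ≤ (306 * E * X ^ 2) ^ 3 * (864 * (M ^ 2 * k) * n ^ 2) := Nat.mul_le_mul_left _ h1
        _ ≤ (306 * E * X ^ 2) ^ 3 * (864 * ((E * X) ^ 2 * (E * X)) * n ^ 2) :=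
            Nat.mul_le_mul_left _ (Nat.mul_le_mul_right _ (Nat.mul_le_mul_left _ h2))
        _ = (24755860224 * E ^ 6 * X ^ 9) * n ^ 2 := by ring
    have h4 : n * n ^ 2 ≤ (24755860224 * E ^ 6 * X ^ 9) * n ^ 2 := by
      calc n * n ^ 2 = n ^ 3 := by ring
        _ ≤ _ := h3
    exact Nat.le_of_mul_le_mul_right h4 (by positivity)

end Pool.Agent.AltAll
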