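import Pool.Agent.AltAll.Iface30

/-! Windows: the window lemma and the count bound the length of the chain. -/

set_option autoImplicit false

open Finset

namespace Pool.Agent.AltAll12

open Pool.Agent.AltPath Pool.Agent.AltHP Pool.Agent.HPD79 Pool.Agent.AltALL Pool.Agent.AltAll

theorem win_arith {v b d M p : ℕ} (hb : v ≤ 4 * b) (h : b ≤ d ∨ (b - d) ^ 2 ≤ M * p) :
    v ^ 2 ≤ 64 * M * p + 8 * v * d := by
  by_cases h8 : v ≤ 8 * d
  · calc v ^ 2 = v * v := by ring
      _ ≤ v * (8 * d) := Nat.mul_le_mul_left _ h8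
      _ = 8 * v * d := by ring
      _ ≤ _ := Nat.le_add_left _ _
  · rcases h with h | h
    · omega
    · have h1 : v ≤ 8 * (b - d) := by omega
      calc v ^ 2 ≤ (8 * (b - d)) ^ 2 := Nat.pow_le_pow_left h1 2
        _ = 64 * (b - d) ^ 2 := by ring
        _ ≤ 64 * (M * p) := Nat.mul_le_mul_left _ h
        _ = 64 * M * p := by ring
        _ ≤ _ := Nat.le_add_right _ _

theorem chain_card {R B : Finset (ℝ × ℝ)} {v n : ℕ} {z : ℕ → ℝ × ℝ} (hB : B.card = n)
    (h : Chain30 R B v z) : v + 1 ≤ n := by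
  classical
  have hsub : (Finset.range (v + 1)).image z ⊆ B := by
    intro p hp
    obtain ⟨i, hi, rfl⟩ := Finset.mem_image.mp hp
    exact h.mem i (by have := Finset.mem_range.mp hi; omega)
  have hc := Finset.card_le_card hsub
  rw [Finset.card_image_of_injOn, Finset.card_range, hB] at hc
  · exact hc
  · intro a ha b hb hab
    rw [Finset.coe_range, Set.mem_Iio] at ha hb
    rcases lt_trichotomy a b with h1 | h1 | h1
    · exact absurd hab (h.inj a b h1 (by omega))
    · exact h1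
    · exact absurd hab.symm (h.inj b a h1 (by omega))

/-- Separated windows: few of them. -/
theorem thin12 (hWin : WinStmt30) (hCount : CountStmt30) (hT : TStmt30)
    {R B : Finset (ℝ × ℝ)} {n G K D M k v : ℕ} {z : ℕ → ℝ × ℝ} (hb : Bal30 R B n G)
    (hK : HP30 R B K) (hD : WB30 R B D) (hch : Chain30 R B v z) (hM : G + K + D + 4 ≤ M)
    (hk : D + 4 ≤ k) (hv : 12 * (M * k) ≤ v) (I : Finset ℕ) (hI : ∀ i ∈ I, 3 * i ≤ 2 * v)
    (hsep : ∀ i ∈ I, ∀ j ∈ I, i < j → i + M * k ≤ j) (hRG : ∀ i ∈ I, RG30 R B v z M i) :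
    I.card * v ^ 2 ≤ 144 * M * n ^ 2 := by
  classical
  have hMk : 4 * M ≤ M * k := by
    rw [Nat.mul_comm 4 M]; exact Nat.mul_le_mul_left _ (by omega)
  have hL : (M - 1) * k + k = M * k := by
    obtain ⟨m, rfl⟩ : ∃ m, M = m + 1 := ⟨M - 1, by omega⟩
    rw [Nat.add_sub_cancel]; ring
  have hL1 : 1 ≤ (M - 1) * k := Nat.mul_pos (by omega) (by omega)
  have key : ∀ i ∈ I, v ^ 2 ≤ 64 * M * (Pi30 R B z ((M - 1) * k) i).card +
      8 * v * (dw30 R B v z ((M - 1) * k) i).card := by
    intro i hi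
    have h1 := hI i hi
    obtain ⟨tau, ht, hbl⟩ := hT R B n K D M v z i hb.dis hb.gp hb.hR hb.hB hK hD hch (by omega)
      (by omega) (hRG i hi)
    exact win_arith (by omega) (hWin R B n G K D M k v z i tau hb hK hD hch hM hk (by omega) ht)
  obtain ⟨c1, c2⟩ := hCount R B n ((M - 1) * k) v z I hb.dis hb.gp hb.hR hb.hB hch hL1
    (fun i hi => by have := hI i hi; omega)
    (fun i hi j hj hij => by have := hsep i hi j hj hij; omega)
  have hvn := chain_card hb.hB hch
  calc I.card * v ^ 2 = ∑ i ∈ I, v ^ 2 := by rw [Finset.sum_const, smul_eq_mul]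
    _ ≤ ∑ i ∈ I, (64 * M * (Pi30 R B z ((M - 1) * k) i).card +
        8 * v * (dw30 R B v z ((M - 1) * k) i).card) := Finset.sum_le_sum key
    _ = 64 * M * ∑ i ∈ I, (Pi30 R B z ((M - 1) * k) i).card +
        8 * v * ∑ i ∈ I, (dw30 R B v z ((M - 1) * k) i).card := by
      rw [Finset.sum_add_distrib, Finset.mul_sum, Finset.mul_sum]
    _ ≤ 64 * M * (2 * n ^ 2) + 8 * v * (2 * n) :=
      Nat.add_le_add (Nat.mul_le_mul_left _ c1) (Nat.mul_le_mul_left _ c2)
    _ ≤ 64 * M * (2 * n ^ 2) + 8 * n * (2 * n) :=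
      Nat.add_le_add_left (Nat.mul_le_mul_right _ (Nat.mul_le_mul_left _ (by omega))) _
    _ = (128 * M + 16) * n ^ 2 := by ring
    _ ≤ (144 * M) * n ^ 2 := Nat.mul_le_mul_right _ (by omega)

/-- **One side.** All indices with the condition RG. -/
theorem one_side12 (hWin : WinStmt30) (hCount : CountStmt30) (hT : TStmt30)
    {R B : Finset (ℝ × ℝ)} {n G K D M k v : ℕ} {z : ℕ → ℝ × ℝ} (hb : Bal30 R B n G)
    (hK : HP30 R B K) (hD : WB30 R B D) (hch : Chain30 R B v z) (hM : G + K + D + 4 ≤ M)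
    (hk : D + 4 ≤ k) (hv : 12 * (M * k) ≤ v) (I : Finset ℕ) (hI : ∀ i ∈ I, 3 * i ≤ 2 * v)
    (hRG : ∀ i ∈ I, RG30 R B v z M i) :
    I.card * v ^ 2 ≤ 144 * M ^ 2 * k * n ^ 2 := by
  classical
  have hpos : 0 < M * k := Nat.mul_pos (by omega) (by omega)
  have hfib : I.card = ∑ r ∈ range (M * k), #{i ∈ I | i % (M * k) = r} :=
    Finset.card_eq_sum_card_fiberwise (fun i _ => by
      simpa using Nat.mod_lt i hpos)
  have hone : ∀ r ∈ range (M * k), #{i ∈ I | i % (M * k) = r} * v ^ 2 ≤ 144 * M * n ^ 2 := by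
    intro r _
    refine thin12 hWin hCount hT hb hK hD hch hM hk hv _
      (fun i hi => hI i (Finset.mem_filter.mp hi).1) ?_
      (fun i hi => hRG i (Finset.mem_filter.mp hi).1)
    intro i hi j hj hij
    have h1 := (Finset.mem_filter.mp hi).2
    have h2 := (Finset.mem_filter.mp hj).2
    have h3 : M * k ∣ j - i := (Nat.modEq_iff_dvd' hij.le).mp (h1.trans h2.symm)
    have h4 := Nat.le_of_dvd (by omega) h3
    omega
  calc I.card * v ^ 2 = ∑ r ∈ range (M * k), #{i ∈ I | i % (M * k) = r} * v ^ 2 := by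
        rw [← Finset.sum_mul, ← hfib]
    _ ≤ ∑ _r ∈ range (M * k), 144 * M * n ^ 2 := Finset.sum_le_sum hone
    _ = 144 * M ^ 2 * k * n ^ 2 := by
      rw [Finset.sum_const, Finset.card_range, smul_eq_mul]; ring

/-- **Both sides.** The length of a chain is bounded. -/
theorem chain_bound12 (hWin : WinStmt30) (hCount : CountStmt30) (hT : TStmt30)
    (hRL : RLStmt30) (hRefl : ReflStmt30)
    {R B : Finset (ℝ × ℝ)} {n G K D M k v : ℕ} {z : ℕ → ℝ × ℝ} (hb : Bal30 R B n G)
    (hK : HP30 R B K) (hD : WB30 R B D) (hch : Chain30 R B v z) (hM : G + K + D + 4 ≤ M)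
    (hk : D + 4 ≤ k) (hv : 12 * (M * k) ≤ v) :
    v ^ 3 ≤ 1152 * M ^ 2 * k * n ^ 2 := by
  classical
  have hMk : 4 * M ≤ M * k := by
    rw [Nat.mul_comm 4 M]; exact Nat.mul_le_mul_left _ (by omega)
  obtain ⟨r1, r2, r3, r4⟩ := hRefl
  set J := Finset.Icc (v / 3 + 1) (2 * v / 3) with hJ
  set I1 := J.filter (fun i => RG30 R B v z M i) with hI1
  set I2 := (J.filter (fun i => RG30 (R.image sw30) (B.image sw30) v
    (fun j => sw30 (z (v - j))) M (v - i))).image (fun i => v - i) with hI2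
  have hJc : v ≤ 4 * J.card := by
    rw [hJ, Nat.card_Icc]; omega
  have hcard : J.card ≤ I1.card + I2.card := by
    rw [hI2, Finset.card_image_of_injOn]
    · rw [hI1]
      calc J.card ≤ (J.filter (fun i => RG30 R B v z M i) ∪
            J.filter (fun i => RG30 (R.image sw30) (B.image sw30) v
              (fun j => sw30 (z (v - j))) M (v - i))).card := by
            refine Finset.card_le_card fun i hi => ?_
            have hi' := Finset.mem_Icc.mp hi
            rw [Finset.mem_union, Finset.mem_filter, Finset.mem_filter]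
            rcases hRL R B D M v z hb.dis hb.gp hD hch (by omega) i (by omega) (by omega) with h | h
            · exact Or.inl ⟨hi, h⟩
            · exact Or.inr ⟨hi, h⟩
        _ ≤ _ := Finset.card_union_le _ _
    · intro a ha b hb' hab
      have ha' := Finset.mem_Icc.mp (Finset.mem_filter.mp (Finset.mem_coe.mp ha)).1
      have hb'' := Finset.mem_Icc.mp (Finset.mem_filter.mp (Finset.mem_coe.mp hb')).1
      simp only at hab
      omega
  have s1 := one_side12 hWin hCount hT hb hK hD hch hM hk hv I1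
    (fun i hi => by
      have := Finset.mem_Icc.mp (Finset.mem_filter.mp hi).1
      omega)
    (fun i hi => (Finset.mem_filter.mp hi).2)
  have s2 := one_side12 hWin hCount hT (r1 R B n G hb) (r2 R B K hK) (r3 R B D hD)
    (r4 R B v z hch) hM hk hv I2
    (fun i hi => by
      obtain ⟨j, hj, rfl⟩ := Finset.mem_image.mp hi
      have := Finset.mem_Icc.mp (Finset.mem_filter.mp hj).1
      omega)
    (fun i hi => by
      obtain ⟨j, hj, rfl⟩ := Finset.mem_image.mp hi
      exact (Finset.mem_filter.mp hj).2)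
  calc v ^ 3 = v * v ^ 2 := by ring
    _ ≤ (4 * (I1.card + I2.card)) * v ^ 2 := Nat.mul_le_mul_right _ (by omega)
    _ = 4 * (I1.card * v ^ 2 + I2.card * v ^ 2) := by ring
    _ ≤ 4 * (144 * M ^ 2 * k * n ^ 2 + 144 * M ^ 2 * k * n ^ 2) :=
      Nat.mul_le_mul_left _ (Nat.add_le_add s1 s2)
    _ = 1152 * M ^ 2 * k * n ^ 2 := by ring

end Pool.Agent.AltAll12
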