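import Pool.Agent.AltALL.Loc6
import Pool.Agent.AltAll.Good82

/-! The window lemma. -/

set_option autoImplicit false

namespace Pool.Agent.AltALL6

open Pool.Agent.AltPath Pool.Agent.AltHP Pool.Agent.AltALL Pool.Agent.AltAll

/-- **The window lemma.** -/
theorem win6 : WinStmt30 := by
  classical
  intro R B n G K D M k v z i tau hBal hHP hWB hC hM hk hiv hT
  rcases rec6 hBal.gp hBal.dis hWB hC hk hiv hT (M - 1) (by omega) with ⟨w, hw0, hI⟩ | h
  · exfalso
    refine good_window82 hBal hHP hWB hC hM (by omega) hiv hT w hw0 ?_ ?_ ?_ ?_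
    · exact fun m h1 h2 => hI.sq m h1 (by omega)
    · exact fun m h1 h2 => hI.se m h1 (by omega)
    · intro m hm p hp hj
      refine hI.off m (by omega) p ?_
      rcases Finset.mem_union.1 hp with h | h
      · exact Finset.mem_union_left _ ((mem_VV m).2 ⟨h, hj⟩)
      · exact Finset.mem_union_right _ ((mem_VV m).2 ⟨h, hj⟩)
    · intro m hm
      have e : ∀ S : Finset (ℝ × ℝ), S.filter (fun p => (∀ j ≤ m, 0 < dt (w j) (p - z (i + j * k))) ∧
          dt (w (m + 1)) (p - z (i + (m + 1) * k)) < 0) =
          CL S (fun j => z (i + j * k)) w m := by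
        intro S
        ext p
        rw [Finset.mem_filter, mem_CL]
      rw [e, e]
      exact hI.cnt m (by omega)
  · obtain ⟨m, hm, w, hw0, hI, hlt⟩ := h
    exact Or.inr (alt6 hC hk hiv hT hm hw0 hI hlt)

end Pool.Agent.AltALL6
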